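import Pool.Agent.Helper97.S4.Chr

/-!
# Project IR, section 4 (S4-03): Clifford's theorem for subgroups

Let `L ≤ K`, `L` normalized by `K`. Use the library with `M = L`, `G = K`, the normal pair
`D : NP L K` (inclusion and conjugation) and `θ, θ' : IrrX D` the restrictions of `ρ, ρ'`:
by `exists_cliff` (for the representation of `ρ'`) the character `χ|_K` is `cliff D τ ψ` with
`InvM D τ ψ`, and by `resHat_one` the number `ip L χ ρ = B (χ ∘ ι) ρ.character` is
`resHat D ρ χ 1`. If no `x : K` satisfied `ρ.character = (twistA D τ x).character`, then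
`resHat_cliff_ne` would give `resHat D ρ χ = 0`, a contradiction. So there is `x : K` with
`ρ (m) = ρ' (x m x⁻¹)` on `L`, that is `cnj x⁻¹ ρ' = ρ` (both vanish off `L`), `cnj x ρ = ρ'`.
-/

namespace Pool.Agent.Helper97.S4

open Pool.Agent.Helper42.INC Pool.Agent.Helper42.IR

variable {G : Type} [Group G] [Finite G]

/-- the normal pair `L ≤ K` -/
private def s4cl_D {L K : Subgroup G} (hLK : L ≤ K) (hn : K ≤ Subgroup.normalizer (L : Set G)) :
    NP L K where
  ι := Subgroup.inclusion hLK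
  inj := Subgroup.inclusion_injective hLK
  α :=
    { toFun := fun k =>
        { toFun := fun x => ⟨k * x * (k : G)⁻¹, (Subgroup.mem_normalizer_iff.1 (hn k.2) x).1 x.2⟩
          invFun := fun x => ⟨(k : G)⁻¹ * x * k, (Subgroup.mem_normalizer_iff''.1 (hn k.2) x).1 x.2⟩
          left_inv := by
            intro x
            apply Subtype.ext
            change (k : G)⁻¹ * (k * x * (k : G)⁻¹) * k = x
            group
          right_inv := by
            intro x
            apply Subtype.ext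
            change k * ((k : G)⁻¹ * x * k) * (k : G)⁻¹ = x
            group
          map_mul' := by
            intro x y
            apply Subtype.ext
            change k * ((x : G) * y) * (k : G)⁻¹ = (k * x * (k : G)⁻¹) * (k * y * (k : G)⁻¹)
            group }
      map_one' := by
        ext x
        change (1 : G) * x * (1 : G)⁻¹ = x
        group
      map_mul' := by
        intro a b
        ext x
        change ((a : G) * b) * x * ((a : G) * b)⁻¹ = a * (b * x * (b : G)⁻¹) * (a : G)⁻¹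
        group }
  compat := by
    intro g m
    apply Subtype.ext
    rfl

theorem clifford {L K : Subgroup G} (hLK : L ≤ K)
    (hn : K ≤ Subgroup.normalizer (L : Set G)) {χ ρ ρ' : G → ℂ} (hχ : χ ∈ IrrS K)
    (hρ : ρ ∈ IrrS L) (hρ' : ρ' ∈ IrrS L) (h : ip L χ ρ ≠ 0) (h' : ip L χ ρ' ≠ 0) :
    ∃ k ∈ K, cnj k ρ = ρ' := by
  obtain ⟨V, iV1, iV2, iV3, r, hr, hrρ⟩ := hρ.1
  obtain ⟨W, iW1, iW2, iW3, t, ht, htρ⟩ := hρ'.1
  set D := s4cl_D hLK hn with hD
  have h1 : B (fun m => (fun k : K => χ k) (D.ι m)) t.character ≠ 0 := by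
    rw [← htρ]
    exact h'
  obtain ⟨ψ, hψ, hI, hS, hχψ⟩ := exists_cliff D t hχ.1 h1
  have h2 : resHat D r (fun k : K => χ k) 1 ≠ 0 := by
    rw [resHat_one, ← hrρ]
    exact h
  have h3 : ∃ x : K, r.character = (twistA D t x).character := by
    by_contra hcon
    push Not at hcon
    apply h2
    rw [hχψ, resHat_cliff_ne D r t hI hcon]
    rfl
  obtain ⟨x, hx⟩ := h3
  refine ⟨x, x.2, ?_⟩
  funext y
  change ρ ((x : G)⁻¹ * y * x) = ρ' y
  by_cases hy : y ∈ L
  · have h4 : (x : G)⁻¹ * y * x ∈ L := (Subgroup.mem_normalizer_iff''.1 (hn x.2) y).1 hy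
    have h5 := congrFun hx ⟨(x : G)⁻¹ * y * x, h4⟩
    rw [← hrρ] at h5
    have h6 : (twistA D t x).character ⟨(x : G)⁻¹ * y * x, h4⟩ =
        t.character (D.α x ⟨(x : G)⁻¹ * y * x, h4⟩) := rfl
    rw [h6, ← htρ] at h5
    have h7 : ((D.α x ⟨(x : G)⁻¹ * y * x, h4⟩ : L) : G) = y := by
      change (x : G) * ((x : G)⁻¹ * y * x) * (x : G)⁻¹ = y
      group
    change ρ ((x : G)⁻¹ * y * x) = ρ' ((D.α x ⟨(x : G)⁻¹ * y * x, h4⟩ : L) : G) at h5
    rw [h5, h7]
  · rw [hρ'.2 y hy]
    apply hρ.2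
    intro h4
    exact hy ((Subgroup.mem_normalizer_iff''.1 (hn x.2) y).2 h4)

/-- the multiplicity is invariant: `cnj k χ = χ` and `ip_cnj` -/
theorem ip_cnj_right {L K : Subgroup G}
    (hn : K ≤ Subgroup.normalizer (L : Set G)) {χ : G → ℂ} (hχ : χ ∈ IrrS K) {k : G} (hk : k ∈ K)
    (ρ : G → ℂ) : ip L χ (cnj k ρ) = ip L χ ρ := by
  have h1 := ip_cnj (hn hk) χ ρ
  rw [cnj_eq_self hk hχ] at h1
  exact h1

end Pool.Agent.Helper97.S4
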