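import Pool.Agent.Helper97.S4.LocA

/-!
# Project IR, section 4 (S4-05): the overgroup `J = K ⟨a⟩`

Throughout `a` normalizes `K` and `Q`, and `n` is the exact order of `a` modulo `K`:
`a ^ k ∈ K ↔ n ∣ k`. Put `J = K ⊔ Subgroup.zpowers a`; its elements are the `k * a ^ i`, `k ∈ K`,
`i < n`, uniquely.
-/

namespace Pool.Agent.Helper97.S4

open Pool.Agent.Helper42.INC Pool.Agent.Helper42.IR

variable {G : Type} [Group G] [Finite G] {p : ℕ} [Fact p.Prime] {K Q H : Subgroup G} {a : G}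
  {n : ℕ}

/-- the exact order exists and is positive (order of `a` in the quotient of `K ⊔ zpowers a` by `K`;
or: the set of integers `k` with `a ^ k ∈ K` is a subgroup of `ℤ`, nonzero since `a` has finite
order) -/
theorem exists_order (K : Subgroup G) (a : G) : ∃ n : ℕ, 0 < n ∧ ∀ k : ℕ, a ^ k ∈ K ↔ n ∣ k := by
  classical
  have hex : ∃ k : ℕ, 0 < k ∧ a ^ k ∈ K :=
    ⟨orderOf a, orderOf_pos a, by rw [pow_orderOf_eq_one]; exact K.one_mem⟩
  obtain ⟨h1, h2⟩ := Nat.find_spec hex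
  refine ⟨Nat.find hex, h1, fun k => ?_⟩
  constructor
  · intro hk
    by_contra hnd
    have hr : 0 < k % Nat.find hex := Nat.pos_of_ne_zero (fun h => hnd (Nat.dvd_of_mod_eq_zero h))
    have hlt : k % Nat.find hex < Nat.find hex := Nat.mod_lt _ h1
    refine Nat.find_min hex hlt ⟨hr, ?_⟩
    have e : a ^ (k % Nat.find hex) = ((a ^ Nat.find hex) ^ (k / Nat.find hex))⁻¹ * a ^ k := by
      rw [eq_inv_mul_iff_mul_eq, ← pow_mul, ← pow_add, Nat.div_add_mod]
    rw [e]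
    exact K.mul_mem (K.inv_mem (K.pow_mem h2 _)) hk
  · rintro ⟨m, rfl⟩
    rw [pow_mul]
    exact K.pow_mem h2 m

/-- `a ^ (orderOf a) = 1 ∈ K` -/
theorem order_pos (hn : ∀ k : ℕ, a ^ k ∈ K ↔ n ∣ k) : 0 < n := by
  have h1 : a ^ orderOf a ∈ K := by
    rw [pow_orderOf_eq_one]
    exact K.one_mem
  exact Nat.pos_of_dvd_of_pos ((hn _).1 h1) (orderOf_pos a)

private theorem conj_zpow (haK : a ∈ Subgroup.normalizer (K : Set G)) (z : ℤ) {k : G}
    (hk : k ∈ K) : a ^ z * k * (a ^ z)⁻¹ ∈ K := by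
  have h1 : a ^ z ∈ Subgroup.normalizer (K : Set G) := Subgroup.zpow_mem _ haK z
  rw [Subgroup.mem_normalizer_iff] at h1
  exact (h1 k).1 hk

private theorem mem_sup_aux (haK : a ∈ Subgroup.normalizer (K : Set G)) {g : G}
    (hg : g ∈ K ⊔ Subgroup.zpowers a) : ∃ k ∈ K, ∃ z : ℤ, g = k * a ^ z := by
  rw [Subgroup.sup_eq_closure] at hg
  induction hg using Subgroup.closure_induction with
  | mem x hx =>
    rcases hx with hx | hx
    · exact ⟨x, hx, 0, by simp⟩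
    · obtain ⟨z, rfl⟩ := hx
      exact ⟨1, K.one_mem, z, by simp⟩
  | one => exact ⟨1, K.one_mem, 0, by simp⟩
  | mul x y _ _ hx hy =>
    obtain ⟨k, hk, z, rfl⟩ := hx
    obtain ⟨k', hk', z', rfl⟩ := hy
    refine ⟨k * (a ^ z * k' * (a ^ z)⁻¹), K.mul_mem hk (conj_zpow haK z hk'), z + z', ?_⟩
    rw [zpow_add]
    group
  | inv x _ hx =>
    obtain ⟨k, hk, z, rfl⟩ := hx
    refine ⟨a ^ (-z) * k⁻¹ * (a ^ (-z))⁻¹, conj_zpow haK (-z) (K.inv_mem hk), -z, ?_⟩
    group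

/-- `a` and `K` generate the set of the `k * a ^ i`: this set is closed under multiplication since
`a` normalizes `K`; reduce `i` modulo `n` using `a ^ n ∈ K`. -/
theorem mem_sup_zpowers (haK : a ∈ Subgroup.normalizer (K : Set G))
    (hn : ∀ k : ℕ, a ^ k ∈ K ↔ n ∣ k) {g : G} :
    g ∈ K ⊔ Subgroup.zpowers a ↔ ∃ k ∈ K, ∃ i < n, g = k * a ^ i := by
  have hn0 : 0 < n := order_pos hn
  constructor
  · intro hg
    obtain ⟨k, hk, z, rfl⟩ := mem_sup_aux haK hg
    have hnz : (n : ℤ) ≠ 0 := by exact_mod_cast hn0.ne'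
    have h1 : (((z % n).toNat : ℕ) : ℤ) = z % n := Int.toNat_of_nonneg (Int.emod_nonneg z hnz)
    have h2 : z % n < n := Int.emod_lt_of_pos z (by exact_mod_cast hn0)
    have h3 : a ^ n ∈ K := (hn n).2 dvd_rfl
    refine ⟨k * (a ^ n) ^ (z / n), K.mul_mem hk (K.zpow_mem h3 _), (z % n).toNat, by omega, ?_⟩
    have e : a ^ z = (a ^ n) ^ (z / n) * a ^ (z % n).toNat := by
      rw [← zpow_natCast a (z % n).toNat, h1, ← zpow_natCast a n, ← zpow_mul, ← zpow_add,
        Int.mul_ediv_add_emod]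
    rw [e, mul_assoc]
  · rintro ⟨k, hk, i, _, rfl⟩
    refine Subgroup.mul_mem _ (Subgroup.mem_sup_left hk) (Subgroup.mem_sup_right ?_)
    exact Subgroup.npow_mem_zpowers a i

/-- uniqueness of the decomposition -/
theorem mul_pow_inj (hn : ∀ k : ℕ, a ^ k ∈ K ↔ n ∣ k) {k k' : G} (hk : k ∈ K) (hk' : k' ∈ K)
    {i j : ℕ} (hi : i < n) (hj : j < n) (h : k * a ^ i = k' * a ^ j) : k = k' ∧ i = j := by
  have key : ∀ {k k' : G} (_ : k ∈ K) (_ : k' ∈ K) {i j : ℕ} (_ : j < n) (_ : i ≤ j)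
      (_ : k * a ^ i = k' * a ^ j), i = j := by
    intro k k' hk hk' i j hj hij h
    have e : a ^ (j - i) = k'⁻¹ * k := by
      have h1 : a ^ j = a ^ (j - i) * a ^ i := by rw [← pow_add, Nat.sub_add_cancel hij]
      rw [h1, ← mul_assoc] at h
      rw [eq_inv_mul_iff_mul_eq]
      exact (mul_right_cancel h).symm
    have h2 : a ^ (j - i) ∈ K := by
      rw [e]
      exact K.mul_mem (K.inv_mem hk') hk
    have h3 := (hn _).1 h2
    by_contra hne
    have h4 := Nat.le_of_dvd (by omega) h3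
    omega
  have hij : i = j := by
    rcases le_total i j with hle | hle
    · exact key hk hk' hj hle h
    · exact (key hk' hk hi hle h.symm).symm
  subst hij
  exact ⟨mul_right_cancel h, rfl⟩

theorem card_sup_zpowers (haK : a ∈ Subgroup.normalizer (K : Set G))
    (hn : ∀ k : ℕ, a ^ k ∈ K ↔ n ∣ k) :
    Nat.card (K ⊔ Subgroup.zpowers a : Subgroup G) = n * Nat.card K := by
  have h1 : Nat.card (Fin n × K) = n * Nat.card K := by
    rw [Nat.card_prod, Nat.card_eq_fintype_card, Fintype.card_fin]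
  rw [← h1]
  symm
  refine Nat.card_congr (Equiv.ofBijective
    (fun x : Fin n × K => (⟨(x.2 : G) * a ^ (x.1 : ℕ), (mem_sup_zpowers haK hn).2
      ⟨x.2, x.2.2, x.1, x.1.2, rfl⟩⟩ : (K ⊔ Subgroup.zpowers a : Subgroup G))) ⟨?_, ?_⟩)
  · rintro ⟨i, k⟩ ⟨j, k'⟩ h
    have h2 := congrArg (fun t : (K ⊔ Subgroup.zpowers a : Subgroup G) => (t : G)) h
    obtain ⟨e1, e2⟩ := mul_pow_inj hn k.2 k'.2 i.2 j.2 h2
    exact Prod.ext (Fin.ext e2) (Subtype.ext e1)
  · rintro ⟨g, hg⟩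
    obtain ⟨k, hk, i, hi, rfl⟩ := (mem_sup_zpowers haK hn).1 hg
    exact ⟨(⟨i, hi⟩, ⟨k, hk⟩), rfl⟩

/-- `K` is normalized by `K ⊔ zpowers a` -/
theorem sup_le_normalizer (haK : a ∈ Subgroup.normalizer (K : Set G)) :
    K ⊔ Subgroup.zpowers a ≤ Subgroup.normalizer (K : Set G) := by
  refine _root_.sup_le Subgroup.le_normalizer ?_
  rw [Subgroup.zpowers_le]
  exact haK

/-- If `a` normalizes `Q` then `a ^ k ∈ NN K Q` iff `a ^ k ∈ K`. -/
theorem order_NN (haQ : a ∈ Subgroup.normalizer (Q : Set G))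
    (hn : ∀ k : ℕ, a ^ k ∈ K ↔ n ∣ k) : ∀ k : ℕ, a ^ k ∈ NN K Q ↔ n ∣ k := by
  intro k
  rw [← hn k]
  exact ⟨fun h => (Subgroup.mem_inf.1 h).1,
    fun h => Subgroup.mem_inf.2 ⟨h, Subgroup.pow_mem _ haQ k⟩⟩

/-- `k * a ^ i` normalizes `Q` iff `k` does. -/
theorem NN_sup_zpowers (haK : a ∈ Subgroup.normalizer (K : Set G))
    (haQ : a ∈ Subgroup.normalizer (Q : Set G)) (hn : ∀ k : ℕ, a ^ k ∈ K ↔ n ∣ k) :
    NN (K ⊔ Subgroup.zpowers a) Q = NN K Q ⊔ Subgroup.zpowers a := by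
  ext g
  rw [mem_sup_zpowers (norm_NN haK haQ) (order_NN haQ hn)]
  constructor
  · intro h
    obtain ⟨h1, h2⟩ := Subgroup.mem_inf.1 h
    obtain ⟨k, hk, i, hi, rfl⟩ := (mem_sup_zpowers haK hn).1 h1
    refine ⟨k, Subgroup.mem_inf.2 ⟨hk, ?_⟩, i, hi, rfl⟩
    have h3 : a ^ i ∈ Subgroup.normalizer (Q : Set G) := Subgroup.pow_mem _ haQ i
    exact (Subgroup.mul_mem_cancel_right _ h3).1 h2
  · rintro ⟨k, hk, i, hi, rfl⟩
    obtain ⟨h1, h2⟩ := Subgroup.mem_inf.1 hk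
    exact Subgroup.mem_inf.2 ⟨(mem_sup_zpowers haK hn).2 ⟨k, h1, i, hi, rfl⟩,
      Subgroup.mul_mem _ h2 (Subgroup.pow_mem _ haQ i)⟩

/-- exact order of a power: `(a ^ d) ^ k ∈ K ↔ n ∣ d k ↔ n / d ∣ k` for `d ∣ n` -/
theorem order_pow (hn : ∀ k : ℕ, a ^ k ∈ K ↔ n ∣ k) {d : ℕ} (hd : d ∣ n) (hd0 : 0 < d) :
    ∀ k : ℕ, (a ^ d) ^ k ∈ K ↔ n / d ∣ k := by
  intro k
  obtain ⟨m, rfl⟩ := hd
  rw [← pow_mul, hn, Nat.mul_div_cancel_left m hd0]
  exact Nat.mul_dvd_mul_iff_left hd0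

/-- Existence of `HJ`: `|J| = n |K|` is not divisible by `p²`. `Q` is a central subgroup of order `p`
of `C = J ⊓ centralizer Q`, and `p² ∤ |C|`, so `|C / Q|` is prime to `p` and Schur-Zassenhaus
(`Subgroup.exists_right_complement'_of_coprime`, applied to `Q.subgroupOf C`) gives a complement;
`HJ` is its image in `G`. `H ≤ HJ`: an element `h ∈ H` lies in `C`, so `h = x y` with `x ∈ Q`,
`y ∈ HJ` commuting, and raising to the power `|H| |HJ|` (prime to `p`) gives `x = 1`. -/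
theorem exists_HJ (hL : Loc p K Q H) (haK : a ∈ Subgroup.normalizer (K : Set G))
    (hn : ∀ k : ℕ, a ^ k ∈ K ↔ n ∣ k)
    (hpn : ¬ p ∣ n) : ∃ HJ : Subgroup G, Loc p (K ⊔ Subgroup.zpowers a) Q HJ ∧ H ≤ HJ := by
  have hp : p.Prime := Fact.out
  have hJ : ¬ p ^ 2 ∣ Nat.card (K ⊔ Subgroup.zpowers a : Subgroup G) := by
    rw [card_sup_zpowers haK hn]
    intro h
    exact hL.pp (Nat.Coprime.dvd_of_dvd_mul_left
      (Nat.Coprime.pow_left 2 ((Nat.Prime.coprime_iff_not_dvd hp).2 hpn)) h)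
  have hKJ : K ≤ K ⊔ Subgroup.zpowers a := le_sup_left
  have hQcen : Q ≤ Subgroup.centralizer (Q : Set G) := by
    intro x hx
    rw [Subgroup.mem_centralizer_iff]
    intro y hy
    exact Loc.commQ hL hy hx
  have hQC : Q ≤ (K ⊔ Subgroup.zpowers a) ⊓ Subgroup.centralizer (Q : Set G) :=
    le_inf (hL.QK.trans hKJ) hQcen
  obtain ⟨C, hC⟩ : ∃ C : Subgroup G,
    C = (K ⊔ Subgroup.zpowers a) ⊓ Subgroup.centralizer (Q : Set G) := ⟨_, rfl⟩
  rw [← hC] at hQC
  have hCJ : C ≤ K ⊔ Subgroup.zpowers a := by rw [hC]; exact inf_le_left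
  have hCc : C ≤ Subgroup.centralizer (Q : Set G) := by rw [hC]; exact inf_le_right
  have hnormal : (Q.subgroupOf C).Normal := by
    constructor
    intro x hx g
    have hx' : (x : G) ∈ Q := hx
    have hg : (g : G) ∈ Subgroup.centralizer (Q : Set G) := hCc g.2
    have e : g * x * g⁻¹ = x := by
      apply Subtype.ext
      show (g : G) * x * (g : G)⁻¹ = x
      rw [Subgroup.mem_centralizer_iff] at hg
      rw [← hg x hx']
      group
    rw [e]
    exact hx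
  have hcard : Nat.card (Q.subgroupOf C) = p := by
    rw [← hL.cQ]
    exact Nat.card_congr (Subgroup.subgroupOfEquivOfLe hQC).toEquiv
  have hmul : Nat.card (Q.subgroupOf C) * (Q.subgroupOf C).index = Nat.card C :=
    Subgroup.card_mul_index _
  have hidx : ¬ p ∣ (Q.subgroupOf C).index := by
    rintro ⟨m, hm⟩
    apply hJ
    refine Dvd.dvd.trans ?_ (Subgroup.card_dvd_of_le hCJ)
    rw [← hmul, hcard, hm]
    exact ⟨m, by ring⟩
  have hcop : Nat.Coprime (Nat.card (Q.subgroupOf C)) (Q.subgroupOf C).index := by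
    rw [hcard]
    exact (Nat.Prime.coprime_iff_not_dvd hp).2 hidx
  obtain ⟨H', hH'⟩ := Subgroup.exists_right_complement'_of_coprime hcop
  have hcH : Nat.card (H'.map C.subtype) = (Q.subgroupOf C).index := by
    rw [Subgroup.card_map_of_injective C.subtype_injective]
    exact hH'.symm.index_eq_card.symm
  have hLJ : Loc p (K ⊔ Subgroup.zpowers a) Q (H'.map C.subtype) := by
    refine ⟨hJ, hL.QK.trans hKJ, hL.cQ, ?_, ?_, ?_⟩
    · rw [← hC]
      exact Subgroup.map_subtype_le H'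
    · rw [hcH]
      exact hidx
    · rw [← hC]
      have h1 : Q.subgroupOf C ⊔ H' = ⊤ := hH'.sup_eq_top
      have h2 := congrArg (Subgroup.map C.subtype) h1
      rw [Subgroup.map_sup, Subgroup.map_subgroupOf_eq_of_le hQC, ← MonoidHom.range_eq_map,
        Subgroup.range_subtype] at h2
      exact h2
  refine ⟨H'.map C.subtype, hLJ, ?_⟩
  intro h hh
  have h1 := hL.HC hh
  obtain ⟨h2, h3⟩ := Subgroup.mem_inf.1 h1
  have h4 : h ∈ Q ⊔ H'.map C.subtype := by
    rw [hLJ.sup]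
    exact Subgroup.mem_inf.2 ⟨hKJ h2, h3⟩
  obtain ⟨x, hx, y, hy, hxy⟩ := (Loc.mem_sup hLJ).1 h4
  have hcomm : Commute x y := Loc.comm hLJ hx hy
  have hxm : x ^ (Nat.card H * Nat.card (H'.map C.subtype)) = 1 := by
    have e1 : h ^ (Nat.card H * Nat.card (H'.map C.subtype)) = 1 := by
      rw [pow_mul]
      have : h ^ Nat.card H = 1 := by
        have := pow_card_eq_one' (x := (⟨h, hh⟩ : H))
        exact congrArg (fun t : H => (t : G)) this
      rw [this, one_pow]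
    have e2 : y ^ (Nat.card H * Nat.card (H'.map C.subtype)) = 1 := by
      rw [mul_comm, pow_mul]
      have : y ^ Nat.card (H'.map C.subtype) = 1 := by
        have := pow_card_eq_one' (x := (⟨y, hy⟩ : H'.map C.subtype))
        exact congrArg (fun t : H'.map C.subtype => (t : G)) this
      rw [this, one_pow]
    rw [hxy, hcomm.mul_pow, e2, mul_one] at e1
    exact e1
  have hxp : x ^ p = 1 := by
    have := pow_card_eq_one' (x := (⟨x, hx⟩ : Q))
    rw [hL.cQ] at this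
    exact congrArg (fun t : Q => (t : G)) this
  have hcopm : Nat.Coprime (Nat.card H * Nat.card (H'.map C.subtype)) p := by
    refine Nat.Coprime.symm ((Nat.Prime.coprime_iff_not_dvd hp).2 ?_)
    rw [hp.dvd_mul]
    rintro (h | h)
    · exact hL.pH h
    · exact hLJ.pH h
  have hx1 : x = 1 := by
    have d1 := orderOf_dvd_of_pow_eq_one hxm
    have d2 := orderOf_dvd_of_pow_eq_one hxp
    have d3 := Nat.dvd_gcd d1 d2
    rw [hcopm] at d3
    exact orderOf_eq_one_iff.1 (Nat.dvd_one.1 d3)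
  rw [hxy, hx1, one_mul]
  exact hy

end Pool.Agent.Helper97.S4
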