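import Pool.Agent.Helper97.S4.F1b
import Pool.Agent.Helper97.S4.Clif
import Pool.Agent.Helper97.S4.LocB

/-!
# Project IR, section 4 (S4-08): number of characters of `J` over a character of `K`

Transport of `card_over_abs` to functions on `G`: `M = K`, `X = J`, `D` = inclusion and conjugation
(see `NP.ofLe` in INC/Star.lean for the shape), `θ : IrrX D` the restriction of `θ` to `K`; the
stabilizer of it in `J` corresponds to `J ⊓ stab θ`.
-/

namespace Pool.Agent.Helper97.S4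

open Pool.Agent.Helper42.INC Pool.Agent.Helper42.IR

variable {G : Type} [Group G] [Finite G]

/-- the normal pair of a subgroup normalized by an overgroup -/
private noncomputable def npIn {K J : Subgroup G} (hKJ : K ≤ J)
    (hn : J ≤ Subgroup.normalizer (K : Set G)) : NP K J where
  ι := Subgroup.inclusion hKJ
  inj := Subgroup.inclusion_injective hKJ
  α := K.normalizerMonoidHom.comp (Subgroup.inclusion hn)
  compat _ _ := rfl

omit [Finite G] in
private lemma npIn_coe {K J : Subgroup G} (hKJ : K ≤ J)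
    (hn : J ≤ Subgroup.normalizer (K : Set G)) (g : J) (m : K) :
    (((npIn hKJ hn).α g m : K) : G) = g * m * (g : G)⁻¹ := rfl

theorem card_over_pi {K J : Subgroup G} (hKJ : K ≤ J)
    (hn : J ≤ Subgroup.normalizer (K : Set G)) {C : Type} [Group C] [IsCyclic C] (π : J →* C)
    (hπ : ∀ x : J, π x = 1 ↔ (x : G) ∈ K) {θ : G → ℂ} (hθ : θ ∈ IrrS K) :
    Nat.card {χ : G → ℂ // χ ∈ IrrS J ∧ ip K χ θ ≠ 0} * Nat.card K =
      Nat.card (J ⊓ stab θ : Subgroup G) := by
  let D : NP K J := npIn hKJ hn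
  let θ0 : IrrX D := ⟨fun k : K => θ k, hθ.1⟩
  have hπ' : π.ker = D.ι.range := by
    ext x
    rw [MonoidHom.mem_ker, hπ]
    constructor
    · intro hx
      exact ⟨⟨x, hx⟩, Subtype.ext rfl⟩
    · rintro ⟨k, rfl⟩
      exact k.2
  have h1 := card_over_abs D π hπ' θ0
  have h2 : Nat.card {χ : G → ℂ // χ ∈ IrrS J ∧ ip K χ θ ≠ 0} =
      Nat.card {χ : Irr J // B (fun m => χ.1 (D.ι m)) θ0.chi ≠ 0} := by
    obtain ⟨e, he⟩ := exists_irrSEquiv J
    have h3 : Nat.card {χ : G → ℂ // χ ∈ IrrS J ∧ ip K χ θ ≠ 0} =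
        Nat.card {χ : IrrS J // ip K χ.1 θ ≠ 0} :=
      Nat.card_congr (Equiv.subtypeSubtypeEquivSubtypeInter (fun χ => χ ∈ IrrS J)
        (fun χ => ip K χ θ ≠ 0)).symm
    rw [h3]
    apply Nat.card_congr
    refine e.subtypeEquiv (fun χ => ?_)
    rw [he χ]
    rfl
  have h3 : Nat.card (MulAction.stabilizer J θ0) = Nat.card (J ⊓ stab θ : Subgroup G) := by
    have h4 : ∀ j : J, j • θ0 = θ0 ↔ cnj (j : G) θ = θ := by
      intro j
      have h5 : ∀ k : K, (j • θ0).chi k = cnj (j : G) θ (k : G) := by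
        intro k
        rw [IrrX.smul_chi]
        change θ (((npIn hKJ hn).α j⁻¹ k : K) : G) = θ ((j : G)⁻¹ * k * j)
        rw [npIn_coe, Subgroup.coe_inv, inv_inv]
      constructor
      · intro h
        funext x
        by_cases hx : x ∈ K
        · rw [← h5 ⟨x, hx⟩, h]
        · rw [hθ.2 x hx, cnj_apply]
          apply hθ.2
          intro h6
          apply hx
          have h7 := (Subgroup.mem_normalizer_iff.1 (hn j.2) _).1 h6
          have h8 : (j : G) * ((j : G)⁻¹ * x * j) * (j : G)⁻¹ = x := by group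
          rwa [h8] at h7
      · intro h
        apply IrrX.ext'
        funext k
        rw [h5, h]
    exact Nat.card_congr
      { toFun := fun x => ⟨x.1.1, x.1.2, (h4 x.1).1 x.2⟩
        invFun := fun y => ⟨⟨y.1, y.2.1⟩, (h4 ⟨y.1, y.2.1⟩).2 y.2.2⟩
        left_inv := fun _ => rfl
        right_inv := fun _ => rfl }
  rw [h2, h1, h3]

/-- For `J = K ⊔ zpowers a` with `n` the exact order of `a` modulo `K`: the quotient of `J` by `K` is
cyclic (`π (k * a ^ i) = i` in `Multiplicative (ZMod n)`, or the quotient group of `J` by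
`K.subgroupOf J`, generated by the class of `a`), and `J ⊓ stab θ` is the disjoint union of the
`K * a ^ b`, `b < n`, `a ^ b ∈ stab θ` (`K ≤ stab θ`, use `mem_sup_zpowers` and `mul_pow_inj`), so its
order is `|K|` times the number of these `b`. -/
theorem card_over {K : Subgroup G} {a : G} (haK : a ∈ Subgroup.normalizer (K : Set G)) {n : ℕ}
    (hn : ∀ k : ℕ, a ^ k ∈ K ↔ n ∣ k) {θ : G → ℂ} (hθ : θ ∈ IrrS K) :
    Nat.card {χ : G → ℂ // χ ∈ IrrS (K ⊔ Subgroup.zpowers a) ∧ ip K χ θ ≠ 0} =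
      Nat.card {b : ℕ // b < n ∧ cnj (a ^ b) θ = θ} := by
  set J : Subgroup G := K ⊔ Subgroup.zpowers a with hJ
  have hKJ : K ≤ J := le_sup_left
  have haJ : a ∈ J := (le_sup_right : Subgroup.zpowers a ≤ J) (Subgroup.mem_zpowers a)
  have hJn : J ≤ Subgroup.normalizer (K : Set G) := sup_le_normalizer haK
  have hnorm : (K.subgroupOf J).Normal := Subgroup.normal_subgroupOf_of_le_normalizer hJn
  let π : J →* J ⧸ K.subgroupOf J := QuotientGroup.mk' (K.subgroupOf J)
  have hπ : ∀ x : J, π x = 1 ↔ (x : G) ∈ K := by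
    intro x
    change (x : J ⧸ K.subgroupOf J) = 1 ↔ _
    rw [QuotientGroup.eq_one_iff, Subgroup.mem_subgroupOf]
  have hcyc : IsCyclic (J ⧸ K.subgroupOf J) := by
    refine ⟨⟨π ⟨a, haJ⟩, fun y => ?_⟩⟩
    obtain ⟨x, rfl⟩ := QuotientGroup.mk'_surjective _ y
    obtain ⟨k, hk, i, _, hx⟩ := (mem_sup_zpowers haK hn).1 x.2
    refine ⟨(i : ℤ), ?_⟩
    change π ⟨a, haJ⟩ ^ (i : ℤ) = π x
    have h1 : x = (⟨k, hKJ hk⟩ : J) * ⟨a, haJ⟩ ^ i := Subtype.ext hx
    rw [h1, map_mul, map_pow, (hπ ⟨k, hKJ hk⟩).2 hk, one_mul, zpow_natCast]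
  have h1 := card_over_pi hKJ hJn π hπ hθ
  have h2 : Nat.card (J ⊓ stab θ : Subgroup G) =
      Nat.card {b : ℕ // b < n ∧ cnj (a ^ b) θ = θ} * Nat.card K := by
    rw [← Nat.card_prod]
    symm
    have h3 : ∀ k ∈ K, ∀ b : ℕ, cnj (k * a ^ b) θ = θ ↔ cnj (a ^ b) θ = θ := by
      intro k hk b
      rw [← cnj_cnj]
      constructor
      · intro h
        have h4 := congrArg (cnj k⁻¹) h
        rw [cnj_inv_cnj, cnj_eq_self (K.inv_mem hk) hθ] at h4
        exact h4
      · intro h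
        rw [h, cnj_eq_self hk hθ]
    refine Nat.card_congr (Equiv.ofBijective
      (fun x : {b : ℕ // b < n ∧ cnj (a ^ b) θ = θ} × K =>
        (⟨x.2 * a ^ x.1.1, J.mul_mem (hKJ x.2.2) (J.pow_mem haJ _),
          (h3 x.2 x.2.2 x.1.1).2 x.1.2.2⟩ : (J ⊓ stab θ : Subgroup G))) ⟨?_, ?_⟩)
    · rintro ⟨⟨b, hb⟩, k⟩ ⟨⟨b', hb'⟩, k'⟩ h
      have h4 : (k : G) * a ^ b = k' * a ^ b' := congrArg Subtype.val h
      obtain ⟨h5, h6⟩ := mul_pow_inj hn k.2 k'.2 hb.1 hb'.1 h4
      exact Prod.ext (Subtype.ext h6) (Subtype.ext h5)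
    · rintro ⟨x, hx1, hx2⟩
      obtain ⟨k, hk, i, hi, rfl⟩ := (mem_sup_zpowers haK hn).1 hx1
      exact ⟨(⟨i, hi, (h3 k hk i).1 hx2⟩, ⟨k, hk⟩), rfl⟩
  rw [h2] at h1
  exact Nat.eq_of_mul_eq_mul_right Nat.card_pos h1

end Pool.Agent.Helper97.S4
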