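import Pool.Agent.Helper97.S4.Act

/-!
# Project IR, section 4 (S4-02): characters of subgroups as functions on `G`

Everything follows from the library `Pool.Agent.Helper42.INC.Basic` (`irr_finite`, `B_irr`, `B_char`,
`expand`, `complete`, `irr_one`) by restricting functions on `G` to the subgroup; `IrrS K` is
equivalent to `Irr K` (extend by zero).
-/

namespace Pool.Agent.Helper97.S4

open Pool.Agent.Helper42.INC Pool.Agent.Helper42.IR

variable {G : Type} [Group G] [Finite G]

/-- restriction / extension by zero -/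
theorem exists_irrSEquiv (K : Subgroup G) :
    ∃ e : IrrS K ≃ Irr K, ∀ χ : IrrS K, (e χ).1 = fun k : K => χ.1 k := by
  classical
  have hext : ∀ f : K → ℂ, (fun k : K => (fun x : G => if h : x ∈ K then f ⟨x, h⟩ else 0) k) = f := by
    intro f
    funext k
    simp
  refine ⟨{ toFun := fun χ => ⟨fun k : K => χ.1 k, χ.2.1⟩,
            invFun := fun χ => ⟨fun x => if h : x ∈ K then χ.1 ⟨x, h⟩ else 0, ?_, ?_⟩,
            left_inv := ?_, right_inv := ?_ }, fun χ => rfl⟩
  · rw [hext χ.1]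
    exact χ.2
  · intro x hx
    exact dif_neg hx
  · intro χ
    apply Subtype.ext
    funext x
    by_cases hx : x ∈ K
    · exact dif_pos hx
    · have h1 := χ.2.2 x hx
      have h2 : (if h : x ∈ K then χ.1 ((⟨x, h⟩ : K) : G) else 0) = 0 := dif_neg hx
      exact h2.trans h1.symm
  · intro χ
    apply Subtype.ext
    exact hext χ.1

theorem irrS_finite (K : Subgroup G) : (IrrS K).Finite := by
  obtain ⟨e, _⟩ := exists_irrSEquiv K
  have : Finite (IrrS K) := Finite.of_equiv _ e.symm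
  exact Set.toFinite _

open Classical in
theorem ip_irrS {K : Subgroup G} {χ χ' : G → ℂ} (h : χ ∈ IrrS K) (h' : χ' ∈ IrrS K) :
    ip K χ χ' = if χ = χ' then 1 else 0 := by
  unfold ip
  rw [B_irr h.1 h'.1]
  by_cases he : χ = χ'
  · subst he
    simp
  · rw [if_neg he, if_neg]
    intro h1
    apply he
    funext x
    by_cases hx : x ∈ K
    · exact congrFun h1 ⟨x, hx⟩
    · rw [h.2 x hx, h'.2 x hx]

theorem ip_symm (K : Subgroup G) (f g : G → ℂ) : ip K f g = ip K g f := by
  unfold ip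
  exact B_symm _ _

/-- The restriction of a character is a character: `B_char` for the restricted representation. -/
theorem ip_res_nat {L K : Subgroup G} (hLK : L ≤ K) {χ ρ : G → ℂ} (hχ : χ ∈ IrrS K)
    (hρ : ρ ∈ IrrS L) : ∃ n : ℕ, ip L χ ρ = n := by
  obtain ⟨V, _, _, _, τ, _, hτ⟩ := hχ.1
  obtain ⟨W, _, _, _, σ, _, hσ⟩ := hρ.1
  let τ' : Representation ℂ L V := τ.comp (Subgroup.inclusion hLK)
  have h1 : (fun l : L => χ l) = τ'.character := by
    funext l
    exact congrFun hτ (Subgroup.inclusion hLK l)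
  unfold ip
  rw [h1, hσ]
  exact B_char τ' σ

/-- expansion of a function which is a class function on `L` -/
theorem expand_on {L : Subgroup G} {f : G → ℂ} (hf : ∀ y ∈ L, ∀ x ∈ L, f (y * x * y⁻¹) = f x)
    {x : G} (hx : x ∈ L) : f x = ∑ᶠ ρ : IrrS L, ip L f ρ.1 * ρ.1 x := by
  classical
  obtain ⟨e, he⟩ := exists_irrSEquiv L
  have := Fintype.ofFinite (Irr L)
  have hfin : Finite (IrrS L) := Finite.of_equiv _ e.symm
  have := Fintype.ofFinite (IrrS L)
  have hcl : IsClass (fun l : L => f l) := by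
    intro y z
    exact hf y.1 y.2 z.1 z.2
  have h1 := congrFun (expand (fun l : L => f l) hcl) ⟨x, hx⟩
  simp only [Finset.sum_apply, Pi.smul_apply, smul_eq_mul] at h1
  rw [h1, finsum_eq_sum_of_fintype, ← Equiv.sum_comp e]
  apply Finset.sum_congr rfl
  intro ρ _
  rw [he ρ]
  rfl

/-- `χ 1 ≠ 0`, so not all multiplicities can vanish. -/
theorem exists_under {L K : Subgroup G} (hLK : L ≤ K) {χ : G → ℂ} (hχ : χ ∈ IrrS K) :
    ∃ ρ ∈ IrrS L, ip L χ ρ ≠ 0 := by
  by_contra hcon
  push Not at hcon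
  have h1 := expand_on (L := L) (f := χ)
    (fun y hy x _ => irrS_conj (hLK hy) hχ x) L.one_mem
  have h2 : ∀ ρ : IrrS L, ip L χ ρ.1 * ρ.1 1 = 0 := by
    intro ρ
    rw [hcon ρ.1 ρ.2, zero_mul]
  rw [finsum_congr h2, finsum_zero] at h1
  exact irrS_one_ne hχ h1

/-- Transitivity of restriction: apply `expand_on` to `χ` on `K`, and sum against `ρ` on `L`. -/
theorem ip_trans {L K J : Subgroup G} (hLK : L ≤ K) (hKJ : K ≤ J) {χ : G → ℂ} (hχ : χ ∈ IrrS J)
    (ρ : G → ℂ) : ip L χ ρ = ∑ᶠ θ : IrrS K, ip K χ θ.1 * ip L θ.1 ρ := by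
  classical
  have := (irrS_finite K).fintype
  have h1 : (fun l : L => χ l) =
      ∑ θ : IrrS K, ip K χ θ.1 • (fun l : L => θ.1 l) := by
    funext l
    have h2 := expand_on (L := K) (f := χ)
      (fun y hy x _ => irrS_conj (hKJ hy) hχ x) (hLK l.2)
    rw [finsum_eq_sum_of_fintype] at h2
    rw [h2]
    simp only [Finset.sum_apply, Pi.smul_apply, smul_eq_mul]
  rw [finsum_eq_sum_of_fintype]
  unfold ip at h1 ⊢
  rw [h1, B_sum_left]
  apply Finset.sum_congr rfl
  intro θ _
  rw [B_smul_left]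

end Pool.Agent.Helper97.S4
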