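import Pool.Agent.Helper42.IR.Typ

/-!
# Project IR (MP_5ecade_al), section 4: definitions

`G` is a finite group, characters of subgroups are functions on `G` vanishing off the subgroup
(`IrrS`), the group acts by conjugation (`cnj`). For `Loc p K Q H` the number `aa Q H χ lam φ` is the
difference of the multiplicities of `lam × φ` and `1 × φ` in `χ` restricted to `Q × H`.
-/

open scoped Pointwise

namespace Pool.Agent.Helper97.S4

open Pool.Agent.Helper42.INC Pool.Agent.Helper42.IR

section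

variable {G : Type} [Group G]

/-- the action of `G` on functions by conjugation (a reducible definition, used as a local
instance) -/
@[reducible] def cnjAct : MulAction G (G → ℂ) where
  smul := cnj
  one_smul := cnj_one
  mul_smul g h f := (cnj_cnj g h f).symm

attribute [local instance] cnjAct

lemma smul_eq_cnj (g : G) (f : G → ℂ) : g • f = cnj g f := rfl

/-- the characters of `K` of degree prime to `p` in the block of `φ` -/
def BB (p : ℕ) (K Q H : Subgroup G) (φ : G → ℂ) : Set (G → ℂ) :=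
  {χ | χ ∈ IrrSP p K ∧ Bl Q H χ φ}

/-- full support over `φ` -/
def Full (Q H : Subgroup G) (χ φ : G → ℂ) : Prop :=
  ∀ lam ∈ IrrS Q, lam ≠ oneS Q → aa Q H χ lam φ ≠ 0

/-- the characters of `K` of degree prime to `p` with full support over `φ` -/
def FF (p : ℕ) (K Q H : Subgroup G) (φ : G → ℂ) : Set (G → ℂ) :=
  {χ | χ ∈ IrrSP p K ∧ Full Q H χ φ}

/-- the characters of `K` of degree prime to `p` in the block of `φ` without full support -/
def EE (p : ℕ) (K Q H : Subgroup G) (φ : G → ℂ) : Set (G → ℂ) :=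
  {χ | χ ∈ BB p K Q H φ ∧ ¬ Full Q H χ φ}

/-- conjugate under the stabilizer of `φ` in `NN K Q` -/
def Cj (K Q : Subgroup G) (φ lam lam' : G → ℂ) : Prop :=
  ∃ n ∈ NN K Q, cnj n φ = φ ∧ cnj n lam = lam'

/-- all nontrivial characters of `Q` are conjugate under the stabilizer of `φ` -/
def Tr (K Q : Subgroup G) (φ : G → ℂ) : Prop :=
  ∀ lam ∈ IrrS Q, ∀ lam' ∈ IrrS Q, lam ≠ oneS Q → lam' ≠ oneS Q → Cj K Q φ lam lam'

/-- the index of `C = Q ⊔ H` in the stabilizer of `φ` in `NN K Q` -/
noncomputable def ee (K Q H : Subgroup G) (φ : G → ℂ) : ℕ :=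
  (Q ⊔ H).relIndex (NN K Q ⊓ stab φ)

/-- the support of `χ` -/
def Sp (Q H : Subgroup G) (χ : G → ℂ) : Set ((G → ℂ) × (G → ℂ)) :=
  {x | x.1 ∈ IrrS H ∧ x.2 ∈ IrrS Q ∧ aa Q H χ x.2 x.1 ≠ 0}

/-- the function `x h ↦ lam x * φ h` on `Q × H` (it vanishes off `Q ⊔ H` if `φ` vanishes off `H`) -/
noncomputable def prodC (Q : Subgroup G) (lam φ : G → ℂ) : G → ℂ :=
  fun g => ∑ᶠ x : Q, lam (x : G) * φ ((x : G)⁻¹ * g)

/-- `Q` is contained in the kernel of the character `ψ` of `N` -/
def QKer (N Q : Subgroup G) (ψ : G → ℂ) : Prop := ∀ x ∈ Q, ∀ n ∈ N, ψ (x * n) = ψ n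

/-- fixed points of `a` in a set of functions -/
def Fx (a : G) (X : Set (G → ℂ)) : Set (G → ℂ) := {χ | χ ∈ X ∧ cnj a χ = χ}

end

end Pool.Agent.Helper97.S4
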