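import Pool.Agent.Helper97.S4.AAx

/-!
# Project IR, section 4 (S4-11): blocks and signs

`Nice K Q H χ` collects what we use of a character of degree prime to `p`, both for `K` and for the
local subgroup `NN K Q` (note `NN (NN K Q) Q = NN K Q`).
-/

open scoped Pointwise

namespace Pool.Agent.Helper97.S4

open Pool.Agent.Helper42.INC Pool.Agent.Helper42.IR

attribute [local instance] cnjAct

/-- blocks and signs of a character -/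
structure Nice {G : Type} [Group G] (K Q H : Subgroup G) (χ : G → ℂ) : Prop where
  inv : ∀ n ∈ NN K Q, cnj n χ = χ
  blk : ∃ φ ∈ IrrS H, Bl Q H χ φ
  one : ∀ φ ∈ IrrS H, ∀ ρ ∈ IrrS H, Bl Q H χ φ → Bl Q H χ ρ → ∃ n ∈ NN K Q, cnj n φ = ρ
  sgn : ∃ ε : ℂ, (ε = 1 ∨ ε = -1) ∧
    ∀ φ ∈ IrrS H, ∀ lam ∈ IrrS Q, aa Q H χ lam φ = 0 ∨ aa Q H χ lam φ = ε

variable {G : Type} [Group G] [Finite G] {p : ℕ} [Fact p.Prime] {K Q H : Subgroup G}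

/-- `inv`: `cnj_eq_self`. `blk`, `one`: `Pkg.exb`, `Pkg.unb`. `sgn`: take `φ` from `blk` and `ε` from
`Pkg.shape` at `φ`: all `aa Q H χ lam φ` are `0` or `ε` (for `lam = oneS Q` use `aa_oneS`; for `EX` use
excluded middle). For `ρ ∈ IrrS H` with some `aa Q H χ lam ρ ≠ 0` we have `Bl Q H χ ρ`, so
`ρ = cnj n φ` with `n ∈ NN K Q`, and `aa Q H χ lam (cnj n φ) = aa Q H χ (cnj n⁻¹ lam) φ` by `aa_cnj`
(`cnj n χ = χ`, `Loc.norm_H'`). -/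
theorem nice_K (hL : Loc p K Q H) (hPK : Pkg p K Q H) {χ : G → ℂ} (hχ : χ ∈ IrrSP p K) :
    Nice K Q H χ := by
  have hinv : ∀ n ∈ NN K Q, cnj n χ = χ := fun n hn => cnj_eq_self hn.1 hχ.1
  obtain ⟨φ, hφ, hb⟩ := hPK.exb χ hχ
  obtain ⟨ε, hε, hsh⟩ := hPK.shape χ hχ φ hφ hb
  have h0 : ∀ lam ∈ IrrS Q, aa Q H χ lam φ = 0 ∨ aa Q H χ lam φ = ε := by
    intro lam hlam
    by_cases h1 : lam = oneS Q
    · left
      rw [h1]
      exact aa_oneS Q H χ φ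
    · rcases hsh with hN | ⟨l0, hl0, hl1, hE⟩
      · right
        exact hN lam hlam h1
      · by_cases h2 : ∃ n ∈ NN K Q, cnj n φ = φ ∧ cnj n l0 = lam
        · right
          exact (hE lam hlam h1).1 h2
        · left
          exact (hE lam hlam h1).2 h2
  refine ⟨hinv, ⟨φ, hφ, hb⟩, fun φ' hφ' ρ hρ hb1 hb2 => hPK.unb χ hχ φ' hφ' ρ hρ hb1 hb2,
    ε, hε, ?_⟩
  intro ρ hρ lam hlam
  by_cases h1 : aa Q H χ lam ρ = 0
  · exact Or.inl h1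
  · obtain ⟨n, hn, rfl⟩ := hPK.unb χ hχ φ hφ ρ hρ hb ⟨lam, hlam, h1⟩
    have h2 : aa Q H χ lam (cnj n φ) = aa Q H χ (cnj n⁻¹ lam) φ := by
      have h3 := aa_cnj hn.2 (Loc.norm_H' hL hn) χ (cnj n⁻¹ lam) φ
      rw [hinv n hn, cnj_cnj, mul_inv_cancel, cnj_one] at h3
      exact h3
    rw [h2]
    exact h0 _ (cnj_mem_irrS (inv_mem hn.2) hlam)

/-- `nice_K` for `NN K Q` and `NN_NN` -/
theorem nice_N (hL : Loc p K Q H) (hPN : Pkg p (NN K Q) Q H) {ψ : G → ℂ}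
    (hψ : ψ ∈ IrrSP p (NN K Q)) : Nice K Q H ψ := by
  have h := nice_K (Loc.nn hL) hPN hψ
  have e := NN_NN K Q
  refine ⟨?_, h.blk, ?_, h.sgn⟩
  · intro n hn
    exact h.inv n (by rw [e]; exact hn)
  · intro φ hφ ρ hρ h1 h2
    obtain ⟨n, hn, h3⟩ := h.one φ hφ ρ hρ h1 h2
    exact ⟨n, by rw [e] at hn; exact hn, h3⟩

/-- `aa_cnj` with `cnj n χ = χ` -/
theorem Nice.aa_inv (hL : Loc p K Q H) {χ : G → ℂ} (h : Nice K Q H χ) {n : G} (hn : n ∈ NN K Q)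
    (lam φ : G → ℂ) : aa Q H χ (cnj n lam) (cnj n φ) = aa Q H χ lam φ := by
  have h3 := aa_cnj hn.2 (Loc.norm_H' hL hn) χ lam φ
  rw [h.inv n hn] at h3
  exact h3

/-- blocks are invariant -/
theorem Nice.bl_inv (hL : Loc p K Q H) {χ : G → ℂ} (h : Nice K Q H χ) {n : G} (hn : n ∈ NN K Q)
    (φ : G → ℂ) : Bl Q H χ (cnj n φ) ↔ Bl Q H χ φ := by
  constructor
  · rintro ⟨lam, hlam, h1⟩
    refine ⟨cnj n⁻¹ lam, cnj_mem_irrS (inv_mem hn.2) hlam, ?_⟩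
    rw [← h.aa_inv hL hn, cnj_cnj, mul_inv_cancel, cnj_one]
    exact h1
  · rintro ⟨lam, hlam, h1⟩
    refine ⟨cnj n lam, cnj_mem_irrS hn.2 hlam, ?_⟩
    rw [h.aa_inv hL hn]
    exact h1

/-- full support is invariant -/
theorem Nice.full_inv (hL : Loc p K Q H) {χ : G → ℂ} (h : Nice K Q H χ) {n : G} (hn : n ∈ NN K Q)
    (φ : G → ℂ) : Full Q H χ (cnj n φ) ↔ Full Q H χ φ := by
  constructor
  · intro hf lam hlam h1
    rw [← h.aa_inv hL hn]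
    exact hf _ (cnj_mem_irrS hn.2 hlam) (cnj_ne_oneS hn.2 h1)
  · intro hf lam hlam h1
    have h2 := hf (cnj n⁻¹ lam) (cnj_mem_irrS (inv_mem hn.2) hlam)
      (cnj_ne_oneS (inv_mem hn.2) h1)
    rw [← h.aa_inv hL hn, cnj_cnj, mul_inv_cancel, cnj_one] at h2
    exact h2

/-- Let `a` normalize `K` and `Q` and move `φ` inside its `NN K Q`-orbit. Then for nice `χ`, `cnj a χ`
nice, `Bl Q H (cnj a χ) φ ↔ Bl Q H χ φ`: `Bl Q H χ φ ↔ Bl Q H (cnj a χ) (cnj a φ)` by `aa_cnj`, and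
`cnj a φ = cnj m φ`, use `Nice.bl_inv` for `cnj a χ`. -/
theorem Nice.bl_act (hL : Loc p K Q H) {χ : G → ℂ} {a m : G}
    (haK : a ∈ Subgroup.normalizer (K : Set G)) (haQ : a ∈ Subgroup.normalizer (Q : Set G))
    (h' : Nice K Q H (cnj a χ)) {φ : G → ℂ} (hm : m ∈ NN K Q) (hφa : cnj a φ = cnj m φ) :
    Bl Q H (cnj a χ) φ ↔ Bl Q H χ φ := by
  have haH := Loc.norm_H hL haK haQ
  rw [← Nice.bl_inv hL h' hm, ← hφa]
  constructor
  · rintro ⟨lam, hlam, h1⟩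
    refine ⟨cnj a⁻¹ lam, cnj_mem_irrS (inv_mem haQ) hlam, ?_⟩
    rw [← aa_cnj haQ haH, cnj_cnj, mul_inv_cancel, cnj_one]
    exact h1
  · rintro ⟨lam, hlam, h1⟩
    refine ⟨cnj a lam, cnj_mem_irrS haQ hlam, ?_⟩
    rw [aa_cnj haQ haH]
    exact h1

theorem Nice.full_act (hL : Loc p K Q H) {χ : G → ℂ} {a m : G}
    (haK : a ∈ Subgroup.normalizer (K : Set G)) (haQ : a ∈ Subgroup.normalizer (Q : Set G))
    (h' : Nice K Q H (cnj a χ)) {φ : G → ℂ} (hm : m ∈ NN K Q) (hφa : cnj a φ = cnj m φ) :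
    Full Q H (cnj a χ) φ ↔ Full Q H χ φ := by
  have haH := Loc.norm_H hL haK haQ
  rw [← Nice.full_inv hL h' hm, ← hφa]
  constructor
  · intro hf lam hlam h1
    rw [← aa_cnj haQ haH]
    exact hf _ (cnj_mem_irrS haQ hlam) (cnj_ne_oneS haQ h1)
  · intro hf lam hlam h1
    have h2 := hf (cnj a⁻¹ lam) (cnj_mem_irrS (inv_mem haQ) hlam)
      (cnj_ne_oneS (inv_mem haQ) h1)
    rw [← aa_cnj haQ haH, cnj_cnj, mul_inv_cancel, cnj_one] at h2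
    exact h2

/-- For nice `χ`, `χ'` in the block of `φ`, equality of the supports over `φ` gives equality of the
supports: if `aa Q H χ lam ρ ≠ 0` then `ρ = cnj n φ`, and both `aa` at `(lam, ρ)` equal those at
`(cnj n⁻¹ lam, φ)`. -/
theorem Sp_eq_of (hL : Loc p K Q H) {χ χ' : G → ℂ} (h : Nice K Q H χ) (h' : Nice K Q H χ')
    {φ : G → ℂ} (hφ : φ ∈ IrrS H) (hb : Bl Q H χ φ) (hb' : Bl Q H χ' φ)
    (he : ∀ lam ∈ IrrS Q, aa Q H χ lam φ ≠ 0 ↔ aa Q H χ' lam φ ≠ 0) :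
    Sp Q H χ = Sp Q H χ' := by
  have key : ∀ {χ χ' : G → ℂ}, Nice K Q H χ → Nice K Q H χ' → Bl Q H χ φ →
      (∀ lam ∈ IrrS Q, aa Q H χ lam φ ≠ 0 ↔ aa Q H χ' lam φ ≠ 0) → Sp Q H χ ⊆ Sp Q H χ' := by
    intro χ χ' h h' hb he x hx
    obtain ⟨hx1, hx2, hx3⟩ := hx
    obtain ⟨n, hn, h1⟩ := h.one φ hφ x.1 hx1 hb ⟨x.2, hx2, hx3⟩
    refine ⟨hx1, hx2, ?_⟩
    have e1 : ∀ {ξ : G → ℂ}, Nice K Q H ξ →
        aa Q H ξ x.2 x.1 = aa Q H ξ (cnj n⁻¹ x.2) φ := by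
      intro ξ hξ
      have h5 := hξ.aa_inv hL hn (cnj n⁻¹ x.2) φ
      rw [cnj_cnj, mul_inv_cancel, cnj_one, h1] at h5
      exact h5
    rw [e1 h']
    rw [e1 h] at hx3
    exact (he _ (cnj_mem_irrS (inv_mem hn.2) hx2)).1 hx3
  exact Set.Subset.antisymm (key h h' hb he) (key h' h hb' (fun lam hl => (he lam hl).symm))

/-- The support is equivariant: `(ρ, lam) ∈ Sp (cnj a χ)` iff `(cnj a⁻¹ ρ, cnj a⁻¹ lam) ∈ Sp χ`; the
group acts on sets of pairs elementwise (`Set.mem_smul_set_iff_inv_smul_mem`). -/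
theorem Sp_cnj (hL : Loc p K Q H) {a : G} (haK : a ∈ Subgroup.normalizer (K : Set G))
    (haQ : a ∈ Subgroup.normalizer (Q : Set G)) (χ : G → ℂ) :
    Sp Q H (cnj a χ) = a • Sp Q H χ := by
  have haH := Loc.norm_H hL haK haQ
  ext x
  rw [Set.mem_smul_set_iff_inv_smul_mem]
  have e1 : a⁻¹ • x = (cnj a⁻¹ x.1, cnj a⁻¹ x.2) := rfl
  rw [e1]
  have e2 : ∀ f : G → ℂ, cnj a (cnj a⁻¹ f) = f := by
    intro f
    rw [cnj_cnj, mul_inv_cancel, cnj_one]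
  constructor
  · rintro ⟨h1, h2, h3⟩
    refine ⟨cnj_mem_irrS (inv_mem haH) h1, cnj_mem_irrS (inv_mem haQ) h2, ?_⟩
    change aa Q H χ (cnj a⁻¹ x.2) (cnj a⁻¹ x.1) ≠ 0
    rw [← aa_cnj haQ haH, e2, e2]
    exact h3
  · rintro ⟨h1, h2, h3⟩
    have h1' := cnj_mem_irrS haH h1
    have h2' := cnj_mem_irrS haQ h2
    change aa Q H χ (cnj a⁻¹ x.2) (cnj a⁻¹ x.1) ≠ 0 at h3
    rw [← aa_cnj haQ haH, e2, e2] at h3
    change cnj a (cnj a⁻¹ x.1) ∈ IrrS H at h1'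
    change cnj a (cnj a⁻¹ x.2) ∈ IrrS Q at h2'
    rw [e2] at h1' h2'
    exact ⟨h1', h2', h3⟩

end Pool.Agent.Helper97.S4
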