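import Pool.Agent.Helper97.S4.ProdC
import Pool.Agent.Helper97.S4.Nice

/-!
# Project IR, section 4 (S4-19): the characters of `N = NN K Q`

`Q` is normal in `N = NN K Q` and `C = Q ⊔ H` is normal in `N`.
-/

namespace Pool.Agent.Helper97.S4

open Pool.Agent.Helper42.INC Pool.Agent.Helper42.IR

variable {G : Type} [Group G] [Finite G] {p : ℕ} [Fact p.Prime] {K Q H : Subgroup G}

/-- `Q` normalized by `N`, `ψ ∈ IrrS N` with representation `σ` on `V`. The number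
`ip Q ψ (oneS Q)` is the dimension of the fixed space of `Q`; it is stable under `N`, so if it is
nonzero it is `V`. Character version (see `invM_of_B` in INC/Clifford2.lean): `E = ∑ x ∈ Q, σ x`
commutes with all `σ n` (`Q` is normalized), so it is a scalar `c` by Schur, with
`c * dim V = |Q| * ip Q ψ (oneS Q) ≠ 0`; and `σ x * E = E` gives `σ x = 1` for `x ∈ Q`. -/
theorem qker_of_ip {N : Subgroup G} (hQN : Q ≤ N) (hn : N ≤ Subgroup.normalizer (Q : Set G))
    {ψ : G → ℂ} (hψ : ψ ∈ IrrS N) (h : ip Q ψ (oneS Q) ≠ 0) : QKer N Q ψ := by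
  have := Fintype.ofFinite Q
  have hψ1 := hψ
  obtain ⟨⟨V, _, _, _, σ, hσ, hχ⟩, hoff⟩ := hψ1
  have hval : ∀ (g : G) (hg : g ∈ N), ψ g = LinearMap.trace ℂ V (σ ⟨g, hg⟩) := by
    intro g hg
    exact congrFun hχ ⟨g, hg⟩
  let inc : Q → N := fun x => ⟨x.1, hQN x.2⟩
  set E : V →ₗ[ℂ] V := ∑ x : Q, σ (inc x) with hE
  have hcomm : ∀ γ : N, E * σ γ = σ γ * E := by
    intro γ
    rw [hE, Finset.sum_mul, Finset.mul_sum]
    let e : Q ≃ Q :=
      { toFun := fun x => ⟨γ.1 * x.1 * γ.1⁻¹,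
          (Subgroup.mem_normalizer_iff.mp (hn γ.2) x.1).mp x.2⟩
        invFun := fun x => ⟨γ.1⁻¹ * x.1 * γ.1,
          (Subgroup.mem_normalizer_iff''.mp (hn γ.2) x.1).mp x.2⟩
        left_inv := by
          intro x
          apply Subtype.ext
          change γ.1⁻¹ * (γ.1 * x.1 * γ.1⁻¹) * γ.1 = x.1
          group
        right_inv := by
          intro x
          apply Subtype.ext
          change γ.1 * (γ.1⁻¹ * x.1 * γ.1) * γ.1⁻¹ = x.1
          group }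
    rw [← Equiv.sum_comp e]
    apply Finset.sum_congr rfl
    intro x _
    rw [← map_mul, ← map_mul]
    congr 1
    apply Subtype.ext
    change γ.1 * x.1 * γ.1⁻¹ * γ.1 = γ.1 * x.1
    group
  obtain ⟨c, hc⟩ :=
    (Representation.IsIrreducible.algebraMap_intertwiningMap_bijective_of_isAlgClosed
      (ρ := σ)).2 (⟨E, fun γ => hcomm γ⟩ : Representation.IntertwiningMap σ σ)
  have hEc : E = c • (1 : V →ₗ[ℂ] V) := by
    have : (⟨E, fun γ => hcomm γ⟩ : Representation.IntertwiningMap σ σ).toLinearMap =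
      c • (1 : V →ₗ[ℂ] V) := by
      rw [← hc]; rfl
    exact this
  have htr : LinearMap.trace ℂ V E = (Nat.card Q : ℂ) * ip Q ψ (oneS Q) := by
    have hQ0 : (Nat.card Q : ℂ) ≠ 0 := by exact_mod_cast Nat.card_pos.ne'
    unfold ip
    rw [B_eq, mul_inv_cancel_left₀ hQ0, hE, map_sum]
    apply Finset.sum_congr rfl
    intro x _
    have h1 : oneS Q ((x⁻¹ : Q) : G) = 1 := by
      unfold oneS
      exact if_pos (x⁻¹).2
    rw [h1, mul_one]
    exact (hval x.1 (hQN x.2)).symm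
  have hc0 : c ≠ 0 := by
    intro h0
    rw [hEc, h0, zero_smul, map_zero] at htr
    have hQ0 : (Nat.card Q : ℂ) ≠ 0 := by exact_mod_cast Nat.card_pos.ne'
    exact mul_ne_zero hQ0 h htr.symm
  have hid : ∀ x : Q, σ (inc x) = 1 := by
    intro x
    have h1 : σ (inc x) * E = E := by
      rw [hE, Finset.mul_sum]
      rw [← Equiv.sum_comp (Equiv.mulLeft x) (fun m => σ (inc m))]
      apply Finset.sum_congr rfl
      intro m _
      rw [← map_mul]
      rfl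
    rw [hEc, mul_smul_comm, mul_one] at h1
    exact smul_right_injective _ hc0 h1
  intro x hx n hn'
  rw [hval (x * n) (N.mul_mem (hQN hx) hn'), hval n hn']
  have h2 : (⟨x * n, N.mul_mem (hQN hx) hn'⟩ : N) = inc ⟨x, hx⟩ * ⟨n, hn'⟩ := rfl
  rw [h2, map_mul, hid, one_mul]

/-- If `Q` is in the kernel: by `aa_eq_sum`, `ip H (fun h => ψ (x * h)) φ = ip H ψ φ` for `x ∈ Q`, and
`sum_lam`. -/
theorem aa_qker (hL : Loc p K Q H) {ψ lam φ : G → ℂ} (hq : QKer (NN K Q) Q ψ)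
    (hl : lam ∈ IrrS Q) (h1 : lam ≠ oneS Q) : aa Q H ψ lam φ = - ip H ψ φ := by
  have := Fintype.ofFinite Q
  have hHN : H ≤ NN K Q := le_sup_right.trans (Loc.sup_le hL)
  have hQ0 : (Nat.card Q : ℂ) ≠ 0 := by exact_mod_cast Nat.card_pos.ne'
  rw [aa_eq_sum]
  have h2 : ∀ x : Q, ip H (fun h => ψ ((x : G) * h)) φ = ip H ψ φ := by
    intro x
    unfold ip
    congr 1
    funext h
    exact hq x.1 x.2 h.1 (hHN h.2)
  have h3 := sum_lam hL hl h1
  rw [finsum_eq_sum_of_fintype] at h3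
  rw [finsum_eq_sum_of_fintype]
  have h4 : ∑ x : Q, (lam (x : G)⁻¹ - 1) * ip H (fun h => ψ ((x : G) * h)) φ =
      -(Nat.card Q : ℂ) * ip H ψ φ := by
    have h5 : ∀ x : Q, (lam (x : G)⁻¹ - 1) * ip H (fun h => ψ ((x : G) * h)) φ =
        (lam (x : G)⁻¹ - 1) * ip H ψ φ := fun x => by rw [h2 x]
    rw [Finset.sum_congr rfl (fun x _ => h5 x), ← Finset.sum_mul, Finset.sum_sub_distrib, h3,
      Finset.sum_const, nsmul_eq_mul, Finset.card_univ, Nat.card_eq_fintype_card]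
    ring
  rw [h4, neg_mul, mul_neg, inv_mul_cancel_left₀ hQ0]

/-- If `Q` is not in the kernel: `ip Q ψ (oneS Q) = 0` by `qker_of_ip`. This number is the value at
`1` of the class function `f h = |Q|⁻¹ ∑ x ∈ Q, ψ (x * h)` on `H`, and
`ip H f ρ = ip (Q ⊔ H) ψ (prodC Q (oneS Q) ρ)` is a natural number for `ρ ∈ IrrS H` (`ip_res_nat`,
`prodC_mem`); as `f 1 = ∑ ρ, ip H f ρ * ρ 1` (`expand_on`) with `ρ 1 > 0`, all `ip H f ρ` vanish. -/
theorem ip_one_zero (hL : Loc p K Q H) {ψ φ : G → ℂ} (hψ : ψ ∈ IrrS (NN K Q))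
    (hq : ¬ QKer (NN K Q) Q ψ) (hφ : φ ∈ IrrS H) :
    ip (Q ⊔ H) ψ (prodC Q (oneS Q) φ) = 0 := by
  by_contra hne
  apply hq
  have hQN : Q ≤ NN K Q := le_sup_left.trans (Loc.sup_le hL)
  refine qker_of_ip hQN inf_le_right hψ ?_
  have := Fintype.ofFinite Q
  have hfin : Finite (IrrS (Q ⊔ H)) := irrS_finite (Q ⊔ H)
  have := Fintype.ofFinite (IrrS (Q ⊔ H))
  have h1S : oneS Q ∈ IrrS Q := oneS_mem Q
  have hmem : prodC Q (oneS Q) φ ∈ IrrS (Q ⊔ H) := prodC_mem hL h1S hφ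
  rw [ip_trans (L := Q) (K := Q ⊔ H) (J := NN K Q) le_sup_left (Loc.sup_le hL) hψ,
    finsum_eq_sum_of_fintype]
  have hnat : ∀ θ : IrrS (Q ⊔ H), ∃ n : ℕ, ip (Q ⊔ H) ψ θ.1 * ip Q θ.1 (oneS Q) = n := by
    intro θ
    obtain ⟨a, ha⟩ := ip_res_nat (Loc.sup_le hL) hψ θ.2
    obtain ⟨b, hb⟩ := ip_res_nat (L := Q) (K := Q ⊔ H) le_sup_left θ.2 h1S
    refine ⟨a * b, ?_⟩
    rw [ha, hb]
    push_cast
    rfl
  choose n hn using hnat
  rw [Finset.sum_congr rfl (fun θ _ => hn θ), ← Nat.cast_sum]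
  have h5 : n ⟨_, hmem⟩ ≠ 0 := by
    intro h0
    have h6 := hn ⟨_, hmem⟩
    rw [h0, Nat.cast_zero] at h6
    rcases mul_eq_zero.mp h6 with h7 | h7
    · exact hne h7
    · have h8 : ip Q (prodC Q (oneS Q) φ) (oneS Q) = φ 1 := by
        have hQ0 : (Nat.card Q : ℂ) ≠ 0 := by exact_mod_cast Nat.card_pos.ne'
        have h1x : ∀ x ∈ Q, oneS Q x = 1 := by
          intro x hx
          unfold oneS
          exact if_pos hx
        unfold ip
        rw [B_eq]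
        have h9 : ∀ x : Q, prodC Q (oneS Q) φ (x : G) * oneS Q ((x⁻¹ : Q) : G) = φ 1 := by
          intro x
          have h10 := prodC_apply (lam := oneS Q) hL hφ x.2 H.one_mem
          rw [mul_one] at h10
          rw [h10, h1x _ x.2, h1x _ (x⁻¹).2]
          ring
        rw [Finset.sum_congr rfl (fun x _ => h9 x), Finset.sum_const, nsmul_eq_mul,
          Finset.card_univ, ← Nat.card_eq_fintype_card, inv_mul_cancel_left₀ hQ0]
      change ip Q (prodC Q (oneS Q) φ) (oneS Q) = 0 at h7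
      rw [h8] at h7
      exact irrS_one_ne hφ h7
  have h11 : 0 < ∑ θ, n θ := by
    refine lt_of_lt_of_le (Nat.pos_of_ne_zero h5) ?_
    exact Finset.single_le_sum (f := n) (fun _ _ => Nat.zero_le _) (Finset.mem_univ _)
  exact_mod_cast h11.ne'

/-- consequently (`aa_eq_ip`) -/
theorem aa_not_qker (hL : Loc p K Q H) {ψ lam φ : G → ℂ} (hψ : ψ ∈ IrrS (NN K Q))
    (hq : ¬ QKer (NN K Q) Q ψ) (hφ : φ ∈ IrrS H) :
    aa Q H ψ lam φ = ip (Q ⊔ H) ψ (prodC Q lam φ) := by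
  rw [aa_eq_ip hL hφ, ip_one_zero hL hψ hq hφ, sub_zero]

/-- The two types of characters of `N = NN K Q` in the block of `φ`.
Type 1: `Q` in the kernel. By `aa_qker` all `aa Q H ψ lam φ`, `lam ≠ oneS Q`, equal `- ip H ψ φ`, a
natural number up to sign, nonzero because of `Bl` (`aa_oneS`), and `± 1` by `Pkg.shape`; so it is `-1`
and `ip H ψ φ = 1`.
Type 2: `Q` not in the kernel. By `aa_not_qker` all `aa Q H ψ lam φ` are natural numbers
(`ip_res_nat`), some `l0` has `aa Q H ψ l0 φ ≠ 0`, the sign in `Nice.sgn` is `1`, and for `lam ≠ oneS Q`: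
if `cnj n φ = φ`, `cnj n l0 = lam` with `n ∈ NN K Q` then `aa Q H ψ lam φ = aa Q H ψ l0 φ = 1` by
`Nice.aa_inv`; conversely if `aa Q H ψ lam φ ≠ 0`, then `clifford` for `Q ⊔ H ≤ NN K Q` gives
`n ∈ NN K Q` with `cnj n (prodC Q l0 φ) = prodC Q lam φ`, so `cnj n l0 = lam`, `cnj n φ = φ`
(`cnj_prodC`, `prodC_inj`). -/
theorem local_types (hL : Loc p K Q H) (hPN : Pkg p (NN K Q) Q H) {ψ : G → ℂ}
    (hψ : ψ ∈ IrrSP p (NN K Q)) {φ : G → ℂ} (hφ : φ ∈ IrrS H) (hb : Bl Q H ψ φ) :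
    (QKer (NN K Q) Q ψ ∧ NE Q H ψ φ (-1) ∧ ip H ψ φ ≠ 0) ∨
    (¬ QKer (NN K Q) Q ψ ∧ ∃ l0 ∈ IrrS Q, l0 ≠ oneS Q ∧ EX K Q H ψ φ l0 1 ∧
      ip (Q ⊔ H) ψ (prodC Q l0 φ) ≠ 0) := by
  have hsh := hPN.shape ψ hψ φ hφ hb
  have hbb := hb
  obtain ⟨l0, hl0, hne0⟩ := hbb
  have hl01 : l0 ≠ oneS Q := by
    rintro rfl
    exact hne0 (aa_oneS Q H ψ φ)
  by_cases hq : QKer (NN K Q) Q ψ
  · left
    have hHN : H ≤ NN K Q := le_sup_right.trans (Loc.sup_le hL)
    obtain ⟨m, hm⟩ := ip_res_nat hHN hψ.1 hφ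
    obtain ⟨ε, hε, hs⟩ := hsh
    have hval : aa Q H ψ l0 φ = ε := by
      rcases hs with hs | ⟨l1, _, _, hs⟩
      · exact hs l0 hl0 hl01
      · by_cases hc : ∃ n ∈ NN (NN K Q) Q, cnj n φ = φ ∧ cnj n l1 = l0
        · exact (hs l0 hl0 hl01).1 hc
        · exact absurd ((hs l0 hl0 hl01).2 hc) hne0
    rw [aa_qker hL hq hl0 hl01, hm] at hval
    have hm1 : m = 1 := by
      rcases hε with hε | hε
      · rw [hε] at hval
        exfalso
        have h1 : (m : ℂ) + 1 = 0 := by rw [← hval]; ring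
        have h2 : ((m + 1 : ℕ) : ℂ) = 0 := by push_cast; exact h1
        exact Nat.succ_ne_zero m (by exact_mod_cast h2)
      · rw [hε] at hval
        have h1 : (m : ℂ) = 1 := neg_injective hval
        exact_mod_cast h1
    refine ⟨hq, ?_, ?_⟩
    · intro lam hlam hlam1
      rw [aa_qker hL hq hlam hlam1, hm, hm1, Nat.cast_one]
    · rw [hm, hm1, Nat.cast_one]
      exact one_ne_zero
  · right
    have hN := nice_N hL hPN hψ
    have hnat : ∀ lam ∈ IrrS Q, ∃ n : ℕ, aa Q H ψ lam φ = n := by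
      intro lam hlam
      rw [aa_not_qker hL hψ.1 hq hφ]
      exact ip_res_nat (Loc.sup_le hL) hψ.1 (prodC_mem hL hlam hφ)
    obtain ⟨ε, hε, hs⟩ := hN.sgn
    have hval : aa Q H ψ l0 φ = 1 := by
      rcases hs φ hφ l0 hl0 with h1 | h1
      · exact absurd h1 hne0
      · rcases hε with h2 | h2
        · rw [h1, h2]
        · exfalso
          obtain ⟨m, hm⟩ := hnat l0 hl0
          rw [h1, h2] at hm
          have h3 : ((m + 1 : ℕ) : ℂ) = 0 := by push_cast; rw [← hm]; ring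
          exact Nat.succ_ne_zero m (by exact_mod_cast h3)
    have hne0' : ip (Q ⊔ H) ψ (prodC Q l0 φ) ≠ 0 := by
      rw [← aa_not_qker hL hψ.1 hq hφ]
      exact hne0
    refine ⟨hq, l0, hl0, hl01, ?_, hne0'⟩
    intro lam hlam hlam1
    constructor
    · rintro ⟨n, hn, h1, h2⟩
      have h3 := hN.aa_inv hL hn l0 φ
      rw [h1, h2, hval] at h3
      exact h3
    · intro hno
      by_contra hne
      apply hno
      have hne' : ip (Q ⊔ H) ψ (prodC Q lam φ) ≠ 0 := by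
        rw [← aa_not_qker hL hψ.1 hq hφ]
        exact hne
      have hnorm : NN K Q ≤ Subgroup.normalizer ((Q ⊔ H : Subgroup G) : Set G) := by
        intro a ha
        exact Loc.norm_sup hL (Subgroup.le_normalizer ha.1) ha.2
      obtain ⟨k, hk, hkk⟩ := clifford (Loc.sup_le hL) hnorm hψ.1 (prodC_mem hL hl0 hφ)
        (prodC_mem hL hlam hφ) hne0' hne'
      rw [cnj_prodC Q hk.2] at hkk
      obtain ⟨h4, h5⟩ := prodC_inj hL (cnj_mem_irrS hk.2 hl0) hlam
        (cnj_mem_irrS (Loc.norm_H' hL hk) hφ) hφ hkk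
      exact ⟨k, hk, h5, h4⟩

end Pool.Agent.Helper97.S4
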