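import Pool.Agent.Helper97.S4.Nice

/-!
# Project IR, section 4 (S4-12): numbers of characters in a block

`FF` = full support over `φ`, `EE` = in the block of `φ` without full support, `Tr` = all nontrivial
characters of `Q` are conjugate under the stabilizer of `φ` in `NN K Q`, `ee` = index of `Q ⊔ H` in
this stabilizer.
-/

namespace Pool.Agent.Helper97.S4

open Pool.Agent.Helper42.INC Pool.Agent.Helper42.IR

variable {G : Type} [Group G] [Finite G] {p : ℕ} [Fact p.Prime] {K Q H : Subgroup G}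

/-- `Q` has a nontrivial character (it has order `p > 1`: otherwise `Irr Q` has one element and the
sum of the squares of the degrees, `sum_deg_sq`, would be `1`). -/
theorem exists_ne_oneS (hL : Loc p K Q H) : ∃ lam ∈ IrrS Q, lam ≠ oneS Q := by
  classical
  by_contra hcon
  push Not at hcon
  obtain ⟨e, he⟩ := exists_irrSEquiv Q
  have hfin : Finite (IrrS Q) := (irrS_finite Q).to_subtype
  have hfin2 : Finite (Irr Q) := Finite.of_equiv _ e
  have := Fintype.ofFinite (Irr Q)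
  have h1 : ∀ χ : Irr Q, χ.1 = fun _ => (1 : ℂ) := by
    intro χ
    have h2 := he (e.symm χ)
    rw [Equiv.apply_symm_apply] at h2
    rw [h2]
    funext k
    rw [hcon (e.symm χ).1 (e.symm χ).2]
    simp [oneS]
  have h3 : Subsingleton (Irr Q) := ⟨fun a b => Subtype.ext ((h1 a).trans (h1 b).symm)⟩
  have h4 := sum_deg_sq (G := Q)
  have h5 : ∑ χ : Irr Q, (deg χ.1) ^ 2 = Fintype.card (Irr Q) := by
    rw [Finset.sum_congr rfl (g := fun _ => 1)]
    · simp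
    · intro χ _
      have h6 : deg χ.1 = 1 := by
        apply deg_eq
        rw [h1 χ]
        simp
      rw [h6, one_pow]
  have h7 : Fintype.card (Irr Q) ≤ 1 := Fintype.card_le_one_iff_subsingleton.2 h3
  rw [h5, hL.cQ] at h4
  have h8 := (Fact.out : p.Prime).two_le
  omega

/-- From `Pkg.norm`: in the sum over `χ ∈ IrrS K` of `aa χ lam φ * aa χ lam' φ` the terms with
`p ∣ deg χ` vanish (`Pkg.def0`), the others are `0` or `ε * ε = 1` (`Nice.sgn`), so the sum is the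
number of `χ ∈ IrrSP p K` with both factors nonzero. -/
theorem card_both (hL : Loc p K Q H) (hPK : Pkg p K Q H) {φ : G → ℂ} (hφ : φ ∈ IrrS H)
    {lam lam' : G → ℂ} (hl : lam ∈ IrrS Q) (hl' : lam' ∈ IrrS Q) (h1 : lam ≠ oneS Q)
    (h1' : lam' ≠ oneS Q) :
    (Cj K Q φ lam lam' → Nat.card {χ : G → ℂ // χ ∈ IrrSP p K ∧ aa Q H χ lam φ ≠ 0 ∧
      aa Q H χ lam' φ ≠ 0} = ee K Q H φ + 1) ∧
    (¬ Cj K Q φ lam lam' → Nat.card {χ : G → ℂ // χ ∈ IrrSP p K ∧ aa Q H χ lam φ ≠ 0 ∧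
      aa Q H χ lam' φ ≠ 0} = ee K Q H φ) := by
  classical
  have hfin : Finite (IrrS K) := (irrS_finite K).to_subtype
  have := Fintype.ofFinite (IrrS K)
  set S : Set (G → ℂ) := {χ | χ ∈ IrrSP p K ∧ aa Q H χ lam φ ≠ 0 ∧ aa Q H χ lam' φ ≠ 0} with hS
  have hterm : ∀ χ : IrrS K, aa Q H χ.1 lam φ * aa Q H χ.1 lam' φ =
      if χ.1 ∈ S then (1 : ℂ) else 0 := by
    intro χ
    by_cases hd : p ∣ deg χ.1
    · have h2 : χ.1 ∉ S := fun h => h.1.2 hd
      rw [if_neg h2]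
      have h3 : aa Q H χ.1 lam φ = 0 := by
        by_contra hne
        exact hPK.def0 χ.1 χ.2 hd φ hφ ⟨lam, hl, hne⟩
      rw [h3, zero_mul]
    · have hSP : χ.1 ∈ IrrSP p K := ⟨χ.2, hd⟩
      obtain ⟨ε, hε, hs⟩ := (nice_K hL hPK hSP).sgn
      have hee : ε * ε = 1 := by rcases hε with h | h <;> rw [h] <;> norm_num
      rcases hs φ hφ lam hl with h2 | h2
      · have h3 : χ.1 ∉ S := fun h => h.2.1 h2
        rw [if_neg h3, h2, zero_mul]
      · rcases hs φ hφ lam' hl' with h4 | h4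
        · have h3 : χ.1 ∉ S := fun h => h.2.2 h4
          rw [if_neg h3, h4, mul_zero]
        · have hε0 : ε ≠ 0 := by
            intro h0
            rw [h0, zero_mul] at hee
            exact zero_ne_one hee
          have h3 : χ.1 ∈ S := ⟨hSP, by rw [h2]; exact hε0, by rw [h4]; exact hε0⟩
          rw [if_pos h3, h2, h4, hee]
  have hsum : ∑ᶠ χ : IrrS K, aa Q H χ.1 lam φ * aa Q H χ.1 lam' φ = (Nat.card S : ℂ) := by
    rw [finsum_eq_sum_of_fintype, Finset.sum_congr rfl (fun χ _ => hterm χ), Finset.sum_boole]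
    congr 1
    rw [← Fintype.card_subtype, ← Nat.card_eq_fintype_card]
    exact Nat.card_congr (Equiv.subtypeSubtypeEquivSubtype (p := fun χ => χ ∈ IrrS K)
      (q := fun χ => χ ∈ S) (fun h => h.1.1))
  have hn := hPK.norm φ hφ lam hl lam' hl' h1 h1'
  rw [hsum] at hn
  constructor
  · intro hC
    have hC' : ∃ n ∈ NN K Q, cnj n φ = φ ∧ cnj n lam = lam' := hC
    rw [if_pos hC'] at hn
    have h5 : (Nat.card S : ℂ) = ((ee K Q H φ + 1 : ℕ) : ℂ) := by
      rw [hn, ee]; push_cast; ring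
    exact_mod_cast h5
  · intro hC
    have hC' : ¬ ∃ n ∈ NN K Q, cnj n φ = φ ∧ cnj n lam = lam' := hC
    rw [if_neg hC', add_zero] at hn
    have h5 : (Nat.card S : ℂ) = ((ee K Q H φ : ℕ) : ℂ) := by
      rw [hn, ee]
    exact_mod_cast h5

/-- `Cj` is an equivalence relation; in particular reflexive, symmetric, transitive -/
theorem Cj_refl (K Q : Subgroup G) (φ lam : G → ℂ) : Cj K Q φ lam lam := by
  exact ⟨1, Subgroup.one_mem _, cnj_one φ, cnj_one lam⟩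

theorem Cj_symm {K Q : Subgroup G} {φ lam lam' : G → ℂ} (h : Cj K Q φ lam lam') :
    Cj K Q φ lam' lam := by
  obtain ⟨n, hn, h1, h2⟩ := h
  refine ⟨n⁻¹, Subgroup.inv_mem _ hn, ?_, ?_⟩
  · nth_rewrite 1 [← h1]
    exact cnj_inv_cnj n φ
  · rw [← h2]
    exact cnj_inv_cnj n lam

theorem Cj_trans {K Q : Subgroup G} {φ l1 l2 l3 : G → ℂ} (h : Cj K Q φ l1 l2)
    (h' : Cj K Q φ l2 l3) : Cj K Q φ l1 l3 := by
  obtain ⟨n, hn, h1, h2⟩ := h
  obtain ⟨m, hm, h3, h4⟩ := h'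
  refine ⟨m * n, Subgroup.mul_mem _ hm hn, ?_, ?_⟩
  · rw [← cnj_cnj, h1, h3]
  · rw [← cnj_cnj, h2, h4]

/-- From `Pkg.shape`: `NE` gives full support; in the case `EX` the support over `φ` is the orbit of
`l0`. -/
theorem full_or (hPK : Pkg p K Q H) {φ : G → ℂ} (hφ : φ ∈ IrrS H) {χ : G → ℂ}
    (hχ : χ ∈ BB p K Q H φ) :
    Full Q H χ φ ∨ ∃ l0 ∈ IrrS Q, l0 ≠ oneS Q ∧
      ∀ lam ∈ IrrS Q, lam ≠ oneS Q → (aa Q H χ lam φ ≠ 0 ↔ Cj K Q φ l0 lam) := by
  obtain ⟨ε, hε, hs⟩ := hPK.shape χ hχ.1 φ hφ hχ.2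
  have hε0 : ε ≠ 0 := by
    rcases hε with h | h <;> rw [h] <;> norm_num
  rcases hs with h | ⟨l0, hl0, hne, h⟩
  · left
    intro lam hl h1
    rw [h lam hl h1]
    exact hε0
  · right
    refine ⟨l0, hl0, hne, fun lam hl h1 => ?_⟩
    constructor
    · intro h2
      by_contra hcon
      exact h2 ((h lam hl h1).2 hcon)
    · intro h2
      rw [(h lam hl h1).1 h2]
      exact hε0

/-- for `χ ∈ EE` the support over `φ` is the orbit of each of its elements (`full_or`, `Cj_trans`) -/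
theorem EE_support (hPK : Pkg p K Q H) {φ : G → ℂ} (hφ : φ ∈ IrrS H) {χ lam : G → ℂ}
    (hχ : χ ∈ EE p K Q H φ) (hl : lam ∈ IrrS Q) (h0 : aa Q H χ lam φ ≠ 0) {lam' : G → ℂ}
    (hl' : lam' ∈ IrrS Q) (h1' : lam' ≠ oneS Q) :
    aa Q H χ lam' φ ≠ 0 ↔ Cj K Q φ lam lam' := by
  have h1 : lam ≠ oneS Q := by
    intro h
    rw [h] at h0
    exact h0 (aa_oneS Q H χ φ)
  rcases full_or hPK hφ hχ.1 with h | ⟨l0, hl0, hne, h⟩
  · exact absurd h hχ.2
  · have h2 : Cj K Q φ l0 lam := (h lam hl h1).1 h0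
    rw [h lam' hl' h1']
    exact ⟨fun h3 => Cj_trans (Cj_symm h2) h3, fun h3 => Cj_trans h2 h3⟩

/-- In the transitive case all characters in the block have full support (`full_or`). -/
theorem EE_empty (hPK : Pkg p K Q H) {φ : G → ℂ} (hφ : φ ∈ IrrS H) (hT : Tr K Q φ) :
    EE p K Q H φ = ∅ := by
  rw [Set.eq_empty_iff_forall_notMem]
  intro χ hχ
  rcases full_or hPK hφ hχ.1 with h | ⟨l0, hl0, hne, h⟩
  · exact hχ.2 h
  · apply hχ.2
    intro lam hl h1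
    exact (h lam hl h1).2 (hT l0 hl0 lam hl hne h1)

theorem BB_eq_FF (hL : Loc p K Q H) (hPK : Pkg p K Q H) {φ : G → ℂ} (hφ : φ ∈ IrrS H)
    (hT : Tr K Q φ) : BB p K Q H φ = FF p K Q H φ := by
  ext χ
  constructor
  · intro hχ
    refine ⟨hχ.1, ?_⟩
    by_contra hcon
    have h1 : χ ∈ EE p K Q H φ := ⟨hχ, hcon⟩
    rw [EE_empty hPK hφ hT] at h1
    exact h1
  · intro hχ
    obtain ⟨lam, hl, h1⟩ := exists_ne_oneS hL
    exact ⟨hχ.1, lam, hl, hχ.2 lam hl h1⟩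

/-- Transitive case: the set of `card_both` for `lam = lam'` is `FF` (`BB_eq_FF`). -/
theorem card_FF_Tr (hL : Loc p K Q H) (hPK : Pkg p K Q H) {φ : G → ℂ} (hφ : φ ∈ IrrS H)
    (hT : Tr K Q φ) : Nat.card (FF p K Q H φ) = ee K Q H φ + 1 := by
  obtain ⟨lam, hl, h1⟩ := exists_ne_oneS hL
  rw [← (card_both hL hPK hφ hl hl h1 h1).1 (Cj_refl K Q φ lam)]
  apply Nat.card_congr
  refine Equiv.subtypeEquivRight (fun χ => ?_)
  constructor
  · intro hχ
    exact ⟨hχ.1, hχ.2 lam hl h1, hχ.2 lam hl h1⟩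
  · rintro ⟨h2, h3, _⟩
    rw [← BB_eq_FF hL hPK hφ hT]
    exact ⟨h2, lam, hl, h3⟩

/-- If `lam`, `lam'` are nontrivial and not conjugate, the set of `card_both` is `FF`: a character of
the block without full support has support one orbit (`full_or`). -/
theorem card_FF_not_Tr (hL : Loc p K Q H) (hPK : Pkg p K Q H) {φ : G → ℂ} (hφ : φ ∈ IrrS H)
    (hT : ¬ Tr K Q φ) : Nat.card (FF p K Q H φ) = ee K Q H φ := by
  unfold Tr at hT
  push Not at hT
  obtain ⟨lam, hl, lam', hl', h1, h1', hC⟩ := hT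
  rw [← (card_both hL hPK hφ hl hl' h1 h1').2 hC]
  apply Nat.card_congr
  refine Equiv.subtypeEquivRight (fun χ => ?_)
  constructor
  · intro hχ
    exact ⟨hχ.1, hχ.2 lam hl h1, hχ.2 lam' hl' h1'⟩
  · rintro ⟨h2, h3, h4⟩
    refine ⟨h2, ?_⟩
    rcases full_or hPK hφ (χ := χ) ⟨h2, lam, hl, h3⟩ with h | ⟨l0, hl0, hne, h⟩
    · exact h
    · exact absurd (Cj_trans (Cj_symm ((h lam hl h1).1 h3)) ((h lam' hl' h1').1 h4)) hC

/-- In the nontransitive case the set of `card_both` for `lam = lam'` has `ee + 1` elements and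
contains `FF`, which has `ee` elements, so exactly one element outside `FF`. -/
theorem EE_unique (hL : Loc p K Q H) (hPK : Pkg p K Q H) {φ : G → ℂ} (hφ : φ ∈ IrrS H)
    (hT : ¬ Tr K Q φ) {lam : G → ℂ} (hl : lam ∈ IrrS Q) (h1 : lam ≠ oneS Q) :
    ∃! χ : G → ℂ, χ ∈ EE p K Q H φ ∧ aa Q H χ lam φ ≠ 0 := by
  set T : Set (G → ℂ) := {χ | χ ∈ IrrSP p K ∧ aa Q H χ lam φ ≠ 0 ∧ aa Q H χ lam φ ≠ 0} with hTd
  have hTc : T.ncard = ee K Q H φ + 1 := (card_both hL hPK hφ hl hl h1 h1).1 (Cj_refl K Q φ lam)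
  have hFc : (FF p K Q H φ).ncard = ee K Q H φ := card_FF_not_Tr hL hPK hφ hT
  have hTfin : T.Finite := (irrS_finite K).subset (fun χ hχ => hχ.1.1)
  have hFT : FF p K Q H φ ⊆ T := fun χ hχ => ⟨hχ.1, hχ.2 lam hl h1, hχ.2 lam hl h1⟩
  have h2 : (T \ FF p K Q H φ).ncard = 1 := by
    have := Set.ncard_sdiff_add_ncard_of_subset hFT hTfin
    omega
  have hmem : ∀ χ, χ ∈ T \ FF p K Q H φ ↔ (χ ∈ EE p K Q H φ ∧ aa Q H χ lam φ ≠ 0) := by
    intro χ
    constructor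
    · rintro ⟨h3, h4⟩
      refine ⟨⟨⟨h3.1, lam, hl, h3.2.1⟩, fun h5 => h4 ⟨h3.1, h5⟩⟩, h3.2.1⟩
    · rintro ⟨h3, h4⟩
      exact ⟨⟨h3.1.1, h4, h4⟩, fun h5 => h3.2 h5.2⟩
  obtain ⟨a, ha⟩ := Set.ncard_eq_one.1 h2
  refine ⟨a, ?_, ?_⟩
  · apply (hmem a).1
    rw [ha]
    exact Set.mem_singleton a
  · intro b hb
    have h3 := (hmem b).2 hb
    rw [ha] at h3
    exact h3

end Pool.Agent.Helper97.S4
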