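import Mathlib

/-!
# Project IR, section 4 (S4-24): gluing equivariant bijections

`A` acts on `α` and on `Z`, `f : α → Z` is `S`-equivariant, and for each `z : Z` there is a bijection
between the fibres over `z` of `X` and `Y`, equivariant for the stabilizer of `z` in `S`.
-/

open scoped Pointwise

namespace Pool.Agent.Helper97.S4

variable {A α Z : Type} [Group A] [MulAction A α] [MulAction A Z]

/-- Proof: choose a representative `r z` of each `S`-orbit on `Z` (`r z` depends only on the orbit of `z`,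
e.g. via `Quotient.out` for `MulAction.orbitRel S Z`) and `g z ∈ S` with `z = g z • r z`; for `z : Z` let
`F_z` be the given map. For `x` with `f x = z` put `F x = g z • F_{r z} ((g z)⁻¹ • x)`. Equivariance: for
`s ∈ S`, `g (s • z)` and `s * g z` differ by an element of the stabilizer of `r z`. On each fibre `F` is a
composition of bijections, and `f (F x) = f x`. -/
theorem glue (S : Subgroup A) (f : α → Z) (hf : ∀ s ∈ S, ∀ x, f (s • x) = s • f x)
    (X Y : Set α) (hSX : ∀ s ∈ S, ∀ x ∈ X, s • x ∈ X) (hSY : ∀ s ∈ S, ∀ y ∈ Y, s • y ∈ Y)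
    (h : ∀ z : Z, ∃ F : α → α, Set.BijOn F {x | x ∈ X ∧ f x = z} {y | y ∈ Y ∧ f y = z} ∧
      ∀ s ∈ S, s • z = z → ∀ x ∈ X, f x = z → F (s • x) = s • F x) :
    ∃ F : α → α, Set.BijOn F X Y ∧ (∀ s ∈ S, ∀ x ∈ X, F (s • x) = s • F x) ∧
      ∀ x ∈ X, f (F x) = f x := by
  classical
  choose Fz hbij heq using h
  -- representatives of the orbits
  let r : Z → Z := fun z => Quotient.out (Quotient.mk (MulAction.orbitRel S Z) z)
  have hr : ∀ z, ∃ s ∈ S, z = s • r z := by
    intro z
    have h1 : (MulAction.orbitRel S Z).r (r z) z := Quotient.mk_out (s := MulAction.orbitRel S Z) z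
    have h2 : r z ∈ MulAction.orbit S z := h1
    obtain ⟨s, hs⟩ := h2
    refine ⟨((s⁻¹ : S) : A), (s⁻¹).2, ?_⟩
    rw [← hs]
    change z = s⁻¹ • (s • z)
    rw [inv_smul_smul]
  have hr2 : ∀ s ∈ S, ∀ z, r (s • z) = r z := by
    intro s hs z
    have h1 : (Quotient.mk (MulAction.orbitRel S Z) (s • z)) =
        Quotient.mk (MulAction.orbitRel S Z) z := by
      apply Quotient.sound
      exact ⟨⟨s, hs⟩, rfl⟩
    change Quotient.out (Quotient.mk (MulAction.orbitRel S Z) (s • z)) = _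
    rw [h1]
  choose g hgS hg using hr
  have hginv : ∀ z, (g z)⁻¹ • z = r z := by
    intro z
    nth_rewrite 2 [hg z]
    rw [inv_smul_smul]
  let F : α → α := fun x => g (f x) • Fz (r (f x)) ((g (f x))⁻¹ • x)
  -- the point moved to the fibre over the representative
  have hmem : ∀ x ∈ X, (g (f x))⁻¹ • x ∈ {x' | x' ∈ X ∧ f x' = r (f x)} := by
    intro x hx
    refine ⟨hSX _ (S.inv_mem (hgS _)) x hx, ?_⟩
    rw [hf _ (S.inv_mem (hgS _)), hginv]
  have hmemY : ∀ y ∈ Y, (g (f y))⁻¹ • y ∈ {x' | x' ∈ Y ∧ f x' = r (f y)} := by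
    intro x hx
    refine ⟨hSY _ (S.inv_mem (hgS _)) x hx, ?_⟩
    rw [hf _ (S.inv_mem (hgS _)), hginv]
  have hfF : ∀ x ∈ X, f (F x) = f x := by
    intro x hx
    have h1 := (hbij (r (f x))).mapsTo (hmem x hx)
    change f (g (f x) • Fz (r (f x)) ((g (f x))⁻¹ • x)) = f x
    rw [hf _ (hgS _), h1.2]
    exact (hg (f x)).symm
  have hFY : ∀ x ∈ X, F x ∈ Y := by
    intro x hx
    have h1 := (hbij (r (f x))).mapsTo (hmem x hx)
    exact hSY _ (hgS _) _ h1.1
  have hequi : ∀ s ∈ S, ∀ x ∈ X, F (s • x) = s • F x := by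
    intro s hs x hx
    have e1 : f (s • x) = s • f x := hf s hs x
    have e2 : r (f (s • x)) = r (f x) := by rw [e1, hr2 s hs]
    -- the difference element
    set u : A := (g (f (s • x)))⁻¹ * (s * g (f x)) with hu
    have huS : u ∈ S := S.mul_mem (S.inv_mem (hgS _)) (S.mul_mem hs (hgS _))
    have hur : u • r (f x) = r (f x) := by
      have e3 : (s * g (f x)) • r (f x) = f (s • x) := by
        rw [mul_smul, ← hg (f x), e1]
      rw [hu, mul_smul, e3, hginv, e2]
    have e4 : (g (f (s • x)))⁻¹ • (s • x) = u • ((g (f x))⁻¹ • x) := by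
      rw [hu]
      simp only [← mul_smul]
      congr 1
      group
    have h1 := heq (r (f x)) u huS hur _ (hmem x hx).1 (hmem x hx).2
    change g (f (s • x)) • Fz (r (f (s • x))) ((g (f (s • x)))⁻¹ • (s • x)) =
      s • (g (f x) • Fz (r (f x)) ((g (f x))⁻¹ • x))
    rw [e2, e4, h1, hu]
    simp only [← mul_smul]
    congr 1
    group
  refine ⟨F, ⟨hFY, ?_, ?_⟩, hequi, hfF⟩
  · intro x hx x' hx' hxx
    have e1 : f x = f x' := by rw [← hfF x hx, ← hfF x' hx', hxx]
    change g (f x) • Fz (r (f x)) ((g (f x))⁻¹ • x) =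
      g (f x') • Fz (r (f x')) ((g (f x'))⁻¹ • x') at hxx
    have m1 := hmem x hx
    have m2 := hmem x' hx'
    rw [← e1] at hxx m2
    have e2 := smul_left_cancel _ hxx
    have e3 := (hbij (r (f x))).injOn m1 m2 e2
    exact smul_left_cancel _ e3
  · intro y hy
    obtain ⟨x, hx, hxy⟩ := (hbij (r (f y))).surjOn (hmemY y hy)
    refine ⟨g (f y) • x, hSX _ (hgS _) x hx.1, ?_⟩
    have e1 : f (g (f y) • x) = f y := by
      rw [hf _ (hgS _), hx.2]
      exact (hg (f y)).symm
    change g (f (g (f y) • x)) • Fz (r (f (g (f y) • x))) ((g (f (g (f y) • x)))⁻¹ •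
      (g (f y) • x)) = y
    rw [e1, inv_smul_smul, hxy, smul_inv_smul]

end Pool.Agent.Helper97.S4
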