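import Mathlib

/-!
# Project IR, section 4 (S4-22, S4-23): equivariant bijections

`A` acts on `α`; `S` is a subgroup; `X`, `Y` are finite `S`-stable subsets of `α`.
-/

open scoped Pointwise

namespace Pool.Agent.Helper97.S4

variable {A α : Type} [Group A] [MulAction A α]

open Classical in
private theorem iso_free_aux (S : Subgroup A) (n : ℕ) : ∀ (X Y : Set α), X.Finite → Y.Finite →
    X.ncard = n → Y.ncard = n →
    (∀ s ∈ S, ∀ x ∈ X, s • x ∈ X) → (∀ s ∈ S, ∀ y ∈ Y, s • y ∈ Y) →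
    (∀ s ∈ S, ((∀ x ∈ X, s • x = x) ∧ (∀ y ∈ Y, s • y = y)) ∨
      ((∀ x ∈ X, s • x ≠ x) ∧ (∀ y ∈ Y, s • y ≠ y))) →
    ∃ F : α → α, Set.BijOn F X Y ∧ ∀ s ∈ S, ∀ x ∈ X, F (s • x) = s • F x := by
  induction n using Nat.strong_induction_on with
  | _ n ih =>
    intro X Y hX hY hcX hcY hSX hSY hd
    rcases Nat.eq_zero_or_pos n with hn | hn
    · have hX0 : X = ∅ := (Set.ncard_eq_zero hX).mp (by omega)
      have hY0 : Y = ∅ := (Set.ncard_eq_zero hY).mp (by omega)
      subst hX0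
      subst hY0
      exact ⟨id, Set.bijOn_empty _, fun s _ x hx => absurd hx (Set.notMem_empty x)⟩
    · obtain ⟨x₀, hx₀⟩ : X.Nonempty := by
        rw [← Set.ncard_pos hX]
        omega
      obtain ⟨y₀, hy₀⟩ : Y.Nonempty := by
        rw [← Set.ncard_pos hY]
        omega
      have hkey : ∀ s ∈ S, ∀ t ∈ S, (s • x₀ = t • x₀ ↔ s • y₀ = t • y₀) := by
        intro s hs t ht
        have h1 : ∀ z : α, s • z = t • z ↔ (t⁻¹ * s) • z = z := by
          intro z
          rw [mul_smul, inv_smul_eq_iff]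
        rw [h1, h1]
        rcases hd (t⁻¹ * s) (S.mul_mem (S.inv_mem ht) hs) with h | h
        · exact ⟨fun _ => h.2 y₀ hy₀, fun _ => h.1 x₀ hx₀⟩
        · exact ⟨fun h2 => absurd h2 (h.1 x₀ hx₀), fun h2 => absurd h2 (h.2 y₀ hy₀)⟩
      let O1 : Set α := {x | ∃ s ∈ S, s • x₀ = x}
      let O2 : Set α := {y | ∃ s ∈ S, s • y₀ = y}
      have hO1 : O1 ⊆ X := by
        rintro x ⟨s, hs, rfl⟩
        exact hSX s hs x₀ hx₀
      have hO2 : O2 ⊆ Y := by
        rintro y ⟨s, hs, rfl⟩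
        exact hSY s hs y₀ hy₀
      let f : α → α := fun x => if h : ∃ s ∈ S, s • x₀ = x then h.choose • y₀ else x
      have hf : ∀ s ∈ S, f (s • x₀) = s • y₀ := by
        intro s hs
        have h : ∃ t ∈ S, t • x₀ = s • x₀ := ⟨s, hs, rfl⟩
        have h1 : f (s • x₀) = h.choose • y₀ := dif_pos h
        rw [h1]
        exact (hkey _ h.choose_spec.1 s hs).mp h.choose_spec.2
      have hbij : Set.BijOn f O1 O2 := by
        refine ⟨?_, ?_, ?_⟩
        · rintro x ⟨s, hs, rfl⟩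
          rw [hf s hs]
          exact ⟨s, hs, rfl⟩
        · rintro x ⟨s, hs, rfl⟩ x' ⟨t, ht, rfl⟩ hxx
          rw [hf s hs, hf t ht] at hxx
          exact (hkey s hs t ht).mpr hxx
        · rintro y ⟨s, hs, rfl⟩
          exact ⟨s • x₀, ⟨s, hs, rfl⟩, hf s hs⟩
      have hO1f : O1.Finite := hX.subset hO1
      have hO2f : O2.Finite := hY.subset hO2
      have hOc : O1.ncard = O2.ncard := by
        rw [← hbij.image_eq, hbij.injOn.ncard_image]
      have hO1pos : 0 < O1.ncard := by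
        rw [Set.ncard_pos hO1f]
        exact ⟨x₀, 1, S.one_mem, one_smul A x₀⟩
      have hcX' : (X \ O1).ncard = n - O1.ncard := by
        rw [Set.ncard_sdiff hO1 hO1f, hcX]
      have hcY' : (Y \ O2).ncard = n - O1.ncard := by
        rw [Set.ncard_sdiff hO2 hO2f, hcY, hOc]
      obtain ⟨F, hF, hFe⟩ := ih (n - O1.ncard) (by omega) (X \ O1) (Y \ O2) hX.sdiff
        hY.sdiff hcX' hcY'
        (by
          rintro s hs x ⟨hx, hx1⟩
          refine ⟨hSX s hs x hx, ?_⟩
          rintro ⟨t, ht, h⟩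
          apply hx1
          refine ⟨s⁻¹ * t, S.mul_mem (S.inv_mem hs) ht, ?_⟩
          rw [mul_smul, h, inv_smul_smul])
        (by
          rintro s hs x ⟨hx, hx1⟩
          refine ⟨hSY s hs x hx, ?_⟩
          rintro ⟨t, ht, h⟩
          apply hx1
          refine ⟨s⁻¹ * t, S.mul_mem (S.inv_mem hs) ht, ?_⟩
          rw [mul_smul, h, inv_smul_smul])
        (by
          intro s hs
          rcases hd s hs with h | h
          · exact Or.inl ⟨fun x hx => h.1 x hx.1, fun y hy => h.2 y hy.1⟩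
          · exact Or.inr ⟨fun x hx => h.1 x hx.1, fun y hy => h.2 y hy.1⟩)
      have hG1 : ∀ x ∈ O1, (if x ∈ O1 then f x else F x) = f x := fun x hx => if_pos hx
      have hG2 : ∀ x ∉ O1, (if x ∈ O1 then f x else F x) = F x := fun x hx => if_neg hx
      refine ⟨fun x => if x ∈ O1 then f x else F x, ⟨?_, ?_, ?_⟩, ?_⟩
      · intro x hx
        beta_reduce
        by_cases hxO : x ∈ O1
        · rw [hG1 x hxO]
          exact hO2 (hbij.mapsTo hxO)
        · rw [hG2 x hxO]
          exact (hF.mapsTo ⟨hx, hxO⟩).1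
      · intro x hx x' hx' hxx
        beta_reduce at hxx
        by_cases hxO : x ∈ O1
        · rw [hG1 x hxO] at hxx
          by_cases hxO' : x' ∈ O1
          · rw [hG1 x' hxO'] at hxx
            exact hbij.injOn hxO hxO' hxx
          · rw [hG2 x' hxO'] at hxx
            exact absurd (hxx ▸ hbij.mapsTo hxO) (hF.mapsTo ⟨hx', hxO'⟩).2
        · rw [hG2 x hxO] at hxx
          by_cases hxO' : x' ∈ O1
          · rw [hG1 x' hxO'] at hxx
            exact absurd (hxx ▸ hbij.mapsTo hxO') (hF.mapsTo ⟨hx, hxO⟩).2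
          · rw [hG2 x' hxO'] at hxx
            exact hF.injOn ⟨hx, hxO⟩ ⟨hx', hxO'⟩ hxx
      · intro y hy
        by_cases hyO : y ∈ O2
        · obtain ⟨x, hx, hxy⟩ := hbij.surjOn hyO
          exact ⟨x, hO1 hx, by beta_reduce; rw [hG1 x hx]; exact hxy⟩
        · obtain ⟨x, hx, hxy⟩ := hF.surjOn ⟨hy, hyO⟩
          exact ⟨x, hx.1, by beta_reduce; rw [hG2 x hx.2]; exact hxy⟩
      · intro s hs x hx
        beta_reduce
        by_cases hxO : x ∈ O1
        · obtain ⟨t, ht, rfl⟩ := hxO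
          have h1 : t • x₀ ∈ O1 := ⟨t, ht, rfl⟩
          have h2 : s • t • x₀ ∈ O1 := ⟨s * t, S.mul_mem hs ht, mul_smul _ _ _⟩
          rw [hG1 _ h1, hG1 _ h2, hf t ht, ← mul_smul, hf _ (S.mul_mem hs ht), mul_smul]
        · have h2 : s • x ∉ O1 := by
            rintro ⟨t, ht, h⟩
            apply hxO
            refine ⟨s⁻¹ * t, S.mul_mem (S.inv_mem hs) ht, ?_⟩
            rw [mul_smul, h, inv_smul_smul]
          rw [hG2 _ hxO, hG2 _ h2]
          exact hFe s hs x ⟨hx, hxO⟩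

private theorem fix_ncard (X : Set α) (s : A) :
    Nat.card {x : α // x ∈ X ∧ s • x = x} = {x : α | x ∈ X ∧ s • x = x}.ncard := rfl

private theorem fix_all {X : Set α} (hX : X.Finite) (s : A) :
    {x : α | x ∈ X ∧ s • x = x}.ncard = X.ncard ↔ ∀ x ∈ X, s • x = x := by
  have hsub : {x : α | x ∈ X ∧ s • x = x} ⊆ X := fun x hx => hx.1
  constructor
  · intro h x hx
    have h1 := Set.eq_of_subset_of_ncard_le hsub h.ge hX
    rw [← h1] at hx
    exact hx.2
  · intro h
    congr 1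
    ext x
    exact ⟨fun hx => hx.1, fun hx => ⟨hx, h x hx⟩⟩

private theorem fix_none {X : Set α} (hX : X.Finite) (s : A) :
    {x : α | x ∈ X ∧ s • x = x}.ncard = 0 ↔ ∀ x ∈ X, s • x ≠ x := by
  rw [Set.ncard_eq_zero (hX.subset fun x hx => hx.1)]
  constructor
  · intro h x hx hsx
    have h1 : x ∈ {x : α | x ∈ X ∧ s • x = x} := ⟨hx, hsx⟩
    rw [h] at h1
    exact Set.notMem_empty x h1
  · intro h
    ext x
    constructor
    · intro hx
      exact absurd hx.2 (h x hx.1)
    · intro hx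
      exact absurd hx (Set.notMem_empty x)

private theorem fix_one (X : Set α) : {x : α | x ∈ X ∧ (1 : A) • x = x} = X := by
  ext x
  exact ⟨fun hx => hx.1, fun hx => ⟨hx, one_smul A x⟩⟩

/-- If every `s ∈ S` acts on `Y` trivially or without fixed points and each `s ∈ S` has the same number
of fixed points in `X` and in `Y`, then there is an `S`-equivariant bijection from `X` to `Y`.
Proof: `s = 1` gives `|X| = |Y|`. Each `s` acts on `X` trivially or without fixed points (the number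
of its fixed points is `0` or `|Y|`; if `Y` is empty so is `X`). So all stabilizers in `S` of points of
`X` and of `Y` are equal to `S₀ = {s | s acts trivially on Y}`, all orbits of `S` on `X` and `Y` have
size `|S : S₀|`, and the numbers of orbits agree. Choose representatives of the orbits and a
bijection between the representatives of `X` and `Y`, and map `s • x₀` to `s • y₀`. -/
theorem iso_free (S : Subgroup A) (X Y : Set α) (hX : X.Finite) (hY : Y.Finite)
    (hSX : ∀ s ∈ S, ∀ x ∈ X, s • x ∈ X) (hSY : ∀ s ∈ S, ∀ y ∈ Y, s • y ∈ Y)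
    (hfix : ∀ s ∈ S, Nat.card {x : α // x ∈ X ∧ s • x = x} =
      Nat.card {y : α // y ∈ Y ∧ s • y = y})
    (hd : ∀ s ∈ S, (∀ y ∈ Y, s • y = y) ∨ (∀ y ∈ Y, s • y ≠ y)) :
    ∃ F : α → α, Set.BijOn F X Y ∧ ∀ s ∈ S, ∀ x ∈ X, F (s • x) = s • F x := by
  have hc : X.ncard = Y.ncard := by
    have h := hfix 1 S.one_mem
    rw [fix_ncard, fix_ncard, fix_one, fix_one] at h
    exact h
  refine iso_free_aux S Y.ncard X Y hX hY hc rfl hSX hSY ?_
  intro s hs
  have h := hfix s hs
  rw [fix_ncard, fix_ncard] at h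
  rcases hd s hs with h1 | h1
  · left
    refine ⟨?_, h1⟩
    rw [← fix_all hX s, h, hc]
    exact (fix_all hY s).mpr h1
  · right
    refine ⟨?_, h1⟩
    rw [← fix_none hX s, h]
    exact (fix_none hY s).mpr h1

/-- The same with one exceptional point `y₀` of `Y` fixed by `S`, if the action of `S` on `Y` is
commutative and every `s ∈ S` acts on `Y \ {y₀}` trivially or without fixed points.
Proof: if every `s ∈ S` acts trivially on `Y` then also on `X` (equal numbers of fixed points), and any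
bijection works. Otherwise let `s₁` act nontrivially on `Y`: its only fixed point in `Y` is `y₀`, so it has
exactly one fixed point `x₀` in `X`. For `w ∈ S` the commutator `(w s₁)⁻¹ (s₁ w)` acts trivially on `Y`,
so it has `|Y| = |X|` fixed points in `X` and acts trivially on `X`; hence `w • x₀` is fixed by `s₁`,
`w • x₀ = x₀`. Apply `iso_free` to `X \ {x₀}` and `Y \ {y₀}` (an element fixing only `y₀` in `Y` fixes
exactly one point of `X`, which is `x₀`), and map `x₀` to `y₀`. -/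
theorem iso_free_one (S : Subgroup A) (X Y : Set α) (hX : X.Finite) (hY : Y.Finite)
    (hSX : ∀ s ∈ S, ∀ x ∈ X, s • x ∈ X) (hSY : ∀ s ∈ S, ∀ y ∈ Y, s • y ∈ Y)
    (hfix : ∀ s ∈ S, Nat.card {x : α // x ∈ X ∧ s • x = x} =
      Nat.card {y : α // y ∈ Y ∧ s • y = y})
    {y₀ : α} (hy₀ : y₀ ∈ Y) (hfy₀ : ∀ s ∈ S, s • y₀ = y₀)
    (hcomm : ∀ s ∈ S, ∀ t ∈ S, ∀ y ∈ Y, s • t • y = t • s • y)
    (hd : ∀ s ∈ S, (∀ y ∈ Y, s • y = y) ∨ (∀ y ∈ Y, y ≠ y₀ → s • y ≠ y)) :
    ∃ F : α → α, Set.BijOn F X Y ∧ ∀ s ∈ S, ∀ x ∈ X, F (s • x) = s • F x := by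
  classical
  by_cases htriv : ∀ s ∈ S, ∀ y ∈ Y, s • y = y
  · exact iso_free S X Y hX hY hSX hSY hfix fun s hs => Or.inl (htriv s hs)
  · push Not at htriv
    obtain ⟨s₁, hs₁, y₁, hy₁, hne⟩ := htriv
    have hc : X.ncard = Y.ncard := by
      have h := hfix 1 S.one_mem
      rw [fix_ncard, fix_ncard, fix_one, fix_one] at h
      exact h
    have hfree : ∀ y ∈ Y, y ≠ y₀ → s₁ • y ≠ y := by
      rcases hd s₁ hs₁ with h | h
      · exact absurd (h y₁ hy₁) hne
      · exact h
    have hfY : {y : α | y ∈ Y ∧ s₁ • y = y} = {y₀} := by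
      ext y
      constructor
      · rintro ⟨h1, h2⟩
        by_contra h3
        exact hfree y h1 h3 h2
      · intro h
        rw [Set.mem_singleton_iff] at h
        subst h
        exact ⟨hy₀, hfy₀ s₁ hs₁⟩
    have hfX : {x : α | x ∈ X ∧ s₁ • x = x}.ncard = 1 := by
      have h := hfix s₁ hs₁
      rw [fix_ncard, fix_ncard, hfY, Set.ncard_singleton] at h
      exact h
    obtain ⟨x₀, hx₀⟩ := Set.ncard_eq_one.mp hfX
    have hx₀m : x₀ ∈ {x : α | x ∈ X ∧ s₁ • x = x} := by
      rw [hx₀]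
      exact Set.mem_singleton _
    have hx₀f : ∀ w ∈ S, w • x₀ = x₀ := by
      intro w hw
      have hcS : (w * s₁)⁻¹ * (s₁ * w) ∈ S :=
        S.mul_mem (S.inv_mem (S.mul_mem hw hs₁)) (S.mul_mem hs₁ hw)
      have hcY : ∀ y ∈ Y, ((w * s₁)⁻¹ * (s₁ * w)) • y = y := by
        intro y hy
        rw [mul_smul, inv_smul_eq_iff, mul_smul, mul_smul]
        exact hcomm s₁ hs₁ w hw y hy
      have hcX : ∀ x ∈ X, ((w * s₁)⁻¹ * (s₁ * w)) • x = x := by
        rw [← fix_all hX]
        have h := hfix _ hcS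
        rw [fix_ncard, fix_ncard] at h
        rw [h, hc]
        exact (fix_all hY _).mpr hcY
      have h1 := hcX x₀ hx₀m.1
      rw [mul_smul, inv_smul_eq_iff, mul_smul, mul_smul, hx₀m.2] at h1
      have h2 : w • x₀ ∈ {x : α | x ∈ X ∧ s₁ • x = x} := ⟨hSX w hw x₀ hx₀m.1, h1⟩
      rw [hx₀] at h2
      exact h2
    have hfixX : ∀ s ∈ S, {x : α | x ∈ X \ {x₀} ∧ s • x = x} =
        {x : α | x ∈ X ∧ s • x = x} \ {x₀} := by
      intro s _
      ext x
      constructor
      · rintro ⟨⟨h1, h2⟩, h3⟩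
        exact ⟨⟨h1, h3⟩, h2⟩
      · rintro ⟨⟨h1, h3⟩, h2⟩
        exact ⟨⟨h1, h2⟩, h3⟩
    have hfixY : ∀ s ∈ S, {y : α | y ∈ Y \ {y₀} ∧ s • y = y} =
        {y : α | y ∈ Y ∧ s • y = y} \ {y₀} := by
      intro s _
      ext x
      constructor
      · rintro ⟨⟨h1, h2⟩, h3⟩
        exact ⟨⟨h1, h3⟩, h2⟩
      · rintro ⟨⟨h1, h3⟩, h2⟩
        exact ⟨⟨h1, h2⟩, h3⟩
    obtain ⟨F, hF, hFe⟩ := iso_free S (X \ {x₀}) (Y \ {y₀}) hX.sdiff hY.sdiff
      (by
        rintro s hs x ⟨hx, hx1⟩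
        refine ⟨hSX s hs x hx, ?_⟩
        intro h
        rw [Set.mem_singleton_iff] at h
        apply hx1
        rw [Set.mem_singleton_iff]
        rw [← hx₀f s⁻¹ (S.inv_mem hs), ← h, inv_smul_smul])
      (by
        rintro s hs x ⟨hx, hx1⟩
        refine ⟨hSY s hs x hx, ?_⟩
        intro h
        rw [Set.mem_singleton_iff] at h
        apply hx1
        rw [Set.mem_singleton_iff]
        rw [← hfy₀ s⁻¹ (S.inv_mem hs), ← h, inv_smul_smul])
      (by
        intro s hs
        have h := hfix s hs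
        rw [fix_ncard, fix_ncard] at h
        rw [fix_ncard, fix_ncard, hfixX s hs, hfixY s hs,
          Set.ncard_sdiff_singleton_of_mem, Set.ncard_sdiff_singleton_of_mem, h]
        · exact ⟨hy₀, hfy₀ s hs⟩
        · exact ⟨hx₀m.1, hx₀f s hs⟩)
      (by
        intro s hs
        rcases hd s hs with h | h
        · exact Or.inl fun y hy => h y hy.1
        · exact Or.inr fun y hy => h y hy.1 hy.2)
    have hG1 : (if x₀ = x₀ then y₀ else F x₀) = y₀ := if_pos rfl
    have hG2 : ∀ x, x ≠ x₀ → (if x = x₀ then y₀ else F x) = F x := fun x hx => if_neg hx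
    refine ⟨fun x => if x = x₀ then y₀ else F x, ⟨?_, ?_, ?_⟩, ?_⟩
    · intro x hx
      beta_reduce
      by_cases hxO : x = x₀
      · rw [if_pos hxO]
        exact hy₀
      · rw [hG2 x hxO]
        exact (hF.mapsTo ⟨hx, hxO⟩).1
    · intro x hx x' hx' hxx
      beta_reduce at hxx
      by_cases hxO : x = x₀
      · rw [if_pos hxO] at hxx
        by_cases hxO' : x' = x₀
        · rw [hxO, hxO']
        · rw [hG2 x' hxO'] at hxx
          exact absurd hxx.symm (hF.mapsTo ⟨hx', hxO'⟩).2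
      · rw [hG2 x hxO] at hxx
        by_cases hxO' : x' = x₀
        · rw [if_pos hxO'] at hxx
          exact absurd hxx (hF.mapsTo ⟨hx, hxO⟩).2
        · rw [hG2 x' hxO'] at hxx
          exact hF.injOn ⟨hx, hxO⟩ ⟨hx', hxO'⟩ hxx
    · intro y hy
      by_cases hyO : y = y₀
      · subst hyO
        exact ⟨x₀, hx₀m.1, if_pos rfl⟩
      · obtain ⟨x, hx, hxy⟩ := hF.surjOn ⟨hy, hyO⟩
        exact ⟨x, hx.1, by beta_reduce; rw [hG2 x hx.2]; exact hxy⟩
    · intro s hs x hx
      beta_reduce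
      by_cases hxO : x = x₀
      · subst hxO
        rw [hx₀f s hs, if_pos rfl, hfy₀ s hs]
      · have h2 : s • x ≠ x₀ := by
          intro h
          apply hxO
          rw [← hx₀f s⁻¹ (S.inv_mem hs), ← h, inv_smul_smul]
        rw [hG2 _ hxO, hG2 _ h2]
        exact hFe s hs x ⟨hx, hxO⟩

end Pool.Agent.Helper97.S4
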