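import Pool.Agent.Helper97.S4.Match

/-!
# Project IR, section 4 (S4-16): elements of `p`-power order act trivially
-/

namespace Pool.Agent.Helper97.S4

open Pool.Agent.Helper42.INC Pool.Agent.Helper42.IR

variable {G : Type} [Group G] [Finite G] {p : ℕ} [Fact p.Prime] {K Q H : Subgroup G}

/-- Elementary: `f` a bijection of a finite set `X` with at most `p` elements, `x ∈ X` with
`f^[p ^ t] x = x`. Then `f x = x`, or `X` is the set of the `f^[i] x` and has exactly `p` elements
(the minimal period of `x` divides `p ^ t` and is at most `|X| ≤ p`, so it is `1` or `p`). -/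
theorem orbit_p {α : Type} (f : α → α) (X : Set α) (hX : X.Finite) (hm : ∀ x ∈ X, f x ∈ X)
    (hc : Nat.card X ≤ p) {t : ℕ} {x : α} (hx : x ∈ X) (h : f^[p ^ t] x = x) :
    f x = x ∨ (Nat.card X = p ∧ ∀ y ∈ X, ∃ i : ℕ, y = f^[i] x) := by
  classical
  have hp : p.Prime := Fact.out
  have hper : Function.IsPeriodicPt f (p ^ t) x := h
  have hdvd := hper.minimalPeriod_dvd
  obtain ⟨j, _, hj⟩ := (Nat.dvd_prime_pow hp).1 hdvd
  have hiter : ∀ i : ℕ, f^[i] x ∈ X := by
    intro i
    induction i with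
    | zero => exact hx
    | succ i ih =>
      rw [Function.iterate_succ_apply']
      exact hm _ ih
  set S : Finset α := (Finset.range (Function.minimalPeriod f x)).image (fun i => f^[i] x) with hS
  have hScard : S.card = Function.minimalPeriod f x := by
    rw [hS, Finset.card_image_of_injOn, Finset.card_range]
    intro i hi k hk hik
    exact Function.iterate_injOn_Iio_minimalPeriod (by simpa using hi) (by simpa using hk) hik
  have hSX : S ⊆ hX.toFinset := by
    intro y hy
    rw [hS, Finset.mem_image] at hy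
    obtain ⟨i, _, rfl⟩ := hy
    exact hX.mem_toFinset.2 (hiter i)
  have hXc : hX.toFinset.card = Nat.card X := (Nat.card_eq_card_finite_toFinset hX).symm
  have hle : Function.minimalPeriod f x ≤ p := by
    rw [← hScard]
    exact (Finset.card_le_card hSX).trans (hXc.le.trans hc)
  rw [hj] at hle
  have hj1 : j ≤ 1 := by
    by_contra hcon
    have h2 : p ^ 2 ≤ p ^ j := Nat.pow_le_pow_right hp.pos (by omega)
    have h3 : p < p ^ 2 := by nlinarith [hp.two_le]
    omega
  rcases Nat.le_one_iff_eq_zero_or_eq_one.1 hj1 with h0 | h1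
  · left
    rw [h0, pow_zero] at hj
    exact Function.minimalPeriod_eq_one_iff_isFixedPt.1 hj
  · right
    rw [h1, pow_one] at hj
    have hcX : Nat.card X = p := by
      refine le_antisymm hc ?_
      rw [← hj, ← hScard, ← hXc]
      exact Finset.card_le_card hSX
    refine ⟨hcX, fun y hy => ?_⟩
    have heq : S = hX.toFinset := Finset.eq_of_subset_of_card_le hSX (by
      rw [hXc, hcX, hScard, hj])
    have hyS : y ∈ S := by
      rw [heq]
      exact hX.mem_toFinset.2 hy
    rw [hS, Finset.mem_image] at hyS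
    obtain ⟨i, _, hi⟩ := hyS
    exact ⟨i, hi.symm⟩

omit [Finite G] in
private lemma cnj_iterate (a : G) (i : ℕ) (χ : G → ℂ) : (cnj a)^[i] χ = cnj (a ^ i) χ := by
  induction i with
  | zero => simp
  | succ i ih =>
    rw [Function.iterate_succ_apply', ih, cnj_cnj, pow_succ']

/-- Let `χ ∈ FF p K Q H φ` be fixed by `a ^ (p ^ t)`, where `a` normalizes `K`, `Q` and moves `φ` inside
its orbit. Then `a` fixes `χ`. Proof: `FF` is stable (`BB_stable`), finite, of size `ee < p` in the
nontransitive case and `ee + 1 ≤ p` in the transitive case (`card_FF_Tr`, `card_FF_not_Tr`,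
`Loc.ee_lt`). By `orbit_p` for `f = cnj a`, either `cnj a χ = χ` or `FF` has `p` elements (so we are in
the transitive case, and `FF = BB` by `BB_eq_FF`) and all its elements are the `cnj (a ^ i) χ`. In
the second case let `lam` be nontrivial; every `θ ∈ FF` has `θ 1 = χ 1` and, with `ε` the sign of `χ`,
`aa Q H θ lam φ = aa Q H χ (cnj (a ^ i)⁻¹ lam) (cnj (a ^ i)⁻¹ φ)` (`aa_cnj`) which is `ε`, because it
is `0` or `ε` and not `0` by full support of `θ`. The other `θ ∈ IrrS K` have `aa Q H θ lam φ = 0`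
(`Pkg.def0`, or not in `BB`). So the sum in `Pkg.regular` is `p * ε * χ 1 ≠ 0`, a contradiction. -/
theorem fix_pow (hL : Loc p K Q H) (hPK : Pkg p K Q H) {φ : G → ℂ} (hφ : φ ∈ IrrS H) {a m : G}
    (haK : a ∈ Subgroup.normalizer (K : Set G)) (haQ : a ∈ Subgroup.normalizer (Q : Set G))
    (hm : m ∈ NN K Q) (hφa : cnj a φ = cnj m φ) {t : ℕ} {χ : G → ℂ}
    (hχ : χ ∈ FF p K Q H φ) (h : cnj (a ^ (p ^ t)) χ = χ) : cnj a χ = χ := by
  classical
  have hp : p.Prime := Fact.out
  have hst := BB_stable hL hPK haK haQ hm hφa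
  have hfin : (FF p K Q H φ).Finite :=
    (irrS_finite K).subset (fun θ hθ => hθ.1.1)
  have hee := Loc.ee_lt hL φ
  have hcard : Nat.card (FF p K Q H φ) ≤ p := by
    by_cases hT : Tr K Q φ
    · rw [card_FF_Tr hL hPK hφ hT]
      omega
    · rw [card_FF_not_Tr hL hPK hφ hT]
      omega
  have hh : (cnj a)^[p ^ t] χ = χ := by rw [cnj_iterate, h]
  rcases orbit_p (cnj a) (FF p K Q H φ) hfin hst.2.1 hcard hχ hh with h1 | ⟨h1, h2⟩
  · exact h1
  · exfalso
    by_cases hT : Tr K Q φ
    · have hBF := BB_eq_FF hL hPK hφ hT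
      obtain ⟨lam, hl, hl1⟩ := exists_ne_oneS hL
      have hreg := hPK.regular φ hφ lam hl
      obtain ⟨ε, hε, hsg⟩ := (nice_K hL hPK hχ.1).sgn
      have haH : a ∈ Subgroup.normalizer (H : Set G) := Loc.norm_H hL haK haQ
      have hterm : ∀ θ : IrrS K, aa Q H θ.1 lam φ * θ.1 1 =
          if θ.1 ∈ FF p K Q H φ then ε * χ 1 else 0 := by
        intro θ
        by_cases hθ : θ.1 ∈ FF p K Q H φ
        · rw [if_pos hθ]
          obtain ⟨i, hi⟩ := h2 θ.1 hθ
          rw [cnj_iterate] at hi
          have h3 : θ.1 1 = χ 1 := by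
            rw [hi, cnj_apply]
            simp
          have hne : aa Q H θ.1 lam φ ≠ 0 := hθ.2 lam hl hl1
          have hiQ : a ^ i ∈ Subgroup.normalizer (Q : Set G) := Subgroup.pow_mem _ haQ i
          have hiH : a ^ i ∈ Subgroup.normalizer (H : Set G) := Subgroup.pow_mem _ haH i
          have h4 : aa Q H θ.1 lam φ =
              aa Q H χ (cnj (a ^ i)⁻¹ lam) (cnj (a ^ i)⁻¹ φ) := by
            have h5 := aa_cnj hiQ hiH χ (cnj (a ^ i)⁻¹ lam) (cnj (a ^ i)⁻¹ φ)
            rw [cnj_cnj, cnj_cnj, mul_inv_cancel, cnj_one, cnj_one, ← hi] at h5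
            exact h5
          have h6 : cnj (a ^ i)⁻¹ φ ∈ IrrS H :=
            cnj_mem_irrS (Subgroup.inv_mem _ hiH) hφ
          have h7 : cnj (a ^ i)⁻¹ lam ∈ IrrS Q :=
            cnj_mem_irrS (Subgroup.inv_mem _ hiQ) hl
          rcases hsg _ h6 _ h7 with h8 | h8
          · exact absurd (h4.trans h8) hne
          · rw [h4, h8, h3]
        · rw [if_neg hθ]
          have h3 : aa Q H θ.1 lam φ = 0 := by
            by_contra hne
            have hbl : Bl Q H θ.1 φ := ⟨lam, hl, hne⟩
            by_cases hd : p ∣ deg θ.1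
            · exact hPK.def0 θ.1 θ.2 hd φ hφ hbl
            · apply hθ
              rw [← hBF]
              exact ⟨⟨θ.2, hd⟩, hbl⟩
          rw [h3, zero_mul]
      rw [finsum_congr hterm] at hreg
      have := (irrS_finite K).fintype
      rw [finsum_eq_sum_of_fintype, Finset.sum_ite, Finset.sum_const_zero, add_zero,
        Finset.sum_const, nsmul_eq_mul] at hreg
      have hcount : (Finset.univ.filter (fun θ : IrrS K => θ.1 ∈ FF p K Q H φ)).card = p := by
        refine Eq.trans ?_ h1
        rw [← Fintype.card_subtype, ← Nat.card_eq_fintype_card]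
        exact Nat.card_congr ⟨fun θ => ⟨θ.1.1, θ.2⟩, fun θ => ⟨⟨θ.1, θ.2.1.1⟩, θ.2⟩,
          fun _ => rfl, fun _ => rfl⟩
      rw [hcount] at hreg
      have hχ1 := irrS_one_ne hχ.1.1
      have hp0 : (p : ℂ) ≠ 0 := by exact_mod_cast hp.ne_zero
      have hε0 : ε ≠ 0 := by
        rcases hε with rfl | rfl <;> norm_num
      exact (mul_ne_zero hp0 (mul_ne_zero hε0 hχ1)) hreg
    · rw [card_FF_not_Tr hL hPK hφ hT] at h1
      omega

end Pool.Agent.Helper97.S4
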