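import Pool.Agent.Helper97.S4.Defs

/-!
# Project IR, section 4 (S4-01): the conjugation action

Elementary facts. `cnj a f x = f (a⁻¹ x a)`. `IrrS K` consists of the functions on `G` vanishing off
`K` whose restriction to `K` is an irreducible character (`Irr K`). Useful: `irr_comp` (transport
along an isomorphism, here conjugation by `a ∈ normalizer K` as an automorphism of `K`),
`Irr.isClass`, `deg` only depends on the value at `1`.
-/

namespace Pool.Agent.Helper97.S4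

open Pool.Agent.Helper42.INC Pool.Agent.Helper42.IR

variable {G : Type} [Group G]

/-- conjugation as an automorphism of a subgroup -/
private def s4act_e {Q : Subgroup G} {t : G} (hQ : t ∈ Subgroup.normalizer (Q : Set G)) : Q ≃* Q where
  toFun x := ⟨t⁻¹ * x * t, (Subgroup.mem_normalizer_iff''.1 hQ x).1 x.2⟩
  invFun x := ⟨t * x * t⁻¹, (Subgroup.mem_normalizer_iff.1 hQ x).1 x.2⟩
  left_inv := by
    intro x
    apply Subtype.ext
    change t * (t⁻¹ * x * t) * t⁻¹ = x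
    group
  right_inv := by
    intro x
    apply Subtype.ext
    change t⁻¹ * (t * x * t⁻¹) * t = x
    group
  map_mul' := by
    intro x y
    apply Subtype.ext
    change t⁻¹ * (x * y) * t = (t⁻¹ * x * t) * (t⁻¹ * y * t)
    group

/-- Proof: `x ↦ a⁻¹ x a` is an automorphism of `K`, use `irr_comp`; off `K` both vanish. -/
theorem cnj_mem_irrS {K : Subgroup G} {a : G} (ha : a ∈ Subgroup.normalizer (K : Set G))
    {χ : G → ℂ} (h : χ ∈ IrrS K) : cnj a χ ∈ IrrS K := by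
  refine ⟨irr_comp (s4act_e ha) h.1, fun x hx => ?_⟩
  change χ (a⁻¹ * x * a) = 0
  exact h.2 _ (fun h1 => hx ((Subgroup.mem_normalizer_iff''.1 ha x).2 h1))

theorem deg_cnj (a : G) (χ : G → ℂ) : deg (cnj a χ) = deg χ := by
  unfold deg cnj
  rw [mul_one, inv_mul_cancel]

theorem cnj_mem_irrSP {p : ℕ} {K : Subgroup G} {a : G}
    (ha : a ∈ Subgroup.normalizer (K : Set G)) {χ : G → ℂ} (h : χ ∈ IrrSP p K) :
    cnj a χ ∈ IrrSP p K := by
  refine ⟨cnj_mem_irrS ha h.1, ?_⟩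
  rw [deg_cnj]
  exact h.2

/-- Irreducible characters are class functions. -/
theorem cnj_eq_self {K : Subgroup G} {k : G} (hk : k ∈ K) {χ : G → ℂ} (h : χ ∈ IrrS K) :
    cnj k χ = χ := by
  funext x
  change χ (k⁻¹ * x * k) = χ x
  by_cases hx : x ∈ K
  · obtain ⟨V, _, _, _, ρ, hρ, hχ⟩ := h.1
    have h1 := congrFun hχ (⟨k, hk⟩⁻¹ * ⟨x, hx⟩ * ⟨k, hk⟩)
    have h2 := congrFun hχ ⟨x, hx⟩
    have h3 := Representation.char_conj ρ (⟨x, hx⟩ : K) (⟨k, hk⟩ : K)⁻¹
    rw [inv_inv] at h3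
    rw [h3] at h1
    have h4 : χ ((⟨k, hk⟩⁻¹ * ⟨x, hx⟩ * ⟨k, hk⟩ : K) : G) = χ ((⟨x, hx⟩ : K) : G) := h1.trans h2.symm
    exact h4
  · rw [h.2 x hx]
    apply h.2
    intro h1
    apply hx
    have h2 := K.mul_mem (K.mul_mem hk h1) (K.inv_mem hk)
    have e : k * (k⁻¹ * x * k) * k⁻¹ = x := by group
    rwa [e] at h2

/-- value version of `cnj_eq_self` -/
theorem irrS_conj {K : Subgroup G} {k : G} (hk : k ∈ K) {χ : G → ℂ} (h : χ ∈ IrrS K) (x : G) :
    χ (k * x * k⁻¹) = χ x := by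
  have h1 := congrFun (cnj_eq_self (K.inv_mem hk) h) x
  rw [cnj_apply, inv_inv] at h1
  exact h1

private theorem s4act_triv (A : Type) [Group A] : (fun _ : A => (1 : ℂ)) ∈ Irr A := by
  refine ⟨ℂ, inferInstance, inferInstance, inferInstance, Representation.trivial ℂ A ℂ, ?_, ?_⟩
  · rw [isIrreducible_iff]
    refine ⟨inferInstance, fun W _ => ?_⟩
    exact eq_bot_or_eq_top W
  · funext x
    unfold Representation.character
    have : (Representation.trivial ℂ A ℂ) x = LinearMap.id := by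
      ext; simp
    rw [this, LinearMap.trace_id]
    simp

theorem oneS_mem (Q : Subgroup G) : oneS Q ∈ IrrS Q := by
  classical
  constructor
  · have : (fun h : Q => oneS Q (h : G)) = fun _ => (1 : ℂ) := by
      funext h
      unfold oneS
      rw [if_pos h.2]
    rw [this]
    exact s4act_triv Q
  · intro x hx
    unfold oneS
    rw [if_neg hx]

theorem cnj_oneS {Q : Subgroup G} {a : G} (ha : a ∈ Subgroup.normalizer (Q : Set G)) :
    cnj a (oneS Q) = oneS Q := by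
  funext x
  unfold cnj oneS
  have h2 := (Subgroup.mem_normalizer_iff''.1 ha x)
  by_cases hx : x ∈ Q
  · rw [if_pos hx, if_pos (h2.1 hx)]
  · rw [if_neg hx, if_neg (fun h3 => hx (h2.2 h3))]

/-- nontrivial characters stay nontrivial -/
theorem cnj_ne_oneS {Q : Subgroup G} {a : G} (ha : a ∈ Subgroup.normalizer (Q : Set G))
    {lam : G → ℂ} (h : lam ≠ oneS Q) : cnj a lam ≠ oneS Q := by
  intro h1
  apply h
  have h2 : cnj a⁻¹ (cnj a lam) = cnj a⁻¹ (oneS Q) := by rw [h1]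
  rw [cnj_inv_cnj, cnj_oneS (Subgroup.inv_mem _ ha)] at h2
  exact h2

theorem ip_cnj {L : Subgroup G} {a : G} (ha : a ∈ Subgroup.normalizer (L : Set G))
    (f g : G → ℂ) : ip L (cnj a f) (cnj a g) = ip L f g := by
  unfold ip B
  congr 1
  symm
  rw [← finsum_comp_equiv (s4act_e ha).toEquiv]
  apply finsum_congr
  intro x
  change f (a⁻¹ * x * a) * g (((s4act_e ha x)⁻¹ : L) : G) = f (a⁻¹ * x * a) * g (a⁻¹ * ((x⁻¹ : L) : G) * a)
  congr 2
  rw [Subgroup.coe_inv, Subgroup.coe_inv]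
  change (a⁻¹ * x * a)⁻¹ = a⁻¹ * (x : G)⁻¹ * a
  group

/-- Reindex both sums by conjugation with `a`. -/
theorem aa_cnj {Q H : Subgroup G} {a : G} (haQ : a ∈ Subgroup.normalizer (Q : Set G))
    (haH : a ∈ Subgroup.normalizer (H : Set G)) (χ lam φ : G → ℂ) :
    aa Q H (cnj a χ) (cnj a lam) (cnj a φ) = aa Q H χ lam φ := by
  unfold aa
  congr 1
  symm
  rw [← finsum_comp_equiv (s4act_e haQ).toEquiv]
  apply finsum_congr
  intro x
  rw [← finsum_comp_equiv (s4act_e haH).toEquiv]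
  apply finsum_congr
  intro h
  symm
  change χ (a⁻¹ * (x * h) * a) * (lam (a⁻¹ * (x : G)⁻¹ * a) - 1) * φ (a⁻¹ * (h : G)⁻¹ * a) =
    χ ((a⁻¹ * x * a) * (a⁻¹ * h * a)) * (lam (a⁻¹ * x * a)⁻¹ - 1) * φ (a⁻¹ * h * a)⁻¹
  have e1 : (a⁻¹ * (x : G) * a) * (a⁻¹ * h * a) = a⁻¹ * (x * h) * a := by group
  have e2 : (a⁻¹ * (x : G) * a)⁻¹ = a⁻¹ * (x : G)⁻¹ * a := by group
  have e3 : (a⁻¹ * (h : G) * a)⁻¹ = a⁻¹ * (h : G)⁻¹ * a := by group
  rw [e1, e2, e3]

/-- `oneS Q` is `1` on `Q`. -/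
theorem aa_oneS (Q H : Subgroup G) (χ φ : G → ℂ) : aa Q H χ (oneS Q) φ = 0 := by
  unfold aa
  have h1 : ∀ x : Q, oneS Q (x : G)⁻¹ = 1 := by
    intro x
    unfold oneS
    rw [if_pos (Q.inv_mem x.2)]
  have h2 : ∀ x : Q, ∑ᶠ h : H, χ ((x : G) * (h : G)) * (oneS Q (x : G)⁻¹ - 1) * φ (h : G)⁻¹ = 0 := by
    intro x
    have h3 : ∀ h : H, χ ((x : G) * (h : G)) * (oneS Q (x : G)⁻¹ - 1) * φ (h : G)⁻¹ = 0 := by
      intro h
      rw [h1, sub_self, mul_zero, zero_mul]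
    rw [finsum_congr h3, finsum_zero]
  rw [finsum_congr h2, finsum_zero, mul_zero]

/-- a character in `IrrS K` has nonzero value at `1` -/
theorem irrS_one_ne {K : Subgroup G} [Finite K] {χ : G → ℂ} (h : χ ∈ IrrS K) : χ 1 ≠ 0 := by
  obtain ⟨n, hn, h1⟩ := irr_one h.1
  have h2 : χ 1 = n := h1
  rw [h2]
  exact_mod_cast hn.ne'

/-- `χ 1` is the degree -/
theorem irrS_deg {K : Subgroup G} [Finite K] {χ : G → ℂ} (h : χ ∈ IrrS K) :
    χ 1 = (deg χ : ℂ) := by
  obtain ⟨n, hn, h1⟩ := irr_one h.1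
  have h2 : χ 1 = n := h1
  unfold deg
  rw [h2]
  simp

end Pool.Agent.Helper97.S4
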