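import Pool.Agent.Helper97.S4.Act

/-!
# Project IR, section 4 (S4-04): the local subgroups

`Loc p K Q H`: `p² ∤ |K|`, `Q ≤ K`, `|Q| = p`, `H ≤ K ⊓ C_G(Q)`, `p ∤ |H|`, `Q ⊔ H = K ⊓ C_G(Q)`.
`Q` is abelian (cyclic of prime order), and `Q`, `H` commute elementwise, so every element of
`K ⊓ C_G(Q)` is `x * h` with `x ∈ Q`, `h ∈ H`; `Q ⊓ H = ⊥` because the orders are coprime.
`NN K Q = K ⊓ normalizer Q`.
-/

namespace Pool.Agent.Helper97.S4

open Pool.Agent.Helper42.INC Pool.Agent.Helper42.IR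

variable {G : Type} [Group G] [Finite G] {p : ℕ} [Fact p.Prime] {K Q H : Subgroup G}

theorem Loc.comm (hL : Loc p K Q H) {x h : G} (hx : x ∈ Q) (hh : h ∈ H) : x * h = h * x := by
  have h1 := (hL.HC hh).2
  exact Subgroup.mem_centralizer_iff.1 h1 x hx

/-- a group of prime order is commutative -/
theorem Loc.commQ (hL : Loc p K Q H) {x y : G} (hx : x ∈ Q) (hy : y ∈ Q) : x * y = y * x := by
  have hc : IsCyclic Q := isCyclic_of_prime_card hL.cQ
  have h1 : (⟨x, hx⟩ : Q) * ⟨y, hy⟩ = ⟨y, hy⟩ * ⟨x, hx⟩ := by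
    let _ := IsCyclic.commGroup (α := Q)
    exact mul_comm _ _
  exact congrArg Subtype.val h1

theorem Loc.disj (hL : Loc p K Q H) {x : G} (hx : x ∈ Q) (hh : x ∈ H) : x = 1 := by
  have hp : p.Prime := Fact.out
  have h1 : orderOf x ∣ p := by
    have h3 : orderOf (⟨x, hx⟩ : Q) ∣ Nat.card Q := orderOf_dvd_natCard _
    rwa [← Subgroup.orderOf_coe, hL.cQ] at h3
  have h2 : orderOf x ∣ Nat.card H := by
    have h3 : orderOf (⟨x, hh⟩ : H) ∣ Nat.card H := orderOf_dvd_natCard _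
    rwa [← Subgroup.orderOf_coe] at h3
  have h4 : Nat.Coprime p (Nat.card H) := (Nat.Prime.coprime_iff_not_dvd hp).2 hL.pH
  exact orderOf_eq_one_iff.1 (Nat.eq_one_of_dvd_coprimes h4 h1 h2)

/-- elements of `Q ⊔ H`; uses `Loc.comm` -/
theorem Loc.mem_sup (hL : Loc p K Q H) {g : G} : g ∈ Q ⊔ H ↔ ∃ x ∈ Q, ∃ h ∈ H, g = x * h := by
  constructor
  · intro hg
    let T : Subgroup G :=
      { carrier := {g | ∃ x ∈ Q, ∃ h ∈ H, g = x * h}
        one_mem' := ⟨1, Q.one_mem, 1, H.one_mem, (one_mul 1).symm⟩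
        mul_mem' := by
          rintro a b ⟨x, hx, h, hh, rfl⟩ ⟨y, hy, k, hk, rfl⟩
          refine ⟨x * y, Q.mul_mem hx hy, h * k, H.mul_mem hh hk, ?_⟩
          have h1 := Loc.comm hL hy hh
          calc x * h * (y * k) = x * (h * y) * k := by group
            _ = x * (y * h) * k := by rw [h1]
            _ = x * y * (h * k) := by group
        inv_mem' := by
          rintro a ⟨x, hx, h, hh, rfl⟩
          refine ⟨x⁻¹, Q.inv_mem hx, h⁻¹, H.inv_mem hh, ?_⟩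
          rw [Loc.comm hL hx hh, mul_inv_rev] }
    have hT : Q ⊔ H ≤ T := by
      apply sup_le
      · intro x hx
        exact ⟨x, hx, 1, H.one_mem, (mul_one x).symm⟩
      · intro h hh
        exact ⟨1, Q.one_mem, h, hh, (one_mul h).symm⟩
    exact hT hg
  · rintro ⟨x, hx, h, hh, rfl⟩
    exact Subgroup.mul_mem _ ((le_sup_left : Q ≤ Q ⊔ H) hx) ((le_sup_right : H ≤ Q ⊔ H) hh)

/-- uniqueness of the decomposition -/
theorem Loc.mul_inj (hL : Loc p K Q H) {x y h k : G} (hx : x ∈ Q) (hy : y ∈ Q) (hh : h ∈ H)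
    (hk : k ∈ H) (he : x * h = y * k) : x = y ∧ h = k := by
  have h1 : y⁻¹ * x = k * h⁻¹ := by
    rw [inv_mul_eq_iff_eq_mul, ← mul_assoc, eq_mul_inv_iff_mul_eq]
    exact he
  have h2 : y⁻¹ * x = 1 := Loc.disj hL (Q.mul_mem (Q.inv_mem hy) hx) (by
    rw [h1]
    exact H.mul_mem hk (H.inv_mem hh))
  have h3 : x = y := by
    rw [inv_mul_eq_one] at h2
    exact h2.symm
  refine ⟨h3, ?_⟩
  rw [h3] at he
  exact mul_left_cancel he

/-- `H` is the set of elements of `K ⊓ C_G(Q)` of order dividing `|H|`: for `g = x h`,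
`g ^ |H| = x ^ |H|`, and this is `1` only for `x = 1`, since `p ∤ |H|`. -/
theorem Loc.mem_H (hL : Loc p K Q H) {g : G} :
    g ∈ H ↔ g ∈ K ∧ g ∈ Subgroup.centralizer (Q : Set G) ∧ g ^ (Nat.card H) = 1 := by
  constructor
  · intro hg
    refine ⟨(hL.HC hg).1, (hL.HC hg).2, ?_⟩
    have h1 : (⟨g, hg⟩ : H) ^ Nat.card H = 1 := pow_card_eq_one'
    exact congrArg Subtype.val h1
  · rintro ⟨hK, hC, hpow⟩
    have h1 : g ∈ Q ⊔ H := by
      rw [hL.sup]
      exact ⟨hK, hC⟩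
    obtain ⟨x, hx, h, hh, rfl⟩ := (Loc.mem_sup hL).1 h1
    have h2 : Commute x h := Loc.comm hL hx hh
    have h3 : (⟨h, hh⟩ : H) ^ Nat.card H = 1 := pow_card_eq_one'
    have h3' : h ^ Nat.card H = 1 := congrArg Subtype.val h3
    rw [h2.mul_pow, h3', mul_one] at hpow
    have hp : p.Prime := Fact.out
    have h4 : orderOf x ∣ p := by
      have h5 : orderOf (⟨x, hx⟩ : Q) ∣ Nat.card Q := orderOf_dvd_natCard _
      rwa [← Subgroup.orderOf_coe, hL.cQ] at h5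
    have h6 : Nat.Coprime p (Nat.card H) := (Nat.Prime.coprime_iff_not_dvd hp).2 hL.pH
    have h7 : x = 1 :=
      orderOf_eq_one_iff.1 (Nat.eq_one_of_dvd_coprimes h6 h4 (orderOf_dvd_of_pow_eq_one hpow))
    rw [h7, one_mul]
    exact hh

/-- `H` is characteristic in `K ⊓ C_G(Q)`: use `Loc.mem_H`; conjugation by `a` preserves `K` and the
centralizer of `Q`, and orders. -/
theorem Loc.norm_H (hL : Loc p K Q H) {a : G} (haK : a ∈ Subgroup.normalizer (K : Set G))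
    (haQ : a ∈ Subgroup.normalizer (Q : Set G)) : a ∈ Subgroup.normalizer (H : Set G) := by
  have key : ∀ b : G, b ∈ Subgroup.normalizer (K : Set G) → b ∈ Subgroup.normalizer (Q : Set G) →
      ∀ g ∈ H, b * g * b⁻¹ ∈ H := by
    intro b hbK hbQ g hg
    obtain ⟨h1, h2, h3⟩ := (Loc.mem_H hL).1 hg
    refine (Loc.mem_H hL).2 ⟨(Subgroup.mem_normalizer_iff.1 hbK g).1 h1, ?_, ?_⟩
    · rw [Subgroup.mem_centralizer_iff] at h2 ⊢
      intro q hq
      have h4 : b⁻¹ * q * b ∈ Q := (Subgroup.mem_normalizer_iff''.1 hbQ q).1 hq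
      have h5 := h2 _ h4
      calc q * (b * g * b⁻¹) = b * ((b⁻¹ * q * b) * g) * b⁻¹ := by group
        _ = b * (g * (b⁻¹ * q * b)) * b⁻¹ := by rw [h5]
        _ = b * g * b⁻¹ * q := by group
    · rw [conj_pow, h3, mul_one, mul_inv_cancel]
  refine (Subgroup.mem_normalizer_iff (H := H)).2 fun g => ⟨key a haK haQ g, fun h => ?_⟩
  have h1 := key a⁻¹ (Subgroup.inv_mem _ haK) (Subgroup.inv_mem _ haQ) _ h
  have h2 : a⁻¹ * (a * g * a⁻¹) * a⁻¹⁻¹ = g := by group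
  rwa [h2] at h1

/-- elements of `NN K Q` normalize `H` -/
theorem Loc.norm_H' (hL : Loc p K Q H) {a : G} (ha : a ∈ NN K Q) :
    a ∈ Subgroup.normalizer (H : Set G) := by
  exact Loc.norm_H hL (Subgroup.le_normalizer ha.1) ha.2

theorem NN_NN (K Q : Subgroup G) : NN (NN K Q) Q = NN K Q := by
  unfold NN
  rw [inf_assoc, inf_idem]

/-- `C_G(Q) ≤ N_G(Q)` -/
theorem Loc.nn (hL : Loc p K Q H) : Loc p (NN K Q) Q H := by
  have hCN : Subgroup.centralizer (Q : Set G) ≤ Subgroup.normalizer (Q : Set G) :=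
    Subgroup.centralizer_le_normalizer _
  refine ⟨fun h => hL.pp (h.trans (Subgroup.card_dvd_of_le inf_le_left)), ?_, hL.cQ, ?_, hL.pH, ?_⟩
  · exact le_inf hL.QK Subgroup.le_normalizer
  · intro h hh
    have h1 := hL.HC hh
    exact ⟨⟨h1.1, hCN h1.2⟩, h1.2⟩
  · rw [hL.sup]
    apply le_antisymm
    · intro g hg
      exact ⟨⟨hg.1, hCN hg.2⟩, hg.2⟩
    · intro g hg
      exact ⟨hg.1.1, hg.2⟩

/-- `a ∈ normalizer K ⊓ normalizer Q` normalizes `NN K Q` -/
theorem norm_NN {a : G} (haK : a ∈ Subgroup.normalizer (K : Set G))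
    (haQ : a ∈ Subgroup.normalizer (Q : Set G)) :
    a ∈ Subgroup.normalizer ((NN K Q : Subgroup G) : Set G) := by
  refine (Subgroup.mem_normalizer_iff (H := NN K Q)).2 fun g => ?_
  constructor
  · rintro ⟨h1, h2⟩
    exact ⟨(Subgroup.mem_normalizer_iff.1 haK g).1 h1,
      Subgroup.mul_mem _ (Subgroup.mul_mem _ haQ h2) (Subgroup.inv_mem _ haQ)⟩
  · rintro ⟨h1, h2⟩
    refine ⟨(Subgroup.mem_normalizer_iff.1 haK g).2 h1, ?_⟩
    have h3 := Subgroup.mul_mem _ (Subgroup.mul_mem _ (Subgroup.inv_mem _ haQ) h2) haQ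
    have h4 : a⁻¹ * (a * g * a⁻¹) * a = g := by group
    rwa [h4] at h3

/-- `Q ⊔ H` is normalized by `NN K Q` -/
theorem Loc.norm_sup (hL : Loc p K Q H) {a : G} (haK : a ∈ Subgroup.normalizer (K : Set G))
    (haQ : a ∈ Subgroup.normalizer (Q : Set G)) :
    a ∈ Subgroup.normalizer ((Q ⊔ H : Subgroup G) : Set G) := by
  have key : ∀ b : G, b ∈ Subgroup.normalizer (K : Set G) → b ∈ Subgroup.normalizer (Q : Set G) →
      ∀ g ∈ Q ⊔ H, b * g * b⁻¹ ∈ Q ⊔ H := by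
    intro b hbK hbQ g hg
    obtain ⟨x, hx, h, hh, rfl⟩ := (Loc.mem_sup hL).1 hg
    refine (Loc.mem_sup hL).2 ⟨b * x * b⁻¹, (Subgroup.mem_normalizer_iff.1 hbQ x).1 hx, b * h * b⁻¹,
      (Subgroup.mem_normalizer_iff.1 (Loc.norm_H hL hbK hbQ) h).1 hh, ?_⟩
    group
  refine (Subgroup.mem_normalizer_iff (H := Q ⊔ H)).2 fun g => ⟨key a haK haQ g, fun h => ?_⟩
  have h1 := key a⁻¹ (Subgroup.inv_mem _ haK) (Subgroup.inv_mem _ haQ) _ h
  have h2 : a⁻¹ * (a * g * a⁻¹) * a⁻¹⁻¹ = g := by group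
  rwa [h2] at h1

/-- `Q ⊔ H ≤ NN K Q` -/
theorem Loc.sup_le (hL : Loc p K Q H) : Q ⊔ H ≤ NN K Q := by
  rw [hL.sup]
  intro g hg
  exact ⟨hg.1, Subgroup.centralizer_le_normalizer _ hg.2⟩

/-- The conjugation action of `N_G(Q)` on `Q`: `MulAut Q` is isomorphic to `(ZMod p)ˣ` since `Q` is
cyclic of order `p` (`IsCyclic.mulAutMulEquiv`); the kernel is the centralizer. -/
theorem exists_piQ (Q : Subgroup G) (hQ : Nat.card Q = p) :
    ∃ π : Subgroup.normalizer (Q : Set G) →* (ZMod p)ˣ,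
      ∀ a, π a = 1 ↔ (a : G) ∈ Subgroup.centralizer (Q : Set G) := by
  subst hQ
  have hc : IsCyclic Q := isCyclic_of_prime_card rfl
  refine ⟨(IsCyclic.mulAutMulEquiv Q).toMonoidHom.comp Q.normalizerMonoidHom, fun a => ?_⟩
  have h1 : ((IsCyclic.mulAutMulEquiv Q).toMonoidHom.comp Q.normalizerMonoidHom) a = 1 ↔
      a ∈ Q.normalizerMonoidHom.ker := by
    rw [MonoidHom.mem_ker, MonoidHom.comp_apply]
    constructor
    · intro h
      apply (IsCyclic.mulAutMulEquiv Q).injective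
      rw [map_one]
      exact h
    · intro h
      rw [h, map_one]
  rw [h1, Subgroup.normalizerMonoidHom_ker, Subgroup.mem_subgroupOf]

/-- `ee K Q H φ` is the index of `(Q ⊔ H) ⊓ stab φ` in `NN K Q ⊓ stab φ`; here
`(Q ⊔ H) ⊓ (NN K Q ⊓ stab φ)` is the kernel of the restriction of the homomorphism of `exists_piQ` to
`NN K Q ⊓ stab φ`, so the index is at most `|(ZMod p)ˣ| = p - 1`. -/
theorem Loc.ee_lt (hL : Loc p K Q H) (φ : G → ℂ) : ee K Q H φ < p := by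
  have hp : p.Prime := Fact.out
  obtain ⟨π, hπ⟩ := exists_piQ (p := p) Q hL.cQ
  have hle : NN K Q ⊓ stab φ ≤ Subgroup.normalizer (Q : Set G) := fun g hg => hg.1.2
  have hker : (π.comp (Subgroup.inclusion hle)).ker = (Q ⊔ H).subgroupOf (NN K Q ⊓ stab φ) := by
    ext a
    rw [MonoidHom.mem_ker, MonoidHom.comp_apply, hπ, Subgroup.mem_subgroupOf, hL.sup]
    constructor
    · intro h
      exact ⟨a.2.1.1, h⟩
    · intro h
      exact h.2
  unfold ee Subgroup.relIndex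
  rw [← hker, Subgroup.index_ker]
  have h1 : Nat.card (π.comp (Subgroup.inclusion hle)).range ≤ Nat.card (ZMod p)ˣ :=
    Nat.card_le_card_of_injective _ Subtype.val_injective
  have h2 : Nat.card (ZMod p)ˣ = p - 1 := by
    rw [Nat.card_eq_fintype_card, ZMod.card_units_eq_totient, Nat.totient_prime hp]
  have h3 := hp.pos
  omega

/-- finite index -/
theorem Loc.ee_pos (hL : Loc p K Q H) (φ : G → ℂ) : 0 < ee K Q H φ := by
  unfold ee Subgroup.relIndex
  exact Nat.pos_of_ne_zero Subgroup.index_ne_zero_of_finite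

/-- `NN (NN K Q) Q = NN K Q` -/
theorem ee_NN (K Q H : Subgroup G) (φ : G → ℂ) : ee (NN K Q) Q H φ = ee K Q H φ := by
  unfold ee
  rw [NN_NN]

theorem Cj_NN (K Q : Subgroup G) (φ lam lam' : G → ℂ) :
    Cj (NN K Q) Q φ lam lam' ↔ Cj K Q φ lam lam' := by
  unfold Cj
  rw [NN_NN]

theorem Tr_NN (K Q : Subgroup G) (φ : G → ℂ) : Tr (NN K Q) Q φ ↔ Tr K Q φ := by
  unfold Tr Cj
  rw [NN_NN]

end Pool.Agent.Helper97.S4
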