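import Pool.Agent.Helper97.S4.F1S

/-!
# Project IR, section 4 (S4-09): double counting of characters over a stable set

`a` normalizes `K`, `n` is the exact order of `a` modulo `K`, `J = K ⊔ zpowers a`.
-/

namespace Pool.Agent.Helper97.S4

open Pool.Agent.Helper42.INC Pool.Agent.Helper42.IR

variable {G : Type} [Group G] [Finite G]

/-- The constituents of the restriction to `K` of a character of `J` form one orbit of `⟨a⟩`:
`clifford` gives `j = k * a ^ i ∈ J` with `cnj j θ₀ = θ`, and `cnj k` is the identity on `IrrS K`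
(note `cnj (k * a ^ i) θ₀ = cnj k (cnj (a ^ i) θ₀)`). Conversely `ip_cnj_right`. -/
theorem under_iff {K : Subgroup G} {a : G} (haK : a ∈ Subgroup.normalizer (K : Set G)) {n : ℕ}
    (hn : ∀ k : ℕ, a ^ k ∈ K ↔ n ∣ k) {χ θ₀ θ : G → ℂ}
    (hχ : χ ∈ IrrS (K ⊔ Subgroup.zpowers a)) (hθ₀ : θ₀ ∈ IrrS K) (hθ : θ ∈ IrrS K)
    (h0 : ip K χ θ₀ ≠ 0) : ip K χ θ ≠ 0 ↔ ∃ b < n, cnj (a ^ b) θ₀ = θ := by
  have hn' := sup_le_normalizer haK
  constructor
  · intro h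
    obtain ⟨k, hk, hkθ⟩ := clifford le_sup_left hn' hχ hθ₀ hθ h0 h
    obtain ⟨k', hk', i, hi, rfl⟩ := (mem_sup_zpowers haK hn).mp hk
    refine ⟨i, hi, ?_⟩
    rw [← cnj_cnj] at hkθ
    rw [← hkθ, cnj_eq_self hk' (cnj_mem_irrS (Subgroup.pow_mem _ haK i) hθ₀)]
  · rintro ⟨b, -, rfl⟩
    have hk : a ^ b ∈ K ⊔ Subgroup.zpowers a :=
      (le_sup_right : Subgroup.zpowers a ≤ K ⊔ Subgroup.zpowers a)
        (Subgroup.pow_mem _ (Subgroup.mem_zpowers a) b)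
    rw [ip_cnj_right hn' hχ hk]
    exact h0

private theorem Nat.card_eq_card_toFinset_dc {α : Type} {s : Set α} (hs : s.Finite) :
    Nat.card s = hs.toFinset.card := by
  rw [Nat.card_coe_set_eq, Set.ncard_eq_toFinset_card s hs]

private theorem Nat.card_eq_card_filter_dc {α : Type} {s : Finset α} {q : α → Prop}
    [DecidablePred q] : Nat.card {b : α // b ∈ s ∧ q b} = (s.filter q).card := by
  rw [← Nat.card_eq_finsetCard]
  apply Nat.card_congr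
  exact Equiv.subtypeEquivRight (fun b => by simp)

private theorem finsum_eq_sum_dc {α : Type} {s : Set α} (hs : s.Finite) (f : α → ℕ) :
    ∑ᶠ x : s, f x = ∑ x ∈ hs.toFinset, f x := by
  have h1 := finsum_mem_eq_finite_toFinset_sum f hs
  rw [← h1]
  exact finsum_set_coe_eq_finsum_mem s

private theorem fib_card_dc {K : Subgroup G} {a : G}
    (haK : a ∈ Subgroup.normalizer (K : Set G)) {n : ℕ}
    (hn : ∀ k : ℕ, a ^ k ∈ K ↔ n ∣ k) {θ₀ θ : G → ℂ} (hθ₀ : θ₀ ∈ IrrS K) {c : ℕ}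
    (hc : cnj (a ^ c) θ₀ = θ) [DecidableEq (G → ℂ)] :
    ((Finset.range n).filter (fun b => cnj (a ^ b) θ = θ)).card =
      ((Finset.range n).filter (fun b => cnj (a ^ b) θ₀ = θ)).card := by
  have hper : Function.Periodic (fun m : ℕ => cnj (a ^ m) θ₀ = θ) n := by
    intro m
    have h1 : cnj (a ^ (m + n)) θ₀ = cnj (a ^ m) θ₀ := by
      rw [pow_add, ← cnj_cnj, cnj_eq_self ((hn n).mpr dvd_rfl) hθ₀]
    simp only [h1]
  have h2 := Nat.filter_Ico_card_eq_of_periodic c n (fun m : ℕ => cnj (a ^ m) θ₀ = θ) hper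
  rw [Nat.count_eq_card_filter_range] at h2
  rw [← h2]
  refine Finset.card_bij (fun b _ => c + b) ?_ ?_ ?_
  · intro b hb
    rw [Finset.mem_filter, Finset.mem_range] at hb
    rw [Finset.mem_filter, Finset.mem_Ico]
    refine ⟨⟨by omega, by omega⟩, ?_⟩
    rw [add_comm c b, pow_add, ← cnj_cnj, hc]
    exact hb.2
  · intro b _ b' _ h
    exact Nat.add_left_cancel h
  · intro m hm
    rw [Finset.mem_filter, Finset.mem_Ico] at hm
    obtain ⟨b, rfl⟩ : ∃ b, m = c + b := ⟨m - c, by omega⟩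
    refine ⟨b, ?_, rfl⟩
    rw [Finset.mem_filter, Finset.mem_range]
    refine ⟨by omega, ?_⟩
    have h3 := hm.2
    rw [add_comm c b, pow_add, ← cnj_cnj, hc] at h3
    exact h3

private theorem gcd_mem_dc {S : Subgroup G} {a : G} {x y : ℕ} (hx : a ^ x ∈ S) (hy : a ^ y ∈ S) :
    a ^ (Nat.gcd x y) ∈ S := by
  have h1 : a ^ ((Nat.gcd x y : ℕ) : ℤ) = (a ^ x) ^ (Nat.gcdA x y) * (a ^ y) ^ (Nat.gcdB x y) := by
    rw [Nat.gcd_eq_gcd_ab, zpow_add, zpow_mul, zpow_mul, zpow_natCast, zpow_natCast]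
  rw [zpow_natCast] at h1
  rw [h1]
  exact S.mul_mem (S.zpow_mem hx _) (S.zpow_mem hy _)

private theorem dvd_mem_dc {S : Subgroup G} {a : G} {x y : ℕ} (hxy : x ∣ y) (hx : a ^ x ∈ S) :
    a ^ y ∈ S := by
  obtain ⟨k, rfl⟩ := hxy
  rw [pow_mul]
  exact S.pow_mem hx k

/-- For `θ ∈ 𝓑` let `s θ` be the number of `b < n` with `cnj (a ^ b) θ = θ`. By `card_over` this is
the number of `χ ∈ IrrS J` over `θ`. So the sum of `(s θ)²` is the sum over the pairs `(θ, χ)`,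
`θ ∈ 𝓑`, `χ` over `θ`, of `s θ`; for fixed `χ` over some `θ₀ ∈ 𝓑`, the `θ` under `χ` form the
orbit of `θ₀` under `⟨a⟩` (`under_iff`; all in `𝓑`), `s` is constant on the orbit, and the orbit has
`n / s θ₀` elements (orbit-stabilizer: the map `b ↦ cnj (a ^ b) θ₀` from `{b < n}` onto the orbit has
all fibres of size `s θ₀`, because `cnj (a ^ n) θ₀ = θ₀`). So each `χ` contributes `n`. -/
theorem double_count {K : Subgroup G} {a : G} (haK : a ∈ Subgroup.normalizer (K : Set G)) {n : ℕ}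
    (hn : ∀ k : ℕ, a ^ k ∈ K ↔ n ∣ k) (𝓑 : Set (G → ℂ)) (h𝓑 : 𝓑 ⊆ IrrS K)
    (hst : ∀ θ ∈ 𝓑, cnj a θ ∈ 𝓑) :
    ∑ᶠ θ : 𝓑, (Nat.card {b : ℕ // b < n ∧ cnj (a ^ b) θ.1 = θ.1}) ^ 2 =
      n * Nat.card {χ : G → ℂ // χ ∈ IrrS (K ⊔ Subgroup.zpowers a) ∧ ∃ θ ∈ 𝓑, ip K χ θ ≠ 0} := by
  classical
  have hn' := sup_le_normalizer haK
  have hfB : 𝓑.Finite := (irrS_finite K).subset h𝓑
  let X : Set (G → ℂ) := {χ | χ ∈ IrrS (K ⊔ Subgroup.zpowers a) ∧ ∃ θ ∈ 𝓑, ip K χ θ ≠ 0}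
  have hfX : X.Finite := (irrS_finite (K ⊔ Subgroup.zpowers a)).subset (fun χ h => h.1)
  have hstp : ∀ (b : ℕ), ∀ θ ∈ 𝓑, cnj (a ^ b) θ ∈ 𝓑 := by
    intro b
    induction b with
    | zero => intro θ hθ; simpa using hθ
    | succ b ih =>
      intro θ hθ
      rw [pow_succ, ← cnj_cnj]
      exact ih _ (hst θ hθ)
  have hXc : Nat.card {χ : G → ℂ // χ ∈ IrrS (K ⊔ Subgroup.zpowers a) ∧ ∃ θ ∈ 𝓑, ip K χ θ ≠ 0} =
      hfX.toFinset.card := by
    rw [← Nat.card_eq_card_toFinset_dc hfX]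
    rfl
  have hs : ∀ θ : G → ℂ, Nat.card {b : ℕ // b < n ∧ cnj (a ^ b) θ = θ} =
      ((Finset.range n).filter (fun b => cnj (a ^ b) θ = θ)).card := by
    intro θ
    rw [← Nat.card_eq_card_filter_dc]
    congr! 3
    simp
  rw [hXc, finsum_eq_sum_dc hfB (fun θ => (Nat.card {b : ℕ // b < n ∧ cnj (a ^ b) θ = θ}) ^ 2)]
  have h1 : ∀ θ ∈ hfB.toFinset, (Nat.card {b : ℕ // b < n ∧ cnj (a ^ b) θ = θ}) ^ 2 =
      ∑ χ ∈ hfX.toFinset, if ip K χ θ ≠ 0 then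
        ((Finset.range n).filter (fun b => cnj (a ^ b) θ = θ)).card else 0 := by
    intro θ hθ
    rw [Set.Finite.mem_toFinset] at hθ
    rw [← Finset.sum_filter, Finset.sum_const, smul_eq_mul, ← hs, sq]
    congr 1
    rw [← card_over haK hn (h𝓑 hθ)]
    have hfY : {χ : G → ℂ | χ ∈ IrrS (K ⊔ Subgroup.zpowers a) ∧ ip K χ θ ≠ 0}.Finite :=
      (irrS_finite (K ⊔ Subgroup.zpowers a)).subset (fun χ h => h.1)
    have h2 := Nat.card_eq_card_toFinset_dc hfY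
    have h3 : Nat.card {χ : G → ℂ // χ ∈ IrrS (K ⊔ Subgroup.zpowers a) ∧ ip K χ θ ≠ 0} =
        hfY.toFinset.card := h2
    rw [h3]
    congr 1
    ext χ
    simp only [Set.Finite.mem_toFinset, Set.mem_setOf_eq, Finset.mem_filter, X]
    constructor
    · rintro ⟨h4, h5⟩
      exact ⟨⟨h4, θ, hθ, h5⟩, h5⟩
    · rintro ⟨⟨h4, -⟩, h5⟩
      exact ⟨h4, h5⟩
  rw [Finset.sum_congr rfl h1, Finset.sum_comm]
  have h2 : ∀ χ ∈ hfX.toFinset, (∑ θ ∈ hfB.toFinset, if ip K χ θ ≠ 0 then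
        ((Finset.range n).filter (fun b => cnj (a ^ b) θ = θ)).card else 0) = n := by
    intro χ hχ
    rw [Set.Finite.mem_toFinset] at hχ
    obtain ⟨hχ1, θ₀, hθ₀, h0⟩ := hχ
    rw [← Finset.sum_filter]
    have h3 : ∀ θ ∈ hfB.toFinset.filter (fun θ => ip K χ θ ≠ 0),
        ((Finset.range n).filter (fun b => cnj (a ^ b) θ = θ)).card =
        ((Finset.range n).filter (fun b => cnj (a ^ b) θ₀ = θ)).card := by
      intro θ hθ
      rw [Finset.mem_filter, Set.Finite.mem_toFinset] at hθ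
      obtain ⟨c, hc, hcθ⟩ := (under_iff haK hn hχ1 (h𝓑 hθ₀) (h𝓑 hθ.1) h0).mp hθ.2
      exact fib_card_dc haK hn (h𝓑 hθ₀) hcθ
    rw [Finset.sum_congr rfl h3]
    have h4 := Finset.card_eq_sum_card_fiberwise (s := Finset.range n)
      (t := hfB.toFinset.filter (fun θ => ip K χ θ ≠ 0)) (f := fun b => cnj (a ^ b) θ₀)
      (by
        intro b hb
        rw [Finset.mem_coe, Finset.mem_range] at hb
        rw [Finset.mem_coe, Finset.mem_filter, Set.Finite.mem_toFinset]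
        have h5 := hstp b θ₀ hθ₀
        exact ⟨h5, (under_iff haK hn hχ1 (h𝓑 hθ₀) (h𝓑 h5) h0).mpr ⟨b, hb, rfl⟩⟩)
    rw [Finset.card_range] at h4
    exact h4.symm
  rw [Finset.sum_congr rfl h2, Finset.sum_const, smul_eq_mul, mul_comm]

/-- Exchange the sums in `double_count`: `(s θ)²` is the number of pairs `(b, c)` fixing `θ`. -/
theorem pairs_count {K : Subgroup G} {a : G} (haK : a ∈ Subgroup.normalizer (K : Set G)) {n : ℕ}
    (hn : ∀ k : ℕ, a ^ k ∈ K ↔ n ∣ k) (𝓑 : Set (G → ℂ)) (h𝓑 : 𝓑 ⊆ IrrS K)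
    (hst : ∀ θ ∈ 𝓑, cnj a θ ∈ 𝓑) :
    ∑ b ∈ Finset.range n, ∑ c ∈ Finset.range n,
        Nat.card {θ : G → ℂ // θ ∈ 𝓑 ∧ cnj (a ^ b) θ = θ ∧ cnj (a ^ c) θ = θ} =
      n * Nat.card {χ : G → ℂ // χ ∈ IrrS (K ⊔ Subgroup.zpowers a) ∧ ∃ θ ∈ 𝓑, ip K χ θ ≠ 0} := by
  classical
  rw [← double_count haK hn 𝓑 h𝓑 hst]
  have hfB : 𝓑.Finite := (irrS_finite K).subset h𝓑
  have hs : ∀ θ : G → ℂ, Nat.card {b : ℕ // b < n ∧ cnj (a ^ b) θ = θ} =
      ((Finset.range n).filter (fun b => cnj (a ^ b) θ = θ)).card := by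
    intro θ
    rw [← Nat.card_eq_card_filter_dc]
    congr! 3
    simp
  rw [finsum_eq_sum_dc hfB (fun θ => (Nat.card {b : ℕ // b < n ∧ cnj (a ^ b) θ = θ}) ^ 2)]
  have h1 : ∀ b ∈ Finset.range n, ∀ c ∈ Finset.range n,
      Nat.card {θ : G → ℂ // θ ∈ 𝓑 ∧ cnj (a ^ b) θ = θ ∧ cnj (a ^ c) θ = θ} =
      ∑ θ ∈ hfB.toFinset, (if cnj (a ^ b) θ = θ then 1 else 0) *
        (if cnj (a ^ c) θ = θ then 1 else 0) := by
    intro b _ c _
    have hfY : {θ : G → ℂ | θ ∈ 𝓑 ∧ cnj (a ^ b) θ = θ ∧ cnj (a ^ c) θ = θ}.Finite :=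
      hfB.subset (fun χ h => h.1)
    have h2 : Nat.card {θ : G → ℂ // θ ∈ 𝓑 ∧ cnj (a ^ b) θ = θ ∧ cnj (a ^ c) θ = θ} =
      hfY.toFinset.card := Nat.card_eq_card_toFinset_dc hfY
    have h3 : hfY.toFinset =
        hfB.toFinset.filter (fun θ => cnj (a ^ b) θ = θ ∧ cnj (a ^ c) θ = θ) := by
      ext θ
      simp only [Set.Finite.mem_toFinset, Set.mem_setOf_eq, Finset.mem_filter]
    rw [h2, h3, Finset.card_filter]
    refine Finset.sum_congr rfl (fun θ _ => ?_)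
    by_cases hb : cnj (a ^ b) θ = θ <;> by_cases hc : cnj (a ^ c) θ = θ <;> simp [hb, hc]
  have h4 : ∑ b ∈ Finset.range n, ∑ c ∈ Finset.range n,
        Nat.card {θ : G → ℂ // θ ∈ 𝓑 ∧ cnj (a ^ b) θ = θ ∧ cnj (a ^ c) θ = θ} =
      ∑ b ∈ Finset.range n, ∑ c ∈ Finset.range n, ∑ θ ∈ hfB.toFinset,
        (if cnj (a ^ b) θ = θ then 1 else 0) * (if cnj (a ^ c) θ = θ then 1 else 0) :=
    Finset.sum_congr rfl (fun b hb => Finset.sum_congr rfl (fun c hc => h1 b hb c hc))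
  rw [h4]
  have h5 : ∀ b ∈ Finset.range n, (∑ c ∈ Finset.range n, ∑ θ ∈ hfB.toFinset,
        (if cnj (a ^ b) θ = θ then 1 else 0) * (if cnj (a ^ c) θ = θ then 1 else 0)) =
      ∑ θ ∈ hfB.toFinset, ∑ c ∈ Finset.range n,
        (if cnj (a ^ b) θ = θ then 1 else 0) * (if cnj (a ^ c) θ = θ then 1 else 0) :=
    fun b _ => Finset.sum_comm
  rw [Finset.sum_congr rfl h5, Finset.sum_comm]
  refine Finset.sum_congr rfl (fun θ _ => ?_)
  rw [hs, Finset.card_filter, sq, Finset.sum_mul_sum]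

/-- Two elements `b`, `c` of `ℤ / n` generate the subgroup of `d = gcd (b, c, n)`: since
`cnj (a ^ n) θ = θ` for `θ ∈ IrrS K`, the powers `a ^ b` and `a ^ c` both fix `θ` iff `a ^ d` does (the
set of integers `k` with `cnj (a ^ k) θ = θ` is a subgroup of `ℤ` containing `n`). -/
theorem fix_gcd {K : Subgroup G} {a : G} {n : ℕ}
    (hn : ∀ k : ℕ, a ^ k ∈ K ↔ n ∣ k) {θ : G → ℂ} (hθ : θ ∈ IrrS K) (b c : ℕ) :
    (cnj (a ^ b) θ = θ ∧ cnj (a ^ c) θ = θ) ↔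
      cnj (a ^ (Nat.gcd (Nat.gcd b c) n)) θ = θ := by
  have hnθ : a ^ n ∈ stab θ := cnj_eq_self ((hn n).mpr dvd_rfl) hθ
  constructor
  · rintro ⟨h1, h2⟩
    exact gcd_mem_dc (gcd_mem_dc h1 h2) hnθ
  · intro h
    have h' : a ^ (Nat.gcd (Nat.gcd b c) n) ∈ stab θ := h
    exact ⟨dvd_mem_dc ((Nat.gcd_dvd_left _ _).trans (Nat.gcd_dvd_left _ _)) h',
      dvd_mem_dc ((Nat.gcd_dvd_left _ _).trans (Nat.gcd_dvd_right _ _)) h'⟩

end Pool.Agent.Helper97.S4
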