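import Pool.Agent.Helper97.S4.Clif
import Pool.Agent.Helper97.S4.LocA

/-!
# Project IR, section 4 (S4-10): expansions of `aa`

`aa Q H χ lam φ = (|Q| |H|)⁻¹ ∑ x ∈ Q, ∑ h ∈ H, χ (x h) (lam x⁻¹ - 1) φ h⁻¹`.
-/

namespace Pool.Agent.Helper97.S4

open Pool.Agent.Helper42.INC Pool.Agent.Helper42.IR

variable {G : Type} [Group G] [Finite G]

/-- `aa` in terms of inner products on `H`: the inner sum over `h` is
`|H| * ip H (fun h => χ (x * h)) φ`. -/
theorem aa_eq_sum (Q H : Subgroup G) (χ lam φ : G → ℂ) :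
    aa Q H χ lam φ =
      (Nat.card Q : ℂ)⁻¹ * ∑ᶠ x : Q, (lam (x : G)⁻¹ - 1) * ip H (fun h => χ ((x : G) * h)) φ := by
  have := Fintype.ofFinite Q
  have := Fintype.ofFinite H
  unfold aa ip
  simp only [B_eq, finsum_eq_sum_of_fintype]
  rw [mul_inv, mul_assoc]
  congr 1
  rw [Finset.mul_sum]
  refine Finset.sum_congr rfl fun x _ => ?_
  rw [Finset.mul_sum, Finset.mul_sum, Finset.mul_sum]
  refine Finset.sum_congr rfl fun h _ => ?_
  rw [Subgroup.coe_inv]
  ring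

private theorem aa_congr_left {Q H : Subgroup G} {χ χ' : G → ℂ} (lam φ : G → ℂ)
    (h : ∀ x ∈ Q, ∀ y ∈ H, χ (x * y) = χ' (x * y)) : aa Q H χ lam φ = aa Q H χ' lam φ := by
  have := Fintype.ofFinite Q
  have := Fintype.ofFinite H
  unfold aa
  simp only [finsum_eq_sum_of_fintype]
  congr 1
  refine Finset.sum_congr rfl fun x _ => ?_
  refine Finset.sum_congr rfl fun y _ => ?_
  rw [h x x.2 y y.2]

private theorem aa_lin {ι : Type*} [Fintype ι] (Q H : Subgroup G) (c : ι → ℂ) (f : ι → G → ℂ)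
    (lam φ : G → ℂ) :
    aa Q H (fun g => ∑ i, c i * f i g) lam φ = ∑ i, c i * aa Q H (f i) lam φ := by
  have := Fintype.ofFinite Q
  have := Fintype.ofFinite H
  unfold aa
  simp only [finsum_eq_sum_of_fintype]
  have h1 : ∀ i, c i * (((Nat.card Q : ℂ) * (Nat.card H : ℂ))⁻¹ * ∑ x : Q, ∑ h : H,
      f i ((x : G) * (h : G)) * (lam (x : G)⁻¹ - 1) * φ (h : G)⁻¹) =
      ((Nat.card Q : ℂ) * (Nat.card H : ℂ))⁻¹ * ∑ x : Q, ∑ h : H,
      c i * f i ((x : G) * (h : G)) * (lam (x : G)⁻¹ - 1) * φ (h : G)⁻¹ := by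
    intro i
    rw [mul_left_comm]
    congr 1
    rw [Finset.mul_sum]
    refine Finset.sum_congr rfl fun x _ => ?_
    rw [Finset.mul_sum]
    refine Finset.sum_congr rfl fun h _ => ?_
    ring
  rw [Finset.sum_congr rfl (fun i _ => h1 i), ← Finset.mul_sum]
  congr 1
  symm
  rw [Finset.sum_comm]
  refine Finset.sum_congr rfl fun x _ => ?_
  rw [Finset.sum_comm]
  refine Finset.sum_congr rfl fun h _ => ?_
  rw [Finset.sum_mul, Finset.sum_mul]

private theorem ip_lin {ι : Type*} [Fintype ι] (H : Subgroup G) (c : ι → ℂ) (f : ι → G → ℂ)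
    {F : G → ℂ} (hF : ∀ h ∈ H, F h = ∑ i, c i * f i h) (φ : G → ℂ) :
    ip H F φ = ∑ i, c i * ip H (f i) φ := by
  unfold ip
  have h1 : (fun h : H => F h) = ∑ i, (c i • (fun h : H => f i h) : H → ℂ) := by
    funext h
    rw [Finset.sum_apply, hF h h.2]
    rfl
  rw [h1, B_sum_left]
  refine Finset.sum_congr rfl fun i _ => ?_
  rw [B_smul_left]

/-- `χ` restricted to `K` is the sum of the `ip K χ θ * θ`, `θ ∈ IrrS K` (`expand_on`), and
`x * h ∈ K`. -/
theorem aa_expand_K {K J Q H : Subgroup G} (hKJ : K ≤ J) (hQK : Q ≤ K) (hHK : H ≤ K)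
    {χ : G → ℂ} (hχ : χ ∈ IrrS J) (lam φ : G → ℂ) :
    aa Q H χ lam φ = ∑ᶠ θ : IrrS K, ip K χ θ.1 * aa Q H θ.1 lam φ := by
  have : Finite (IrrS K) := irrS_finite K
  have := Fintype.ofFinite (IrrS K)
  rw [finsum_eq_sum_of_fintype, ← aa_lin Q H (fun θ : IrrS K => ip K χ θ.1) (fun θ => θ.1)]
  apply aa_congr_left
  intro x hx y hy
  have h1 := expand_on (L := K) (f := χ)
    (fun z hz w _ => irrS_conj (hKJ hz) hχ w) (K.mul_mem (hQK hx) (hHK hy))
  rw [h1, finsum_eq_sum_of_fintype]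

/-- For fixed `x ∈ Q` the function `h ↦ χ (x h)` is a class function on `HJ` (elements of `HJ`
commute with `x` and `χ` is a class function on `J`), so it is the sum of the
`ip HJ (χ (x ·)) φ' * φ'`, `φ' ∈ IrrS HJ` (`expand_on`); restrict to `H` and take the inner product
with `φ`, then sum over `x` as in `aa_eq_sum`. -/
theorem aa_expand_H {J Q H HJ : Subgroup G} (hHH : H ≤ HJ)
    (hHJ : HJ ≤ J ⊓ Subgroup.centralizer (Q : Set G)) (hQJ : Q ≤ J)
    {χ : G → ℂ} (hχ : χ ∈ IrrS J) (lam φ : G → ℂ) :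
    aa Q H χ lam φ = ∑ᶠ φ' : IrrS HJ, aa Q HJ χ lam φ'.1 * ip H φ'.1 φ := by
  have : Finite (IrrS HJ) := irrS_finite HJ
  have := Fintype.ofFinite (IrrS HJ)
  have := Fintype.ofFinite Q
  have h1 : ∀ x : Q, ip H (fun h => χ ((x : G) * h)) φ =
      ∑ φ' : IrrS HJ, ip HJ (fun h => χ ((x : G) * h)) φ'.1 * ip H φ'.1 φ := by
    intro x
    apply ip_lin
    intro h hh
    have h2 := expand_on (L := HJ) (f := fun h => χ ((x : G) * h)) (fun z hz w _ => by
      have h3 : (x : G) * z = z * x :=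
        Subgroup.mem_centralizer_iff.1 (hHJ hz).2 x x.2
      have h4 : (x : G) * (z * w * z⁻¹) = z * ((x : G) * w) * z⁻¹ := by
        rw [← mul_assoc, ← mul_assoc, h3]
        group
      change χ ((x : G) * (z * w * z⁻¹)) = χ ((x : G) * w)
      rw [h4]
      exact irrS_conj (hHJ hz).1 hχ _) (hHH hh)
    rw [finsum_eq_sum_of_fintype] at h2
    exact h2
  rw [aa_eq_sum]
  simp only [finsum_eq_sum_of_fintype, aa_eq_sum, h1]
  simp only [Finset.mul_sum, Finset.sum_mul]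
  rw [Finset.sum_comm]
  refine Finset.sum_congr rfl fun φ' _ => ?_
  refine Finset.sum_congr rfl fun x _ => ?_
  ring

end Pool.Agent.Helper97.S4
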