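import Pool.Agent.Helper97.S4.Loc1

/-!
# Project IR, section 4 (S4-20): local characters with `Q` in the kernel

`π : normalizer Q → (ZMod p)ˣ` with kernel the centralizer of `Q` (`exists_piQ`).
-/

namespace Pool.Agent.Helper97.S4

open Pool.Agent.Helper42.INC Pool.Agent.Helper42.IR

/-- orthogonality: the sum over all characters of a finite abelian group -/
private lemma beta_sum_chars {A : Type} [CommGroup A] [Finite A] [Fintype (A →* ℂˣ)] (u : A)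
    (hu : u ≠ 1) : ∑ β : A →* ℂˣ, ((β u : ℂˣ) : ℂ) = 0 := by
  classical
  have hexp : HasEnoughRootsOfUnity ℂ (Monoid.exponent A) := by
    have : NeZero (Monoid.exponent A) := ⟨Monoid.exponent_ne_zero_of_finite⟩
    infer_instance
  obtain ⟨β₀, hβ₀⟩ := CommGroup.exists_apply_ne_one_of_hasEnoughRootsOfUnity A ℂ hu
  have h1 : ∑ β : A →* ℂˣ, ((β u : ℂˣ) : ℂ) =
      ((β₀ u : ℂˣ) : ℂ) * ∑ β : A →* ℂˣ, ((β u : ℂˣ) : ℂ) := by
    rw [Finset.mul_sum]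
    rw [← Equiv.sum_comp (Equiv.mulLeft β₀)]
    refine Finset.sum_congr rfl fun β _ => ?_
    change (((β₀ * β) u : ℂˣ) : ℂ) = _
    rw [MonoidHom.mul_apply, Units.val_mul]
  have h2 : ((β₀ u : ℂˣ) : ℂ) - 1 ≠ 0 := by
    intro h
    apply hβ₀
    apply Units.ext
    rw [Units.val_one]
    linear_combination h
  have h3 : (((β₀ u : ℂˣ) : ℂ) - 1) * ∑ β : A →* ℂˣ, ((β u : ℂˣ) : ℂ) = 0 := by
    linear_combination -h1
  exact (mul_eq_zero.1 h3).resolve_left h2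

private lemma beta_finite_chars {A : Type} [CommGroup A] [Finite A] : Finite (A →* ℂˣ) := by
  have hexp : HasEnoughRootsOfUnity ℂ (Monoid.exponent A) := by
    have : NeZero (Monoid.exponent A) := ⟨Monoid.exponent_ne_zero_of_finite⟩
    infer_instance
  obtain ⟨e⟩ := CommGroup.monoidHom_mulEquiv_of_hasEnoughRootsOfUnity A ℂ
  exact Finite.of_equiv A e.symm.toEquiv

variable {G : Type} [Group G] [Finite G] {p : ℕ} [Fact p.Prime] {K Q H : Subgroup G}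

/-- the scalar product on `H` of two characters of `NN K Q` with a common constituent -/
private lemma beta_ip_ne (hL : Loc p K Q H) {ψ ψ' φ : G → ℂ}
    (hψ : ψ ∈ IrrS (NN K Q)) (hψ' : ψ' ∈ IrrS (NN K Q)) (hφ : φ ∈ IrrS H)
    (h : ip H ψ φ ≠ 0) (h' : ip H ψ' φ ≠ 0) : ip H ψ ψ' ≠ 0 := by
  classical
  have hHN : H ≤ NN K Q := le_trans le_sup_right (Loc.sup_le hL)
  haveI : Finite (IrrS H) := (irrS_finite H).to_subtype
  haveI := Fintype.ofFinite (IrrS H)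
  have h1 := ip_trans (le_refl H) hHN hψ ψ'
  rw [finsum_eq_sum_of_fintype] at h1
  have hnat : ∀ θ : IrrS H, ∃ m : ℕ, ip H ψ θ.1 * ip H θ.1 ψ' = (m : ℂ) := by
    intro θ
    obtain ⟨a, ha⟩ := ip_res_nat hHN hψ θ.2
    obtain ⟨b, hb⟩ := ip_res_nat hHN hψ' θ.2
    refine ⟨a * b, ?_⟩
    rw [ha, ip_symm H θ.1 ψ', hb]
    push_cast
    ring
  choose m hm using hnat
  have h2 : ip H ψ ψ' = ((∑ θ : IrrS H, m θ : ℕ) : ℂ) := by
    rw [h1]
    push_cast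
    exact Finset.sum_congr rfl fun θ _ => hm θ
  rw [h2]
  have h3 : m ⟨φ, hφ⟩ ≠ 0 := by
    intro h0
    have h4 := hm ⟨φ, hφ⟩
    rw [h0, Nat.cast_zero, ip_symm H φ ψ'] at h4
    exact (mul_ne_zero h h') h4
  have h5 : 0 < ∑ θ : IrrS H, m θ :=
    lt_of_lt_of_le (Nat.pos_of_ne_zero h3)
      (Finset.single_le_sum (f := m) (fun _ _ => Nat.zero_le _) (Finset.mem_univ _))
  exact_mod_cast h5.ne'

/-- Two irreducible characters `ψ`, `ψ'` of `N = NN K Q` with `Q` in the kernel, both over `φ ∈ Irr H`,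
differ by a linear character `β ∘ π`. Proof: for `β : (ZMod p)ˣ →* ℂˣ` the function `ψ * (β ∘ π)` on
`N` is irreducible (`irr_linTwist`, INC/Red2.lean). The sum over all `β` of `β (π n)` is `p - 1` if
`π n = 1`, i.e. `n ∈ N ⊓ centralizer Q = Q ⊔ H`, and `0` otherwise (characters of the finite abelian group
`(ZMod p)ˣ`), so the sum over `β` of `B (ψ * (β ∘ π)) ψ'` on `N` is `(p - 1) |N|⁻¹` times the sum over
`Q ⊔ H` of `ψ g * ψ' g⁻¹`, which (`Q` in both kernels) is a positive multiple of the inner product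
of the restrictions to `H`. The latter is nonzero: it is the sum over `ρ ∈ IrrS H` of the products
of the multiplicities (natural numbers), the term at `φ` being nonzero. So `B (ψ * (β ∘ π)) ψ' ≠ 0` for
some `β`, and then the two irreducible characters are equal. -/
theorem exists_beta (hL : Loc p K Q H)
    (π : Subgroup.normalizer (Q : Set G) →* (ZMod p)ˣ)
    (hπ : ∀ a, π a = 1 ↔ (a : G) ∈ Subgroup.centralizer (Q : Set G)) {ψ ψ' φ : G → ℂ}
    (hψ : ψ ∈ IrrS (NN K Q)) (hψ' : ψ' ∈ IrrS (NN K Q)) (hq : QKer (NN K Q) Q ψ)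
    (hq' : QKer (NN K Q) Q ψ') (hφ : φ ∈ IrrS H) (h : ip H ψ φ ≠ 0) (h' : ip H ψ' φ ≠ 0) :
    ∃ β : (ZMod p)ˣ →* ℂˣ, ∀ (x : G) (hx : x ∈ NN K Q),
      ψ' x = ψ x * ((β (π ⟨x, (Subgroup.mem_inf.1 hx).2⟩) : ℂˣ) : ℂ) := by
  classical
  have hHN : H ≤ NN K Q := le_trans le_sup_right (Loc.sup_le hL)
  have hQN : Q ≤ NN K Q := le_trans le_sup_left (Loc.sup_le hL)
  haveI := Fintype.ofFinite (NN K Q)
  haveI := Fintype.ofFinite Q
  haveI := Fintype.ofFinite H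
  haveI : Finite ((ZMod p)ˣ →* ℂˣ) := beta_finite_chars
  haveI := Fintype.ofFinite ((ZMod p)ˣ →* ℂˣ)
  let πN : NN K Q →* (ZMod p)ˣ :=
    π.comp (Subgroup.inclusion (inf_le_right : NN K Q ≤ Subgroup.normalizer (Q : Set G)))
  have hπN : ∀ (x : G) (hx : x ∈ NN K Q), πN ⟨x, hx⟩ = π ⟨x, (Subgroup.mem_inf.1 hx).2⟩ :=
    fun x hx => rfl
  by_contra hcon
  push Not at hcon
  have hB : ∀ β : (ZMod p)ˣ →* ℂˣ,
      B (fun x : NN K Q => ((β (πN x) : ℂˣ) : ℂ) * ψ x) (fun x : NN K Q => ψ' x) = 0 := by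
    intro β
    apply B_irr_ne (irr_linTwist (β.comp πN) hψ.1) hψ'.1
    intro heq
    obtain ⟨x, hx, hne⟩ := hcon β
    apply hne
    have h1 := congrFun heq ⟨x, hx⟩
    rw [mul_comm]
    exact h1.symm
  -- membership in the kernel
  have hker : ∀ x : NN K Q, πN x = 1 ↔ (x : G) ∈ Q ⊔ H := by
    intro x
    have h1 : πN x = π ⟨(x : G), (Subgroup.mem_inf.1 x.2).2⟩ := rfl
    rw [h1, hπ, hL.sup]
    exact ⟨fun h2 => Subgroup.mem_inf.2 ⟨(Subgroup.mem_inf.1 x.2).1, h2⟩,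
      fun h2 => (Subgroup.mem_inf.1 h2).2⟩
  -- the sum over the kernel
  have hsum : ∑ x ∈ Finset.univ.filter (fun x : NN K Q => πN x = 1), ψ x * ψ' ((x : G)⁻¹) =
      (Nat.card Q : ℂ) * ((Nat.card H : ℂ) * ip H ψ ψ') := by
    have h1 : ∑ x ∈ Finset.univ.filter (fun x : NN K Q => πN x = 1), ψ x * ψ' ((x : G)⁻¹) =
        ∑ z : Q × H, ψ (z.2 : G) * ψ' ((z.2 : G)⁻¹) := by
      symm
      refine Finset.sum_bij (fun z _ => (⟨(z.1 : G) * (z.2 : G),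
        (NN K Q).mul_mem (hQN z.1.2) (hHN z.2.2)⟩ : NN K Q)) ?_ ?_ ?_ ?_
      · intro z _
        rw [Finset.mem_filter]
        refine ⟨Finset.mem_univ _, ?_⟩
        rw [hker]
        exact (Loc.mem_sup hL).2 ⟨z.1, z.1.2, z.2, z.2.2, rfl⟩
      · intro z _ w _ hzw
        have h2 := congrArg Subtype.val hzw
        obtain ⟨h3, h4⟩ := Loc.mul_inj hL z.1.2 w.1.2 z.2.2 w.2.2 h2
        exact Prod.ext (Subtype.ext h3) (Subtype.ext h4)
      · intro x hx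
        rw [Finset.mem_filter, hker] at hx
        obtain ⟨y, hy, k, hk, he⟩ := (Loc.mem_sup hL).1 hx.2
        exact ⟨(⟨y, hy⟩, ⟨k, hk⟩), Finset.mem_univ _, Subtype.ext he.symm⟩
      · intro z _
        have h2 : ψ ((z.1 : G) * (z.2 : G)) = ψ (z.2 : G) := hq _ z.1.2 _ (hHN z.2.2)
        have h3 : ((z.1 : G) * (z.2 : G))⁻¹ = (z.1 : G)⁻¹ * (z.2 : G)⁻¹ := by
          rw [mul_inv_rev]
          exact (Loc.comm hL (Q.inv_mem z.1.2) (H.inv_mem z.2.2)).symm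
        have h4 : ψ' (((z.1 : G) * (z.2 : G))⁻¹) = ψ' ((z.2 : G)⁻¹) := by
          rw [h3]
          exact hq' _ (Q.inv_mem z.1.2) _ (hHN (H.inv_mem z.2.2))
        change _ = ψ ((z.1 : G) * (z.2 : G)) * ψ' (((z.1 : G) * (z.2 : G))⁻¹)
        rw [h2, h4]
    rw [h1, Fintype.sum_prod_type]
    simp only [Finset.sum_const, Finset.card_univ, nsmul_eq_mul]
    rw [← Nat.card_eq_fintype_card]
    congr 1
    unfold ip
    rw [B_eq, ← mul_assoc, mul_inv_cancel₀, one_mul]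
    · rfl
    · exact_mod_cast (Nat.card_pos (α := H)).ne'
  -- summation over all characters
  have htot : ∑ β : (ZMod p)ˣ →* ℂˣ,
      B (fun x : NN K Q => ((β (πN x) : ℂˣ) : ℂ) * ψ x) (fun x : NN K Q => ψ' x) =
      (Nat.card (NN K Q) : ℂ)⁻¹ * ((Fintype.card ((ZMod p)ˣ →* ℂˣ) : ℂ) *
        ∑ x ∈ Finset.univ.filter (fun x : NN K Q => πN x = 1), ψ x * ψ' ((x : G)⁻¹)) := by
    simp only [B_eq]
    rw [← Finset.mul_sum, Finset.sum_comm]
    congr 1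
    rw [Finset.mul_sum, Finset.sum_filter]
    refine Finset.sum_congr rfl fun x _ => ?_
    have h1 : ∀ β : (ZMod p)ˣ →* ℂˣ, ((β (πN x) : ℂˣ) : ℂ) * ψ x * ψ' ((x⁻¹ : NN K Q) : G) =
        ((β (πN x) : ℂˣ) : ℂ) * (ψ x * ψ' ((x : G)⁻¹)) := by
      intro β
      rw [mul_assoc]
      rfl
    rw [Finset.sum_congr rfl (fun β _ => h1 β), ← Finset.sum_mul]
    by_cases hx : πN x = 1
    · rw [if_pos hx]
      congr 1
      rw [hx]
      simp
    · rw [if_neg hx, beta_sum_chars _ hx, zero_mul]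
  rw [Finset.sum_congr rfl (fun β _ => hB β), Finset.sum_const_zero, hsum] at htot
  have hne := beta_ip_ne hL hψ hψ' hφ h h'
  have h1 : (Nat.card (NN K Q) : ℂ)⁻¹ ≠ 0 :=
    inv_ne_zero (by exact_mod_cast (Nat.card_pos (α := NN K Q)).ne')
  have h2 : (Fintype.card ((ZMod p)ˣ →* ℂˣ) : ℂ) ≠ 0 := by
    exact_mod_cast Fintype.card_ne_zero
  have h3 : (Nat.card Q : ℂ) ≠ 0 := by exact_mod_cast (Nat.card_pos (α := Q)).ne'
  have h4 : (Nat.card H : ℂ) ≠ 0 := by exact_mod_cast (Nat.card_pos (α := H)).ne'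
  exact (mul_ne_zero h1 (mul_ne_zero h2 (mul_ne_zero h3 (mul_ne_zero h4 hne)))) htot.symm

/-- conjugation by elements normalizing a subgroup -/
private lemma beta_conj_mem {N : Subgroup G} {a : G} (ha : a ∈ Subgroup.normalizer (N : Set G))
    {x : G} : x ∈ N ↔ a⁻¹ * x * a ∈ N := by
  have h1 : a * (a⁻¹ * x * a) * a⁻¹ = x := by group
  have h2 := Subgroup.mem_normalizer_iff.1 ha (a⁻¹ * x * a)
  rw [h1] at h2
  exact h2.symm

/-- `π` is invariant under conjugation -/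
private lemma beta_pi_conj (π : Subgroup.normalizer (Q : Set G) →* (ZMod p)ˣ) {a x : G}
    (ha : a ∈ Subgroup.normalizer (Q : Set G)) (hx : x ∈ Subgroup.normalizer (Q : Set G))
    (hax : a⁻¹ * x * a ∈ Subgroup.normalizer (Q : Set G)) :
    π ⟨a⁻¹ * x * a, hax⟩ = π ⟨x, hx⟩ := by
  have h1 : (⟨a⁻¹ * x * a, hax⟩ : Subgroup.normalizer (Q : Set G)) =
      (⟨a, ha⟩ : Subgroup.normalizer (Q : Set G))⁻¹ * ⟨x, hx⟩ * ⟨a, ha⟩ := rfl
  rw [h1, map_mul, map_mul, map_inv, mul_comm, mul_inv_cancel_left]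

/-- If `a` (normalizing `K` and `Q`) fixes `ψ` then it fixes `ψ'`: by `exists_beta` and
`π (a⁻¹ x a) = π x` (the target is commutative). -/
theorem fix_of_fix (hL : Loc p K Q H) {a : G} (haK : a ∈ Subgroup.normalizer (K : Set G))
    (haQ : a ∈ Subgroup.normalizer (Q : Set G)) {ψ ψ' φ : G → ℂ}
    (hψ : ψ ∈ IrrS (NN K Q)) (hψ' : ψ' ∈ IrrS (NN K Q)) (hq : QKer (NN K Q) Q ψ)
    (hq' : QKer (NN K Q) Q ψ') (hφ : φ ∈ IrrS H) (h : ip H ψ φ ≠ 0) (h' : ip H ψ' φ ≠ 0)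
    (hf : cnj a ψ = ψ) : cnj a ψ' = ψ' := by
  obtain ⟨π, hπ⟩ := exists_piQ (p := p) Q hL.cQ
  obtain ⟨β, hβ⟩ := exists_beta hL π hπ hψ hψ' hq hq' hφ h h'
  have haN := norm_NN haK haQ
  funext x
  rw [cnj_apply]
  by_cases hx : x ∈ NN K Q
  · have hax := (beta_conj_mem haN).1 hx
    rw [hβ _ hax, hβ _ hx, beta_pi_conj π haQ (Subgroup.mem_inf.1 hx).2]
    have h1 := congrFun hf x
    rw [cnj_apply] at h1
    rw [h1]
  · have hax : a⁻¹ * x * a ∉ NN K Q := fun h1 => hx ((beta_conj_mem haN).2 h1)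
    rw [hψ'.2 _ hax, hψ'.2 _ hx]

/-- `QKer` is invariant under conjugation, one direction -/
private lemma beta_qker {a : G} (haK : a ∈ Subgroup.normalizer (K : Set G))
    (haQ : a ∈ Subgroup.normalizer (Q : Set G)) {ψ : G → ℂ} (h : QKer (NN K Q) Q ψ) :
    QKer (NN K Q) Q (cnj a ψ) := by
  intro x hx n hn
  rw [cnj_apply, cnj_apply]
  have h1 : a⁻¹ * (x * n) * a = (a⁻¹ * x * a) * (a⁻¹ * n * a) := by group
  rw [h1]
  exact h _ ((beta_conj_mem haQ).1 hx) _ ((beta_conj_mem (norm_NN haK haQ)).1 hn)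

/-- the multiplicity over `φ` -/
private lemma beta_ip (hL : Loc p K Q H) {a m : G}
    (haK : a ∈ Subgroup.normalizer (K : Set G)) (haQ : a ∈ Subgroup.normalizer (Q : Set G))
    {ψ φ : G → ℂ} (hm : m ∈ NN K Q) (hφa : cnj a φ = cnj m φ) (hψ : ψ ∈ IrrS (NN K Q))
    (h : ip H ψ φ ≠ 0) : ip H (cnj a ψ) φ ≠ 0 := by
  have haN := norm_NN haK haQ
  have haH := Loc.norm_H hL haK haQ
  have hmi : m⁻¹ ∈ NN K Q := (NN K Q).inv_mem hm
  have hmH := Loc.norm_H' hL hmi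
  have h1 : ip H (cnj a ψ) (cnj m φ) = ip H ψ φ := by
    rw [← hφa]
    exact ip_cnj haH ψ φ
  have h2 : ip H (cnj m⁻¹ (cnj a ψ)) (cnj m⁻¹ (cnj m φ)) = ip H (cnj a ψ) (cnj m φ) :=
    ip_cnj hmH _ _
  rw [cnj_inv_cnj, cnj_eq_self hmi (cnj_mem_irrS haN hψ), h1] at h2
  rw [h2]
  exact h

/-- The action on these characters is commutative: if `cnj a φ`, `cnj b φ` are in the `NN K Q`-orbit
of `φ`, then `cnj a ψ`, `cnj b ψ` are again characters of `NN K Q` over `φ` with `Q` in the kernel, so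
`cnj a ψ = ψ * (β ∘ π)`, `cnj b ψ = ψ * (β' ∘ π)` on `NN K Q`, and
`cnj a (cnj b ψ) = ψ * (β ∘ π) * (β' ∘ π) = cnj b (cnj a ψ)`. -/
theorem comm_of_ker (hL : Loc p K Q H) {a b m m' : G}
    (haK : a ∈ Subgroup.normalizer (K : Set G)) (haQ : a ∈ Subgroup.normalizer (Q : Set G))
    (hbK : b ∈ Subgroup.normalizer (K : Set G)) (hbQ : b ∈ Subgroup.normalizer (Q : Set G))
    {ψ φ : G → ℂ} (hm : m ∈ NN K Q) (hφa : cnj a φ = cnj m φ) (hm' : m' ∈ NN K Q)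
    (hφb : cnj b φ = cnj m' φ) (hψ : ψ ∈ IrrS (NN K Q)) (hq : QKer (NN K Q) Q ψ)
    (hφ : φ ∈ IrrS H) (h : ip H ψ φ ≠ 0) : cnj a (cnj b ψ) = cnj b (cnj a ψ) := by
  obtain ⟨π, hπ⟩ := exists_piQ (p := p) Q hL.cQ
  have haN := norm_NN haK haQ
  have hbN := norm_NN hbK hbQ
  obtain ⟨β, hβ⟩ := exists_beta hL π hπ hψ (cnj_mem_irrS haN hψ) hq (beta_qker haK haQ hq) hφ h
    (beta_ip hL haK haQ hm hφa hψ h)
  obtain ⟨β', hβ'⟩ := exists_beta hL π hπ hψ (cnj_mem_irrS hbN hψ) hq (beta_qker hbK hbQ hq) hφ h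
    (beta_ip hL hbK hbQ hm' hφb hψ h)
  have hab := cnj_mem_irrS haN (cnj_mem_irrS hbN hψ)
  have hba := cnj_mem_irrS hbN (cnj_mem_irrS haN hψ)
  funext x
  by_cases hx : x ∈ NN K Q
  · have hax := (beta_conj_mem haN).1 hx
    have hbx := (beta_conj_mem hbN).1 hx
    have h1 : cnj a (cnj b ψ) x = cnj a ψ x *
        ((β' (π ⟨x, (Subgroup.mem_inf.1 hx).2⟩) : ℂˣ) : ℂ) := by
      rw [cnj_apply a, hβ' _ hax, beta_pi_conj π haQ (Subgroup.mem_inf.1 hx).2]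
      rfl
    have h2 : cnj b (cnj a ψ) x = cnj b ψ x *
        ((β (π ⟨x, (Subgroup.mem_inf.1 hx).2⟩) : ℂˣ) : ℂ) := by
      rw [cnj_apply b, hβ _ hbx, beta_pi_conj π hbQ (Subgroup.mem_inf.1 hx).2]
      rfl
    rw [h1, h2, hβ x hx, hβ' x hx]
    ring
  · rw [hab.2 _ hx, hba.2 _ hx]

/-- `QKer` is invariant under conjugation by elements normalizing `K` and `Q` -/
theorem qker_cnj {a : G} (haK : a ∈ Subgroup.normalizer (K : Set G))
    (haQ : a ∈ Subgroup.normalizer (Q : Set G)) {ψ : G → ℂ} :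
    QKer (NN K Q) Q (cnj a ψ) ↔ QKer (NN K Q) Q ψ := by
  refine ⟨fun h => ?_, beta_qker haK haQ⟩
  have h1 := beta_qker (K := K) (Q := Q) (Subgroup.inv_mem _ haK) (Subgroup.inv_mem _ haQ) h
  rw [cnj_inv_cnj] at h1
  exact h1

end Pool.Agent.Helper97.S4
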