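import Pool.Agent.Helper42.INC.Clifford2
import Pool.Agent.Helper42.INC.Inflate

/-!
# Project IR, section 4 (S4-06): counting extensions of linear characters

`A` a finite abelian group, `ζ : Z → A` injective, `ν : Z → ℂˣ`. The restriction
`Hom(A, ℂˣ) → Hom(Z, ℂˣ)` along `ζ` is surjective (duality of finite abelian groups, Mathlib
`Mathlib/GroupTheory/FiniteAbelian/Duality.lean`, or divisibility of `ℂˣ`), so all its fibres have
`|Hom(A, ℂˣ)| / |Hom(Z, ℂˣ)| = |A| / |Z|` elements.
-/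

namespace Pool.Agent.Helper97.S4

open Pool.Agent.Helper42.INC

theorem card_extensions {A Z : Type} [CommGroup A] [Finite A] [CommGroup Z] [Finite Z]
    (ζ : Z →* A) (hζ : Function.Injective ζ) (ν : Z →* ℂˣ) :
    Nat.card {l : A →* ℂˣ // ∀ z, l (ζ z) = ν z} * Nat.card Z = Nat.card A := by
  classical
  let R : (A →* ℂˣ) →* (Z →* ℂˣ) :=
    { toFun := fun l => l.comp ζ
      map_one' := rfl
      map_mul' := fun _ _ => rfl }
  have hR : ∀ l z, R l z = l (ζ z) := fun _ _ => rfl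
  have hsurj : Function.Surjective R := by
    intro m
    let e : Z ≃* ζ.range := MonoidHom.ofInjective hζ
    obtain ⟨l, hl⟩ := MonoidHom.domRestrict_surjective ℂ ζ.range (m.comp e.symm.toMonoidHom)
    refine ⟨l, ?_⟩
    apply MonoidHom.ext
    intro z
    have h := DFunLike.congr_fun hl (e z)
    have h1 : (m.comp e.symm.toMonoidHom) (e z) = m z := by
      change m (e.symm (e z)) = m z
      rw [MulEquiv.symm_apply_apply]
    rw [h1] at h
    rw [← h]
    rfl
  have hc : Nat.card (A →* ℂˣ) = Nat.card A :=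
    CommGroup.card_monoidHom_of_hasEnoughRootsOfUnity A ℂ
  have hcZ : Nat.card (Z →* ℂˣ) = Nat.card Z :=
    CommGroup.card_monoidHom_of_hasEnoughRootsOfUnity Z ℂ
  obtain ⟨l₀, hl₀⟩ := hsurj ν
  have hl₀' : ∀ z, l₀ (ζ z) = ν z := fun z => by rw [← hR, hl₀]
  have e : {l : A →* ℂˣ // ∀ z, l (ζ z) = ν z} ≃ R.ker :=
    { toFun := fun l => ⟨l.1 * l₀⁻¹, by
        rw [MonoidHom.mem_ker]
        apply MonoidHom.ext
        intro z
        rw [hR, MonoidHom.mul_apply, MonoidHom.inv_apply, l.2, hl₀', mul_inv_cancel]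
        rfl⟩
      invFun := fun k => ⟨k.1 * l₀, fun z => by
        have h := DFunLike.congr_fun (MonoidHom.mem_ker.1 k.2) z
        rw [hR] at h
        rw [MonoidHom.mul_apply, h, hl₀', MonoidHom.one_apply, one_mul]⟩
      left_inv := fun l => Subtype.ext (inv_mul_cancel_right l.1 l₀)
      right_inv := fun k => Subtype.ext (mul_inv_cancel_right k.1 l₀) }
  rw [Nat.card_congr e, ← hcZ, ← hc]
  have h1 := R.ker.card_mul_index
  rw [Subgroup.index_ker, MonoidHom.range_eq_top.2 hsurj, Subgroup.card_top] at h1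
  exact h1

/-- the one-dimensional representation given by a linear character -/
noncomputable def linRep {Γ : Type} [Group Γ] (l : Γ →* ℂˣ) : Representation ℂ Γ ℂ where
  toFun γ := ((l γ : ℂˣ) : ℂ) • LinearMap.id
  map_one' := by
    ext
    simp
  map_mul' a b := by
    ext
    simp [mul_comm]

lemma linRep_character {Γ : Type} [Group Γ] (l : Γ →* ℂˣ) :
    (linRep l).character = fun γ => ((l γ : ℂˣ) : ℂ) := by
  funext γ
  change LinearMap.trace ℂ ℂ (((l γ : ℂˣ) : ℂ) • LinearMap.id) = _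
  rw [map_smul, LinearMap.trace_id]
  simp

lemma irr_lin {Γ : Type} [Group Γ] [Finite Γ] (l : Γ →* ℂˣ) :
    (fun γ => ((l γ : ℂˣ) : ℂ)) ∈ Irr Γ := by
  rw [← linRep_character]
  apply irr_of_norm_one
  · exact char_isClass _
  · rintro χ ⟨W, _, _, _, τ, _, rfl⟩
    exact B_char _ τ
  · have := Fintype.ofFinite Γ
    rw [B_eq, linRep_character]
    have h1 : ∀ x : Γ, ((l x : ℂˣ) : ℂ) * ((l x⁻¹ : ℂˣ) : ℂ) = 1 := by
      intro x
      rw [← Units.val_mul, ← map_mul, mul_inv_cancel, map_one, Units.val_one]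
    have hk : (Nat.card Γ : ℂ) ≠ 0 := by exact_mod_cast Nat.card_pos.ne'
    simp only [h1, Finset.sum_const, Finset.card_univ, nsmul_eq_mul, mul_one]
    rw [Nat.card_eq_fintype_card] at hk ⊢
    exact inv_mul_cancel₀ hk

/-- irreducible characters of an abelian group are linear -/
lemma irr_comm {X : Type} [CommGroup X] [Finite X] {χ : X → ℂ} (h : χ ∈ Irr X) :
    ∃ l : X →* ℂˣ, χ = fun x => ((l x : ℂˣ) : ℂ) := by
  obtain ⟨ν, hν⟩ := exists_central (MonoidHom.id X)
    (fun c => by rw [Subgroup.mem_center_iff]; intro g; exact mul_comm _ _) h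
  refine ⟨ν, ?_⟩
  have h1 : ∀ x, χ x = (ν x : ℂ) * χ 1 := by
    intro x
    have := hν x 1
    rwa [MonoidHom.id_apply, mul_one] at this
  obtain ⟨n, hn0, hn⟩ := irr_one h
  have h2 := B_irr_self h
  have := Fintype.ofFinite X
  rw [B_eq] at h2
  have h3 : ∀ x : X, χ x * χ x⁻¹ = (n : ℂ) ^ 2 := by
    intro x
    rw [h1 x, h1 x⁻¹, hn]
    have h4 : ((ν x : ℂˣ) : ℂ) * ((ν x⁻¹ : ℂˣ) : ℂ) = 1 := by
      rw [← Units.val_mul, ← map_mul, mul_inv_cancel, map_one, Units.val_one]
    linear_combination (n : ℂ) ^ 2 * h4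
  have hk : (Nat.card X : ℂ) ≠ 0 := by exact_mod_cast Nat.card_pos.ne'
  simp only [h3, Finset.sum_const, Finset.card_univ, nsmul_eq_mul] at h2
  rw [Nat.card_eq_fintype_card] at hk h2
  rw [← mul_assoc, inv_mul_cancel₀ hk, one_mul] at h2
  have h5 : n ^ 2 = 1 := by exact_mod_cast h2
  have h6 : n = 1 := by nlinarith
  funext x
  rw [h1, hn, h6, Nat.cast_one, mul_one]

/-- Irreducible characters invariant under a normal subgroup `I` with abelian quotient are the
linear characters trivial on `I`. (→) If `ψ ∈ Irr Γ` with representation `σ` satisfies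
`ψ (m * γ) = ψ γ` for `m ∈ I`, then `σ m` is the identity for `m ∈ I` (as in `invM_of_B` of the
library: `E = ∑ m ∈ I, σ m` commutes with `σ`, so it is a scalar, the scalar is `|I|` by taking
the character, and `σ m * E = E`), so `σ` factors through the abelian group `Γ ⧸ I`, all `σ γ` commute,
are scalars by Schur, and the dimension is one. (←) clear. -/
theorem irr_inv_iff {Γ : Type} [Group Γ] [Finite Γ] (I : Subgroup Γ) [I.Normal]
    (hab : ∀ a b : Γ, a * b * a⁻¹ * b⁻¹ ∈ I) (ψ : Γ → ℂ) :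
    (ψ ∈ Irr Γ ∧ ∀ m ∈ I, ∀ γ, ψ (m * γ) = ψ γ) ↔
      ∃ l : Γ →* ℂˣ, (∀ m ∈ I, l m = 1) ∧ ψ = fun γ => ((l γ : ℂˣ) : ℂ) := by
  constructor
  · rintro ⟨hψ, hI⟩
    let Q : Type := Γ ⧸ I
    let _ : CommGroup Q :=
      { (inferInstance : Group (Γ ⧸ I)) with
        mul_comm := by
          intro x y
          obtain ⟨a, rfl⟩ := QuotientGroup.mk_surjective x
          obtain ⟨b, rfl⟩ := QuotientGroup.mk_surjective y
          change ((a * b : Γ) : Γ ⧸ I) = ((b * a : Γ) : Γ ⧸ I)
          rw [eq_comm, QuotientGroup.eq]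
          have h := hab a⁻¹ b⁻¹
          have h2 : (b * a)⁻¹ * (a * b) = a⁻¹ * b⁻¹ * (a⁻¹)⁻¹ * (b⁻¹)⁻¹ := by group
          rw [h2]
          exact h }
    have : Finite Q := inferInstanceAs (Finite (Γ ⧸ I))
    let f : Γ →* Q := QuotientGroup.mk' I
    have hf : Function.Surjective f := QuotientGroup.mk'_surjective I
    have hker : f.ker = I := QuotientGroup.ker_mk' I
    have hinv : ∀ k ∈ f.ker, ∀ x, ψ (k * x) = ψ x := by
      intro k hk x
      rw [hker] at hk
      exact hI k hk x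
    obtain ⟨η, hη⟩ := (inflEquiv f hf).surjective ⟨⟨ψ, hψ⟩, hinv⟩
    have hη' : ψ = fun x => η.1 (f x) := (congrArg (fun t => t.1.1) hη).symm
    obtain ⟨l, hl⟩ := irr_comm η.2
    refine ⟨l.comp f, ?_, ?_⟩
    · intro m hm
      have h1 : f m = 1 := by
        rw [← MonoidHom.mem_ker, hker]; exact hm
      rw [MonoidHom.comp_apply, h1, map_one]
    · rw [hη', hl]
      rfl
  · rintro ⟨l, hl, rfl⟩
    refine ⟨irr_lin l, ?_⟩
    intro m hm γ
    simp only [map_mul, hl m hm, one_mul]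

end Pool.Agent.Helper97.S4
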