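import Pool.Agent.Helper97.S4.F1a
import Pool.Agent.Helper42.INC.Star

/-!
# Project IR, section 4 (S4-07): number of characters over a given character, cyclic quotient

Setting: `D : NP M X` (normal subgroup `M` of `X`), `π : X → C` a homomorphism to a cyclic group
with kernel (the image of) `M`, `θ ∈ Irr M`. CLAIM: the number of irreducible characters of `X` over
`θ` times `|M|` is the order of the stabilizer of `θ`.

Proof. Let `ρ = θ.rep`, `Γ = Gam D ρ`, `I = (gamInc D ρ).range` (normal, `gamInc_normal` in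
INC/Star.lean, or directly from `gam_conj`), `Z` the range of `gamSc`, central by
`gamSc_central`. (1) The map `ψ ↦ cliff D ρ ψ` is a bijection from the set `S` of `ψ ∈ Irr Γ` with
`InvM D ρ ψ` and `ScInv D ρ ψ` onto the set of `χ ∈ Irr X` over `θ`: it lands there by `cliff_irr`,
`resHat_one` and `resHat_cliff_self` (the multiplicity of `θ` is `ψ 1 ≠ 0`), it is injective by
`resHat_cliff_self` and surjective by `exists_cliff`.
(2) `Γ ⧸ I` is abelian: the homomorphism `π ∘ gamProj : Γ → C` has kernel `I Z` (if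
`gamProj γ = ι m` then `(gamInc m)⁻¹ γ` is in the kernel of `gamProj`, so in `Z` by `gam_ker`), so
`Γ ⧸ I` modulo the central image of `Z` embeds in the cyclic group `C`
(`commutative_of_cyclic_center_quotient`).
(3) By `irr_inv_iff` and `card_extensions` (for `A = Γ ⧸ I`, `ζ` = the map `Sc → A`, injective since
an element `(ι m, ρ m) = (1, c)` has `m = 1`, and `ν c = c⁻¹`), `|S| * |Sc| = |Γ ⧸ I| = |Γ| / |M|`.
(4) `|Γ| = |ker gamProj| * |range gamProj| = |Sc| * |stabilizer θ|` (`gam_ker`, `range_gamProj`,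
injectivity of `gamSc`).
-/

namespace Pool.Agent.Helper97.S4

open Pool.Agent.Helper42.INC

section aux

variable {M X C : Type} [Group M] [Group X] [Finite M] [Finite X] [Group C]
    [IsCyclic C] (D : NP M X) (π : X →* C) (hπ : π.ker = D.ι.range)
    {V : Type} [AddCommGroup V] [Module ℂ V] [FiniteDimensional ℂ V] (ρ : Representation ℂ M V)
    [hρ : ρ.IsIrreducible]

include hπ in
private lemma star_comm (a b : TStar D ρ) : a * b = b * a := by
  have h1 : ∀ x ∈ (gamInc D ρ).range, (π.comp (gamProj D ρ)) x = 1 := by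
    rintro _ ⟨m, rfl⟩
    rw [MonoidHom.comp_apply, gamProj_inc, ← MonoidHom.mem_ker, hπ]
    exact ⟨m, rfl⟩
  let f : TStar D ρ →* C := QuotientGroup.lift (gamInc D ρ).range (π.comp (gamProj D ρ)) h1
  have hf : f.ker ≤ Subgroup.center (TStar D ρ) := by
    intro x hx
    obtain ⟨γ, rfl⟩ := QuotientGroup.mk'_surjective _ x
    have h2 : π (gamProj D ρ γ) = 1 := hx
    rw [← MonoidHom.mem_ker, hπ] at h2
    obtain ⟨m, hm⟩ := h2
    have h3 : gamProj D ρ ((gamInc D ρ m)⁻¹ * γ) = 1 := by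
      rw [map_mul, map_inv, gamProj_inc, hm, inv_mul_cancel]
    obtain ⟨c, hc⟩ := gam_ker D ρ h3
    have h4 : toStar D ρ γ = scStar D ρ c := by
      have h5 : scStar D ρ c = toStar D ρ ((gamInc D ρ m)⁻¹ * γ) := by
        rw [hc]
        rfl
      have h6 : toStar D ρ (gamInc D ρ m)⁻¹ = 1 := by
        refine (QuotientGroup.eq_one_iff _).2 ?_
        exact Subgroup.inv_mem _ ⟨m, rfl⟩
      rw [h5, map_mul, h6, one_mul]
    change toStar D ρ γ ∈ _
    rw [h4]
    exact scStar_central D ρ c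
  exact (f.isMulCommutative_of_isCyclic_of_ker_le_center hf).is_comm.comm a b

private lemma scStar_inj : Function.Injective (scStar D ρ) := by
  have := nontrivial_of_irr ρ
  refine (injective_iff_map_eq_one _).2 (fun c hc => ?_)
  have h1 : gamSc D ρ c ∈ (gamInc D ρ).range := (QuotientGroup.eq_one_iff _).1 hc
  obtain ⟨m, hm⟩ := h1
  have h2 : D.ι m = 1 := by
    rw [← gamProj_inc D ρ, hm, gamProj_sc]
  have h3 : m = 1 := D.inj (by rw [h2, map_one])
  rw [h3, map_one] at hm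
  have h4 := gamRep_sc D ρ c
  rw [← hm, map_one] at h4
  obtain ⟨v, hv⟩ := exists_ne (0 : V)
  have h5 : v = (c.1 : ℂ) • v := by
    have h6 := congrArg (fun f : V →ₗ[ℂ] V => f v) h4
    exact h6
  have h7 : (1 - (c.1 : ℂ)) • v = 0 := by
    rw [sub_smul, one_smul, ← h5, sub_self]
  rcases smul_eq_zero.1 h7 with h8 | h8
  · apply Subtype.ext
    apply Units.ext
    exact (sub_eq_zero.1 h8).symm
  · exact absurd h8 hv

private noncomputable def toS : {ψ : Irr (Gam D ρ) // InvM D ρ ψ.1 ∧ ScInv D ρ ψ.1} →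
    {χ : Irr X // B (fun m => χ.1 (D.ι m)) ρ.character ≠ 0} := fun ψ =>
  ⟨⟨cliff D ρ ψ.1.1, cliff_irr D ρ ψ.1.2 ψ.2.1 ψ.2.2⟩, by
    change B (fun m => cliff D ρ ψ.1.1 (D.ι m)) ρ.character ≠ 0
    rw [← resHat_one, resHat_cliff_self D ρ ψ.2.1 (Irr.isClass ψ.1.2) ψ.2.2]
    obtain ⟨n, hn0, hn⟩ := irr_one ψ.1.2
    rw [hn]
    exact_mod_cast hn0.ne'⟩

private lemma toS_bij : Function.Bijective (toS D ρ) := by
  constructor
  · rintro ⟨ψ, hψ⟩ ⟨ψ', hψ'⟩ h
    have h1 : cliff D ρ ψ.1 = cliff D ρ ψ'.1 := congrArg (fun t => t.1.1) h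
    have h2 := resHat_cliff_self D ρ hψ.1 (Irr.isClass ψ.2) hψ.2
    have h3 := resHat_cliff_self D ρ hψ'.1 (Irr.isClass ψ'.2) hψ'.2
    apply Subtype.ext
    apply Subtype.ext
    rw [← h2, ← h3, h1]
  · rintro ⟨χ, hχ⟩
    obtain ⟨ψ, h1, h2, h3, h4⟩ := exists_cliff D ρ χ.2 hχ
    refine ⟨⟨⟨ψ, h1⟩, h2, h3⟩, ?_⟩
    apply Subtype.ext
    apply Subtype.ext
    exact h4.symm

private noncomputable def toL (hab : ∀ a b : Gam D ρ, a * b * a⁻¹ * b⁻¹ ∈ (gamInc D ρ).range) :
    {l : TStar D ρ →* ℂˣ // ∀ c, l (scStar D ρ c) = invSc (M := M) (V := V) c} →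
    {ψ : Irr (Gam D ρ) // InvM D ρ ψ.1 ∧ ScInv D ρ ψ.1} := fun l =>
  ⟨⟨fun γ => ((l.1 (toStar D ρ γ) : ℂˣ) : ℂ), by
      refine ((irr_inv_iff (gamInc D ρ).range hab _).2 ⟨l.1.comp (toStar D ρ), ?_, rfl⟩).1
      intro m hm
      rw [MonoidHom.comp_apply]
      have h1 : toStar D ρ m = 1 := (QuotientGroup.eq_one_iff _).2 hm
      rw [h1, map_one]⟩, by
      intro m γ
      change ((l.1 (toStar D ρ (gamInc D ρ m * γ)) : ℂˣ) : ℂ) = _
      have h1 : toStar D ρ (gamInc D ρ m) = 1 := (QuotientGroup.eq_one_iff _).2 ⟨m, rfl⟩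
      rw [map_mul, h1, one_mul], by
      intro c γ
      change ((l.1 (toStar D ρ (gamSc D ρ c * γ)) : ℂˣ) : ℂ) = _
      have h1 : l.1 (toStar D ρ (gamSc D ρ c)) = invSc (M := M) (V := V) c := l.2 c
      rw [map_mul, map_mul, h1, Units.val_mul]
      congr 1
      change ((((c.1 : ℂˣ))⁻¹ : ℂˣ) : ℂ) = _
      rw [Units.val_inv_eq_inv_val]⟩

private lemma toL_bij (hab : ∀ a b : Gam D ρ, a * b * a⁻¹ * b⁻¹ ∈ (gamInc D ρ).range) :
    Function.Bijective (toL D ρ hab) := by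
  constructor
  · rintro ⟨l, hl⟩ ⟨l', hl'⟩ h
    have h1 : (fun γ => ((l (toStar D ρ γ) : ℂˣ) : ℂ)) =
        fun γ => ((l' (toStar D ρ γ) : ℂˣ) : ℂ) := congrArg (fun t => t.1.1) h
    apply Subtype.ext
    apply MonoidHom.ext
    intro x
    obtain ⟨γ, rfl⟩ := QuotientGroup.mk'_surjective _ x
    apply Units.ext
    exact congrFun h1 γ
  · rintro ⟨ψ, hI, hS⟩
    have hI' : ∀ m ∈ (gamInc D ρ).range, ∀ γ, ψ.1 (m * γ) = ψ.1 γ := by
      rintro _ ⟨m, rfl⟩ γ
      exact hI m γ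
    obtain ⟨l, hl1, hl2⟩ := (irr_inv_iff (gamInc D ρ).range hab ψ.1).1 ⟨ψ.2, hI'⟩
    let l' : TStar D ρ →* ℂˣ := QuotientGroup.lift (gamInc D ρ).range l hl1
    have hl' : ∀ γ, l' (toStar D ρ γ) = l γ := fun γ => rfl
    refine ⟨⟨l', fun c => ?_⟩, ?_⟩
    · have h1 := hS c 1
      rw [mul_one, hl2] at h1
      have h2 : ((l (gamSc D ρ c) : ℂˣ) : ℂ) = (c.1 : ℂ)⁻¹ * ((l 1 : ℂˣ) : ℂ) := h1
      rw [map_one, Units.val_one, mul_one] at h2
      apply Units.ext
      change ((l (gamSc D ρ c) : ℂˣ) : ℂ) = ((((c.1 : ℂˣ))⁻¹ : ℂˣ) : ℂ)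
      rw [h2, Units.val_inv_eq_inv_val]
    · apply Subtype.ext
      apply Subtype.ext
      exact hl2.symm

end aux

theorem card_over_abs {M X C : Type} [Group M] [Group X] [Finite M] [Finite X] [Group C]
    [IsCyclic C] (D : NP M X) (π : X →* C) (hπ : π.ker = D.ι.range) (θ : IrrX D) :
    Nat.card {χ : Irr X // B (fun m => χ.1 (D.ι m)) θ.chi ≠ 0} * Nat.card M =
      Nat.card (MulAction.stabilizer X θ) := by
  have hnt := nontrivial_of_irr θ.rep
  have hab : ∀ a b : Gam D θ.rep, a * b * a⁻¹ * b⁻¹ ∈ (gamInc D θ.rep).range := by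
    intro a b
    refine (QuotientGroup.eq_one_iff _).1 ?_
    have h1 := star_comm D π hπ θ.rep (toStar D θ.rep a) (toStar D θ.rep b)
    change toStar D θ.rep (a * b * a⁻¹ * b⁻¹) = 1
    rw [map_mul, map_mul, map_mul, h1, map_inv, map_inv]
    group
  letI : CommGroup (TStar D θ.rep) :=
    { (inferInstance : Group (TStar D θ.rep)) with
      mul_comm := star_comm D π hπ θ.rep }
  have h1 : Nat.card {χ : Irr X // B (fun m => χ.1 (D.ι m)) θ.chi ≠ 0} =
      Nat.card {l : TStar D θ.rep →* ℂˣ // ∀ c, l (scStar D θ.rep c) =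
        invSc (M := M) (V := θ.V) c} := by
    rw [← IrrX.char_rep θ]
    rw [← Nat.card_congr (Equiv.ofBijective _ (toS_bij D θ.rep)),
      ← Nat.card_congr (Equiv.ofBijective _ (toL_bij D θ.rep hab))]
  have h2 := card_extensions (scStar D θ.rep) (scStar_inj D θ.rep) (invSc (M := M) (V := θ.V))
  have h3 : Nat.card (gamInc D θ.rep).range = Nat.card M :=
    (Nat.card_congr (MonoidHom.ofInjective (gamInc_injective D θ.rep)).toEquiv).symm
  have h4 : Nat.card (Gam D θ.rep) = Nat.card (TStar D θ.rep) * Nat.card M := by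
    rw [Subgroup.card_eq_card_quotient_mul_card_subgroup (gamInc D θ.rep).range, h3]
  have h5 : Nat.card (gamProj D θ.rep).ker = Nat.card (Sc M θ.V) := by
    have hinj : Function.Injective (gamSc D θ.rep) := by
      intro a b hab'
      apply scStar_inj D θ.rep
      change toStar D θ.rep (gamSc D θ.rep a) = toStar D θ.rep (gamSc D θ.rep b)
      rw [hab']
    have hr : (gamSc D θ.rep).range = (gamProj D θ.rep).ker := by
      apply le_antisymm
      · rintro _ ⟨c, rfl⟩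
        rw [MonoidHom.mem_ker, gamProj_sc]
      · intro γ hγ
        obtain ⟨c, hc⟩ := gam_ker D θ.rep (MonoidHom.mem_ker.1 hγ)
        exact ⟨c, hc.symm⟩
    rw [← hr]
    exact (Nat.card_congr (MonoidHom.ofInjective hinj).toEquiv).symm
  have h6 : Nat.card (Gam D θ.rep) =
      Nat.card (Sc M θ.V) * Nat.card (MulAction.stabilizer X θ) := by
    rw [← (gamProj D θ.rep).ker.card_mul_index, Subgroup.index_ker, h5, range_gamProj]
  have h7 : 0 < Nat.card (Sc M θ.V) := Nat.card_pos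
  apply Nat.eq_of_mul_eq_mul_left h7
  rw [← h6, h4, ← h2, ← h1]
  ring

end Pool.Agent.Helper97.S4
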