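import Pool.Agent.Helper97.S4.Loc1
import Pool.Agent.Helper97.S4.Shape
import Pool.Agent.Helper97.S4.F1S

/-!
# Project IR, section 4 (S4-21): the exceptional local character in the transitive case
-/

namespace Pool.Agent.Helper97.S4

open Pool.Agent.Helper42.INC Pool.Agent.Helper42.IR

variable {G : Type} [Group G] [Finite G] {p : ℕ} [Fact p.Prime] {K Q H : Subgroup G}

/-- Exactly one character of `N = NN K Q` lies over `prodC Q lam φ` for `lam ≠ oneS Q`: apply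
`card_over_pi` to `Q ⊔ H ≤ NN K Q` with `C = (ZMod p)ˣ` (cyclic) and `π` the restriction of the
homomorphism of `exists_piQ` (its kernel on `NN K Q` is `K ⊓ centralizer Q = Q ⊔ H`; recall
`centralizer Q ≤ normalizer Q`). The stabilizer of `prodC Q lam φ` in `NN K Q` is `Q ⊔ H`: an element
`n` fixing it fixes `lam` (`cnj_prodC`, `prodC_inj`; `cnj n φ ∈ IrrS H` by `Loc.norm_H'`), so `n`
centralizes `Q` (`stab_lam`); conversely `cnj_eq_self`. -/
theorem card_over_prodC (hL : Loc p K Q H) {lam φ : G → ℂ} (hl : lam ∈ IrrS Q)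
    (h1 : lam ≠ oneS Q) (hφ : φ ∈ IrrS H) :
    Nat.card {ψ : G → ℂ // ψ ∈ IrrS (NN K Q) ∧ ip (Q ⊔ H) ψ (prodC Q lam φ) ≠ 0} = 1 := by
  have hle : Q ⊔ H ≤ NN K Q := Loc.sup_le hL
  have hnorm : NN K Q ≤ Subgroup.normalizer ((Q ⊔ H : Subgroup G) : Set G) := by
    intro a ha
    exact Loc.norm_sup hL (Subgroup.le_normalizer ha.1) ha.2
  obtain ⟨π, hπ⟩ := exists_piQ (p := p) Q hL.cQ
  have hmem := prodC_mem hL hl hφ
  have hker : ∀ x : NN K Q, (π.comp (Subgroup.inclusion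
      (inf_le_right : NN K Q ≤ Subgroup.normalizer (Q : Set G)))) x = 1 ↔ (x : G) ∈ Q ⊔ H := by
    intro x
    rw [MonoidHom.comp_apply, hπ, hL.sup]
    constructor
    · intro h
      exact ⟨x.2.1, h⟩
    · intro h
      exact h.2
  have hcard := card_over_pi hle hnorm (π.comp (Subgroup.inclusion
      (inf_le_right : NN K Q ≤ Subgroup.normalizer (Q : Set G)))) hker hmem
  have hst : (NN K Q ⊓ stab (prodC Q lam φ) : Subgroup G) = Q ⊔ H := by
    ext n
    constructor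
    · rintro ⟨hn, hs⟩
      have hs' : cnj n (prodC Q lam φ) = prodC Q lam φ := hs
      rw [cnj_prodC Q hn.2 lam φ] at hs'
      have h2 := prodC_inj hL (cnj_mem_irrS hn.2 hl) hl
        (cnj_mem_irrS (Loc.norm_H' hL hn) hφ) hφ hs'
      rw [hL.sup]
      exact ⟨hn.1, stab_lam hL hl h1 hn.2 h2.1⟩
    · intro hn
      exact ⟨hle hn, cnj_eq_self hn hmem⟩
  rw [hst] at hcard
  have hpos : 0 < Nat.card (Q ⊔ H : Subgroup G) := Nat.card_pos
  exact Nat.eq_of_mul_eq_mul_right hpos (by rw [hcard, one_mul])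

/-- In the transitive case there is exactly one `ψ₀ ∈ BB p (NN K Q) Q H φ` without `Q` in the kernel.
Let `lam` be nontrivial (`exists_ne_oneS`) and `ψ₀` the unique character over `prodC Q lam φ`
(`card_over_prodC`). Existence: `Q` is not in the kernel of `ψ₀` (otherwise
`ip (Q ⊔ H) ψ₀ (prodC Q lam φ)` would be a multiple of the sum of `lam x⁻¹` over `Q`, zero by
`sum_lam`), so `aa Q H ψ₀ lam φ = ip (Q ⊔ H) ψ₀ (prodC Q lam φ) ≠ 0` by `aa_not_qker`, and the degree is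
prime to `p` by `Pkg.def0`. Uniqueness: a `ψ` in the block without `Q` in the kernel has (`local_types`)
`ip (Q ⊔ H) ψ (prodC Q l0 φ) ≠ 0` for some `l0`, and `l0` is conjugate to `lam` by an element `n` of
`NN K Q` fixing `φ`; by `ip_cnj_right` and `cnj_prodC` the character `ψ` lies over `prodC Q lam φ`. -/
theorem exists_unique_exc (hL : Loc p K Q H) (hPN : Pkg p (NN K Q) Q H) {φ : G → ℂ}
    (hφ : φ ∈ IrrS H) (hT : Tr K Q φ) :
    ∃! ψ : G → ℂ, ψ ∈ BB p (NN K Q) Q H φ ∧ ¬ QKer (NN K Q) Q ψ := by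
  have hle : Q ⊔ H ≤ NN K Q := Loc.sup_le hL
  have hHle : H ≤ NN K Q := le_trans le_sup_right hle
  have hnorm : NN K Q ≤ Subgroup.normalizer ((Q ⊔ H : Subgroup G) : Set G) := by
    intro a ha
    exact Loc.norm_sup hL (Subgroup.le_normalizer ha.1) ha.2
  obtain ⟨lam, hl, h1⟩ := exists_ne_oneS hL
  have hc := card_over_prodC hL hl h1 hφ
  rw [Nat.card_eq_one_iff_unique] at hc
  obtain ⟨hsub, ⟨ψ, hψ, hip⟩⟩ := hc
  have hnq : ¬ QKer (NN K Q) Q ψ := by
    intro hq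
    have e1 := aa_qker (φ := φ) hL hq hl h1
    have e2 := aa_eq_ip (lam := lam) hL hφ ψ
    have e3 : ip (Q ⊔ H) ψ (prodC Q (oneS Q) φ) = 0 := by
      by_contra hne
      obtain ⟨k, hk, hke⟩ := clifford hle hnorm hψ (prodC_mem hL (oneS_mem Q) hφ)
        (prodC_mem hL hl hφ) hne hip
      rw [cnj_prodC Q hk.2] at hke
      have h2 := prodC_inj hL (cnj_mem_irrS hk.2 (oneS_mem Q)) hl
        (cnj_mem_irrS (Loc.norm_H' hL hk) hφ) hφ hke
      rw [cnj_oneS hk.2] at h2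
      exact h1 h2.1.symm
    obtain ⟨m, hm⟩ := ip_res_nat hle hψ (prodC_mem hL hl hφ)
    obtain ⟨n, hn⟩ := ip_res_nat hHle hψ hφ
    rw [e1, e3, sub_zero, hm, hn] at e2
    have e4 : ((n + m : ℕ) : ℂ) = 0 := by
      push_cast
      rw [← e2]
      ring
    have e5 : n + m = 0 := by exact_mod_cast e4
    have e6 : m = 0 := by omega
    rw [hm, e6] at hip
    exact hip (by simp)
  have haa : aa Q H ψ lam φ ≠ 0 := by
    rw [aa_not_qker hL hψ hnq hφ]
    exact hip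
  have hbl : Bl Q H ψ φ := ⟨lam, hl, haa⟩
  have hdeg : ¬ p ∣ deg ψ := fun hd => hPN.def0 ψ hψ hd φ hφ hbl
  refine ⟨ψ, ⟨⟨⟨hψ, hdeg⟩, hbl⟩, hnq⟩, ?_⟩
  rintro ψ' ⟨⟨hψ', hbl'⟩, hnq'⟩
  rcases local_types hL hPN hψ' hφ hbl' with ⟨hq, _⟩ | ⟨_, l0, hl0, h10, _, hip'⟩
  · exact absurd hq hnq'
  · obtain ⟨n, hn, hnφ, hnl⟩ := hT l0 hl0 lam hl h10 h1
    have e1 := ip_cnj_right hnorm hψ'.1 hn (prodC Q l0 φ)
    rw [cnj_prodC Q hn.2, hnφ, hnl] at e1
    have hip2 : ip (Q ⊔ H) ψ' (prodC Q lam φ) ≠ 0 := by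
      rw [e1]
      exact hip'
    have := hsub.elim ⟨ψ', hψ'.1, hip2⟩ ⟨ψ, hψ, hip⟩
    exact congrArg Subtype.val this

end Pool.Agent.Helper97.S4
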