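import Pool.Agent.Helper97.S4.FixFull
import Pool.Agent.Helper97.S4.Beta
import Pool.Agent.Helper97.S4.Uniq
import Pool.Agent.Helper97.S4.Gset

/-!
# Project IR, section 4 (S4-25): equivariant bijections of the fibres of the support map
-/

open scoped Pointwise

namespace Pool.Agent.Helper97.S4

open Pool.Agent.Helper42.INC Pool.Agent.Helper42.IR

attribute [local instance] cnjAct

variable {G : Type} [Group G] [Finite G] {p : ℕ} [Fact p.Prime] {K Q H : Subgroup G}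

theorem bl_of_full (hL : Loc p K Q H) {χ φ : G → ℂ} (h : Full Q H χ φ) : Bl Q H χ φ := by
  obtain ⟨lam, hl, h1⟩ := exists_ne_oneS hL
  exact ⟨lam, hl, h lam hl h1⟩

/-- in the nontransitive case -/
theorem qker_of_full (hL : Loc p K Q H) (hPN : Pkg p (NN K Q) Q H) {φ : G → ℂ} (hφ : φ ∈ IrrS H)
    (hT : ¬ Tr K Q φ) {ψ : G → ℂ} (hψ : ψ ∈ FF p (NN K Q) Q H φ) :
    QKer (NN K Q) Q ψ ∧ ip H ψ φ ≠ 0 := by
  rcases local_types hL hPN hψ.1 hφ (bl_of_full hL hψ.2) with ⟨h1, _, h3⟩ |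
    ⟨_, l0, hl0, h0, h1, _⟩
  · exact ⟨h1, h3⟩
  · exfalso
    apply hT
    have key : ∀ lam ∈ IrrS Q, lam ≠ oneS Q → Cj K Q φ l0 lam := by
      intro lam hl hl1
      by_contra hc
      exact hψ.2 lam hl hl1 ((h1 lam hl hl1).2 hc)
    intro lam hl lam' hl' h h'
    exact Cj_trans (Cj_symm (key lam hl h)) (key lam' hl' h')

/-- Characters with full support over `φ`. Let `S ≤ normalizer K ⊓ normalizer Q` be a subgroup all of
whose elements `a` move `φ` inside its `NN K Q`-orbit. Then there is an `S`-equivariant bijection from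
`FF p K Q H φ` to `FF p (NN K Q) Q H φ`. Both sets are finite and `S`-stable (`BB_stable`), and each
`a ∈ S` has the same number of fixed points on both (`fix_full`).
Nontransitive case: every `ψ ∈ FF p (NN K Q) Q H φ` has `Q` in the kernel and `ip H ψ φ ≠ 0`: in the
second case of `local_types` the support over `φ` is the orbit of `l0` only, not everything
(if it were everything, all nontrivial characters of `Q` would be conjugate to `l0`, so `Tr`). By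
`fix_of_fix` each `a ∈ S` acts on `FF p (NN K Q) Q H φ` trivially or without fixed points; use `iso_free`.
Transitive case: `FF = BB` for `NN K Q` (`BB_eq_FF`), let `y₀` be the unique element without `Q` in the
kernel (`exists_unique_exc`); it is fixed by `S` (`qker_cnj`, `BB_stable`), the others have `Q` in the
kernel and `ip H ψ φ ≠ 0` (`local_types`); the action is commutative by `comm_of_ker`, and the
dichotomy off `y₀` is `fix_of_fix`; use `iso_free_one`. -/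
theorem full_iso (hP : ∀ K' Q' H' : Subgroup G, Loc p K' Q' H' → Pkg p K' Q' H')
    (hL : Loc p K Q H) {φ : G → ℂ} (hφ : φ ∈ IrrS H) (S : Subgroup G)
    (hSK : ∀ a ∈ S, a ∈ Subgroup.normalizer (K : Set G))
    (hSQ : ∀ a ∈ S, a ∈ Subgroup.normalizer (Q : Set G))
    (hSφ : ∀ a ∈ S, ∃ m ∈ NN K Q, cnj a φ = cnj m φ) :
    ∃ F : (G → ℂ) → (G → ℂ), Set.BijOn F (FF p K Q H φ) (FF p (NN K Q) Q H φ) ∧
      ∀ a ∈ S, ∀ χ ∈ FF p K Q H φ, F (cnj a χ) = cnj a (F χ) := by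
  have hPK : Pkg p K Q H := hP K Q H hL
  have hLN : Loc p (NN K Q) Q H := Loc.nn hL
  have hPN : Pkg p (NN K Q) Q H := hP _ Q H hLN
  have hX : (FF p K Q H φ).Finite := (irrS_finite K).subset fun χ hχ => hχ.1.1
  have hY : (FF p (NN K Q) Q H φ).Finite := (irrS_finite (NN K Q)).subset fun χ hχ => hχ.1.1
  have hSX : ∀ s ∈ S, ∀ x ∈ FF p K Q H φ, s • x ∈ FF p K Q H φ := by
    intro s hs x hx
    obtain ⟨m, hm, hma⟩ := hSφ s hs
    exact (BB_stable hL hPK (hSK s hs) (hSQ s hs) hm hma).2.1 x hx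
  have hBY : ∀ s ∈ S, ∀ x ∈ BB p (NN K Q) Q H φ, cnj s x ∈ BB p (NN K Q) Q H φ := by
    intro s hs x hx
    obtain ⟨m, hm, hma⟩ := hSφ s hs
    exact (BB_stable hLN hPN (norm_NN (hSK s hs) (hSQ s hs)) (hSQ s hs)
      (by rw [NN_NN]; exact hm) hma).1 x hx
  have hSY : ∀ s ∈ S, ∀ x ∈ FF p (NN K Q) Q H φ, s • x ∈ FF p (NN K Q) Q H φ := by
    intro s hs x hx
    obtain ⟨m, hm, hma⟩ := hSφ s hs
    exact (BB_stable hLN hPN (norm_NN (hSK s hs) (hSQ s hs)) (hSQ s hs)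
      (by rw [NN_NN]; exact hm) hma).2.1 x hx
  have hfix : ∀ s ∈ S, Nat.card {x : G → ℂ // x ∈ FF p K Q H φ ∧ s • x = x} =
      Nat.card {y : G → ℂ // y ∈ FF p (NN K Q) Q H φ ∧ s • y = y} := by
    intro s hs
    obtain ⟨m, hm, hma⟩ := hSφ s hs
    exact fix_full hP hL hφ (hSK s hs) (hSQ s hs) hm hma
  by_cases hT : Tr K Q φ
  · have hFB : BB p (NN K Q) Q H φ = FF p (NN K Q) Q H φ :=
      BB_eq_FF hLN hPN hφ ((Tr_NN K Q φ).2 hT)
    obtain ⟨y₀, ⟨hy₀, hq₀⟩, huniq⟩ := exists_unique_exc hL hPN hφ hT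
    have hfy₀ : ∀ s ∈ S, cnj s y₀ = y₀ := by
      intro s hs
      exact huniq _ ⟨hBY s hs y₀ hy₀, fun hc => hq₀ ((qker_cnj (hSK s hs) (hSQ s hs)).1 hc)⟩
    have hoth : ∀ y ∈ FF p (NN K Q) Q H φ, y ≠ y₀ → QKer (NN K Q) Q y ∧ ip H y φ ≠ 0 := by
      intro y hy hne
      have hq : QKer (NN K Q) Q y := by
        by_contra hc
        exact hne (huniq y ⟨by rw [hFB]; exact hy, hc⟩)
      rcases local_types hL hPN hy.1 hφ (bl_of_full hL hy.2) with ⟨_, _, h3⟩ | ⟨h1, _⟩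
      · exact ⟨hq, h3⟩
      · exact absurd hq h1
    refine iso_free_one S _ _ hX hY hSX hSY hfix (y₀ := y₀) (by rw [← hFB]; exact hy₀) hfy₀ ?_ ?_
    · intro s hs t ht y hy
      change cnj s (cnj t y) = cnj t (cnj s y)
      by_cases hne : y = y₀
      · rw [hne, hfy₀ t ht, hfy₀ s hs, hfy₀ t ht]
      · obtain ⟨hq, hip⟩ := hoth y hy hne
        obtain ⟨m, hm, hma⟩ := hSφ s hs
        obtain ⟨m', hm', hma'⟩ := hSφ t ht
        exact comm_of_ker hL (hSK s hs) (hSQ s hs) (hSK t ht) (hSQ t ht) hm hma hm' hma'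
          hy.1.1 hq hφ hip
    · intro s hs
      by_cases hc : ∀ y ∈ FF p (NN K Q) Q H φ, y ≠ y₀ → s • y ≠ y
      · exact Or.inr hc
      · left
        push Not at hc
        obtain ⟨y, hy, hne, hfy⟩ := hc
        intro y' hy'
        by_cases hne' : y' = y₀
        · rw [hne']; exact hfy₀ s hs
        · obtain ⟨hq, hip⟩ := hoth y hy hne
          obtain ⟨hq', hip'⟩ := hoth y' hy' hne'
          exact fix_of_fix hL (hSK s hs) (hSQ s hs) hy.1.1 hy'.1.1 hq hq' hφ hip hip' hfy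
  · refine iso_free S _ _ hX hY hSX hSY hfix ?_
    intro s hs
    by_cases hc : ∀ y ∈ FF p (NN K Q) Q H φ, s • y ≠ y
    · exact Or.inr hc
    · left
      push Not at hc
      obtain ⟨y, hy, hfy⟩ := hc
      intro y' hy'
      obtain ⟨hq, hip⟩ := qker_of_full hL hPN hφ hT hy
      obtain ⟨hq', hip'⟩ := qker_of_full hL hPN hφ hT hy'
      exact fix_of_fix hL (hSK s hs) (hSQ s hs) hy.1.1 hy'.1.1 hq hq' hφ hip hip' hfy

theorem Sp_aa' {χ ψ : G → ℂ} (h : Sp Q H ψ = Sp Q H χ) {φ lam : G → ℂ} (hφ : φ ∈ IrrS H)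
    (hl : lam ∈ IrrS Q) : aa Q H ψ lam φ ≠ 0 ↔ aa Q H χ lam φ ≠ 0 := by
  have h1 : (φ, lam) ∈ Sp Q H ψ ↔ (φ, lam) ∈ Sp Q H χ := by rw [h]
  exact ⟨fun h2 => (h1.1 ⟨hφ, hl, h2⟩).2.2, fun h2 => (h1.2 ⟨hφ, hl, h2⟩).2.2⟩

/-- The fibres of the support map. Let `K` be normalized by `normalizer Q` (in the application `K` is
normal). If both fibres over `z` are empty any map works. Otherwise some `χ` in `IrrSP p K` or in
`IrrSP p (NN K Q)` has support `z`; it is nice (`nice_K`, `nice_N`), let `φ` with `Bl Q H χ φ`.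
If `Full Q H χ φ` then both fibres are the sets `FF` (`Sp_eq_iff_full`, `nice_K`, `nice_N`), the
stabilizer of `z` in `normalizer Q` satisfies the hypothesis of `full_iso`: if `a • z = z` then for
`(φ, lam) ∈ z`, `(cnj a φ, cnj a lam) ∈ z`, so `Bl Q H χ (cnj a φ)` and `Nice.one` gives
`m ∈ NN K Q` with `cnj m φ = cnj a φ`. Use `full_iso` for `S = normalizer Q ⊓ stabilizer G z`.
If not full, both fibres are singletons: they are subsets of `EE _ Q H φ` with at most one element by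
`EE_Sp_inj`, and nonempty by `EE_match` (and the membership of `χ`; note that supports determine
membership in the block and fullness). The unique map between singletons is equivariant for the
stabilizer of `z`, since `cnj a` maps each fibre to itself (`Sp_cnj`, `cnj_mem_irrSP`). -/
theorem fibre (hP : ∀ K' Q' H' : Subgroup G, Loc p K' Q' H' → Pkg p K' Q' H')
    (hL : Loc p K Q H)
    (hK : ∀ a ∈ Subgroup.normalizer (Q : Set G), a ∈ Subgroup.normalizer (K : Set G))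
    (z : Set ((G → ℂ) × (G → ℂ))) :
    ∃ F : (G → ℂ) → (G → ℂ),
      Set.BijOn F {χ | χ ∈ IrrSP p K ∧ Sp Q H χ = z} {ψ | ψ ∈ IrrSP p (NN K Q) ∧ Sp Q H ψ = z} ∧
      ∀ a ∈ Subgroup.normalizer (Q : Set G), a • z = z → ∀ χ ∈ IrrSP p K, Sp Q H χ = z →
        F (cnj a χ) = cnj a (F χ) := by
  have hPK : Pkg p K Q H := hP K Q H hL
  have hLN : Loc p (NN K Q) Q H := Loc.nn hL
  have hPN : Pkg p (NN K Q) Q H := hP _ Q H hLN
  by_cases hemp : (∀ χ, ¬ (χ ∈ IrrSP p K ∧ Sp Q H χ = z)) ∧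
      ∀ ψ, ¬ (ψ ∈ IrrSP p (NN K Q) ∧ Sp Q H ψ = z)
  · refine ⟨id, ?_, ?_⟩
    · refine ⟨fun χ hχ => (hemp.1 χ hχ).elim, fun χ hχ => (hemp.1 χ hχ).elim,
        fun ψ hψ => (hemp.2 ψ hψ).elim⟩
    · intro a _ _ χ hχ hz
      exact (hemp.1 χ ⟨hχ, hz⟩).elim
  have h0 : ∃ χ₀, Nice K Q H χ₀ ∧ Sp Q H χ₀ = z := by
    by_contra hcon
    apply hemp
    refine ⟨fun χ hχ => hcon ⟨χ, nice_K hL hPK hχ.1, hχ.2⟩,
      fun ψ hψ => hcon ⟨ψ, nice_N hL hPN hψ.1, hψ.2⟩⟩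
  obtain ⟨χ₀, hn₀, hz₀⟩ := h0
  obtain ⟨φ, hφ, hb⟩ := hn₀.blk
  have hstabK : ∀ a ∈ Subgroup.normalizer (Q : Set G), a • z = z → ∀ χ ∈ IrrSP p K,
      Sp Q H χ = z → cnj a χ ∈ IrrSP p K ∧ Sp Q H (cnj a χ) = z := by
    intro a ha haz χ hχ hz
    refine ⟨cnj_mem_irrSP (hK a ha) hχ, ?_⟩
    rw [Sp_cnj hL (hK a ha) ha, hz, haz]
  have hstabN : ∀ a ∈ Subgroup.normalizer (Q : Set G), a • z = z → ∀ χ ∈ IrrSP p (NN K Q),
      Sp Q H χ = z → cnj a χ ∈ IrrSP p (NN K Q) ∧ Sp Q H (cnj a χ) = z := by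
    intro a ha haz χ hχ hz
    refine ⟨cnj_mem_irrSP (norm_NN (hK a ha) ha) hχ, ?_⟩
    rw [Sp_cnj hL (hK a ha) ha, hz, haz]
  by_cases hf : Full Q H χ₀ φ
  · have hA : {χ | χ ∈ IrrSP p K ∧ Sp Q H χ = z} = FF p K Q H φ := by
      ext χ
      constructor
      · rintro ⟨h1, h2⟩
        exact ⟨h1, (Sp_eq_iff_full hL hφ hn₀ (nice_K hL hPK h1) hf).1 (h2.trans hz₀.symm)⟩
      · rintro ⟨h1, h2⟩
        exact ⟨h1, ((Sp_eq_iff_full hL hφ hn₀ (nice_K hL hPK h1) hf).2 h2).trans hz₀⟩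
    have hB : {ψ | ψ ∈ IrrSP p (NN K Q) ∧ Sp Q H ψ = z} = FF p (NN K Q) Q H φ := by
      ext χ
      constructor
      · rintro ⟨h1, h2⟩
        exact ⟨h1, (Sp_eq_iff_full hL hφ hn₀ (nice_N hL hPN h1) hf).1 (h2.trans hz₀.symm)⟩
      · rintro ⟨h1, h2⟩
        exact ⟨h1, ((Sp_eq_iff_full hL hφ hn₀ (nice_N hL hPN h1) hf).2 h2).trans hz₀⟩
    obtain ⟨F, hF, hF2⟩ := full_iso hP hL hφ
      (Subgroup.normalizer (Q : Set G) ⊓ MulAction.stabilizer G z)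
      (fun a ha => hK a ha.1) (fun a ha => ha.1) (by
        intro a ha
        have haz : a • z = z := ha.2
        obtain ⟨lam, hl, hlam⟩ := hb
        have h1 : ((φ, lam) : (G → ℂ) × (G → ℂ)) ∈ z := by
          rw [← hz₀]
          exact ⟨hφ, hl, hlam⟩
        have h2 : (a • ((φ, lam) : (G → ℂ) × (G → ℂ))) ∈ a • z := Set.smul_mem_smul_set h1
        rw [haz] at h2
        have h3 : ((cnj a φ, cnj a lam) : (G → ℂ) × (G → ℂ)) ∈ Sp Q H χ₀ := by
          rw [hz₀]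
          exact h2
        obtain ⟨h4, h5, h6⟩ := h3
        obtain ⟨m, hm, h7⟩ := hn₀.one φ hφ (cnj a φ) h4 ⟨lam, hl, hlam⟩ ⟨_, h5, h6⟩
        exact ⟨m, hm, h7.symm⟩)
    refine ⟨F, by rw [hA, hB]; exact hF, ?_⟩
    intro a ha haz χ hχ hz
    refine hF2 a ⟨ha, haz⟩ χ ?_
    rw [← hA]
    exact ⟨hχ, hz⟩
  · have hEE : ∀ {K' : Subgroup G} {χ : G → ℂ}, χ ∈ IrrSP p K' → Sp Q H χ = z →
        χ ∈ EE p K' Q H φ := by
      intro K' χ hχ hz
      have hs : Sp Q H χ = Sp Q H χ₀ := hz.trans hz₀.symm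
      refine ⟨⟨hχ, ?_⟩, ?_⟩
      · obtain ⟨lam, hl, hlam⟩ := hb
        exact ⟨lam, hl, (Sp_aa' hs hφ hl).2 hlam⟩
      · intro hc
        exact hf fun lam hl h1 => (Sp_aa' hs hφ hl).1 (hc lam hl h1)
    obtain ⟨g, hg, hg2⟩ := EE_match hL hPK hPN hφ
    have hmaps : ∀ χ ∈ IrrSP p K, Sp Q H χ = z →
        g χ ∈ IrrSP p (NN K Q) ∧ Sp Q H (g χ) = z := by
      intro χ hχ hz
      have h1 := hEE hχ hz
      exact ⟨(hg.mapsTo h1).1.1, (hg2 χ h1).trans hz⟩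
    refine ⟨g, ⟨fun χ hχ => hmaps χ hχ.1 hχ.2, ?_, ?_⟩, ?_⟩
    · exact hg.injOn.mono fun χ hχ => hEE hχ.1 hχ.2
    · intro ψ hψ
      obtain ⟨χ, hχ, rfl⟩ := hg.surjOn (hEE hψ.1 hψ.2)
      exact ⟨χ, ⟨hχ.1.1, (hg2 χ hχ).symm.trans hψ.2⟩, rfl⟩
    · intro a ha haz χ hχ hz
      obtain ⟨h1, h2⟩ := hstabK a ha haz χ hχ hz
      obtain ⟨h3, h4⟩ := hmaps _ h1 h2
      obtain ⟨h5, h6⟩ := hmaps χ hχ hz
      obtain ⟨h7, h8⟩ := hstabN a ha haz _ h5 h6
      exact EE_Sp_inj hLN hPN hφ (hEE h3 h4) (hEE h7 h8) (h4.trans h8.symm)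

end Pool.Agent.Helper97.S4
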