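import Pool.Agent.Helper97.S4.AAx

/-!
# Project IR, section 4 (S4-18): products of characters of `Q` and `H`

`prodC Q lam φ g = ∑ x ∈ Q, lam x * φ (x⁻¹ g)`; since `φ` vanishes off `H` and `Q ⊓ H = ⊥`, this is
`lam x * φ h` for `g = x h` and `0` off `Q ⊔ H`. The group `C = Q ⊔ H` is the direct product of `Q` and
`H` (`Loc.mem_sup`, `Loc.mul_inj`, `Loc.comm`). `Q` has prime order, so its irreducible characters
are linear.
-/

namespace Pool.Agent.Helper97.S4

open Pool.Agent.Helper42.INC Pool.Agent.Helper42.IR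

variable {G : Type} [Group G] [Finite G] {p : ℕ} [Fact p.Prime] {K Q H : Subgroup G}

/-- irreducible characters of commutative groups are linear -/
private lemma pcx_comm_lin {A : Type} [Group A] [Finite A] (hc : ∀ x y : A, x * y = y * x) {χ : A → ℂ} (h : χ ∈ Irr A) :
    χ 1 = 1 ∧ ∀ x y, χ (x * y) = χ x * χ y := by
  classical
  have hA := Fintype.ofFinite A
  obtain ⟨n, hn, hn1⟩ := irr_one h
  have hBself := B_irr_self h
  obtain ⟨V, _, _, _, ρ, hρ, rfl⟩ := h
  have hfr : (Module.finrank ℂ V : ℂ) = n := by rw [← hn1, Representation.char_one]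
  have hfr' : Module.finrank ℂ V = n := by exact_mod_cast hfr
  have hV : Nontrivial V := by
    apply Module.nontrivial_of_finrank_pos (R := ℂ)
    rw [hfr']; exact hn
  have hsc : ∀ g : A, ∃ c : ℂ, ρ g = c • (LinearMap.id : V →ₗ[ℂ] V) := by
    intro g
    let F : Representation.IntertwiningMap ρ ρ := ⟨ρ g, fun h => by
      have h1 : ρ (g * h) = ρ (h * g) := by rw [hc]
      rw [map_mul, map_mul] at h1
      exact h1⟩
    obtain ⟨c, hcc⟩ :=
      (Representation.IsIrreducible.algebraMap_intertwiningMap_bijective_of_isAlgClosed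
        (ρ := ρ)).2 F
    refine ⟨c, ?_⟩
    have : F.toLinearMap = c • LinearMap.id := by
      rw [← hcc]; rfl
    exact this
  choose c hcc using hsc
  have hid : (LinearMap.id : V →ₗ[ℂ] V) ≠ 0 := by
    obtain ⟨v, hv⟩ := exists_ne (0 : V)
    intro h0
    exact hv (by simpa using LinearMap.congr_fun h0 v)
  have hinj : ∀ a b : ℂ, a • (LinearMap.id : V →ₗ[ℂ] V) = b • (LinearMap.id : V →ₗ[ℂ] V) →
      a = b := fun a b hab => smul_left_injective ℂ hid hab
  have hmul : ∀ x y, c (x * y) = c x * c y := by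
    intro x y
    apply hinj
    rw [← hcc, map_mul, hcc x, hcc y]
    ext v
    simp only [Module.End.mul_apply, LinearMap.smul_apply, LinearMap.id_coe, id_eq, smul_smul]
  have hone : c 1 = 1 := by
    apply hinj
    rw [← hcc, map_one, one_smul]
    rfl
  have hchar : ∀ x, ρ.character x = c x * n := by
    intro x
    unfold Representation.character
    rw [hcc x, map_smul, LinearMap.trace_id, smul_eq_mul, hfr]
  have hn2 : (n : ℂ) * n = 1 := by
    rw [B_eq] at hBself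
    have h1 : ∀ x ∈ (Finset.univ : Finset A), ρ.character x * ρ.character x⁻¹ = (n : ℂ) * n := by
      intro x _
      rw [hchar, hchar]
      have h2 : c x * c x⁻¹ = 1 := by rw [← hmul, mul_inv_cancel, hone]
      calc c x * (n : ℂ) * (c x⁻¹ * n) = (c x * c x⁻¹) * (n * n) := by ring
        _ = n * n := by rw [h2, one_mul]
    rw [Finset.sum_congr rfl h1, Finset.sum_const, Finset.card_univ, nsmul_eq_mul, ← mul_assoc,
      Nat.card_eq_fintype_card, inv_mul_cancel₀, one_mul] at hBself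
    · exact hBself
    · exact_mod_cast Fintype.card_ne_zero
  have hn3 : n = 1 := by
    have : n * n = 1 := by exact_mod_cast hn2
    exact Nat.eq_one_of_mul_eq_one_right this
  subst hn3
  constructor
  · rw [hn1]; simp
  · intro x y
    rw [hchar, hchar, hchar, hmul]
    simp

/-- conjugation as a permutation of a subgroup -/
private def pcxE {G : Type} [Group G] {Q : Subgroup G} {t : G}
    (hQ : t ∈ Subgroup.normalizer (Q : Set G)) : Q ≃ Q where
  toFun x := ⟨t⁻¹ * x * t, (Subgroup.mem_normalizer_iff''.1 hQ x).1 x.2⟩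
  invFun x := ⟨t * x * t⁻¹, (Subgroup.mem_normalizer_iff.1 hQ x).1 x.2⟩
  left_inv := by
    intro x
    apply Subtype.ext
    change t * (t⁻¹ * x * t) * t⁻¹ = x
    group
  right_inv := by
    intro x
    apply Subtype.ext
    change t⁻¹ * (t * x * t⁻¹) * t = x
    group

/-- `Q ⊔ H` is the direct product -/
private lemma pcx_equiv (hL : Loc p K Q H) :
    ∃ e : (Q × H) ≃* (Q ⊔ H : Subgroup G), ∀ x h, ((e (x, h) : (Q ⊔ H : Subgroup G)) : G) = x * h := by
  let e : Q × H →* (Q ⊔ H : Subgroup G) :=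
    { toFun := fun z => ⟨(z.1 : G) * (z.2 : G), (Loc.mem_sup hL).2 ⟨z.1, z.1.2, z.2, z.2.2, rfl⟩⟩
      map_one' := by
        apply Subtype.ext
        simp
      map_mul' := by
        intro z w
        apply Subtype.ext
        change ((z.1 * w.1 : Q) : G) * ((z.2 * w.2 : H) : G) = (z.1 : G) * z.2 * ((w.1 : G) * w.2)
        rw [Subgroup.coe_mul, Subgroup.coe_mul]
        have h1 := Loc.comm hL w.1.2 z.2.2
        calc (z.1 : G) * w.1 * (z.2 * w.2) = z.1 * (w.1 * z.2) * w.2 := by group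
          _ = z.1 * (z.2 * w.1) * w.2 := by rw [h1]
          _ = _ := by group }
  refine ⟨MulEquiv.ofBijective e ⟨?_, ?_⟩, fun x h => rfl⟩
  · rintro ⟨x, h⟩ ⟨y, k⟩ he
    have h1 : (x : G) * h = y * k := congrArg Subtype.val he
    obtain ⟨h2, h3⟩ := Loc.mul_inj hL x.2 y.2 h.2 k.2 h1
    rw [Prod.mk.injEq]
    exact ⟨Subtype.ext h2, Subtype.ext h3⟩
  · rintro ⟨c, hc⟩
    obtain ⟨x, hx, h, hh, rfl⟩ := (Loc.mem_sup hL).1 hc
    exact ⟨(⟨x, hx⟩, ⟨h, hh⟩), rfl⟩

omit [Finite G] in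
private lemma pcx_oneS {Q : Subgroup G} {x : G} (hx : x ∈ Q) : oneS Q x = 1 := by
  unfold oneS
  rw [if_pos hx]

/-- Irreducible characters of the abelian group `Q` are linear (`irr_inv_iff` of S4/F1a.lean for
`I = ⊥` has the same content; or: commuting operators and Schur): they are multiplicative on `Q`. -/
theorem lin_mul (hL : Loc p K Q H) {lam : G → ℂ} (hl : lam ∈ IrrS Q) :
    lam 1 = 1 ∧ ∀ x ∈ Q, ∀ y ∈ Q, lam (x * y) = lam x * lam y := by
  have h := pcx_comm_lin (A := Q) (fun x y => Subtype.ext (Loc.commQ hL x.2 y.2)) hl.1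
  exact ⟨h.1, fun x hx y hy => h.2 ⟨x, hx⟩ ⟨y, hy⟩⟩

theorem prodC_apply (hL : Loc p K Q H) {lam φ : G → ℂ} (hφ : φ ∈ IrrS H) {x h : G} (hx : x ∈ Q)
    (hh : h ∈ H) : prodC Q lam φ (x * h) = lam x * φ h := by
  unfold prodC
  rw [finsum_eq_single _ (⟨x, hx⟩ : Q)]
  · change lam x * φ (x⁻¹ * (x * h)) = _
    rw [inv_mul_cancel_left]
  · intro y hy
    have h1 : (y : G)⁻¹ * (x * h) ∉ H := by
      intro h2
      have h3 : (y : G)⁻¹ * x ∈ H := by
        have h5 := H.mul_mem h2 (H.inv_mem hh)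
        have e : (y : G)⁻¹ * (x * h) * h⁻¹ = (y : G)⁻¹ * x := by group
        rwa [e] at h5
      have h4 := Loc.disj hL (Q.mul_mem (Q.inv_mem y.2) hx) h3
      apply hy
      apply Subtype.ext
      exact (inv_mul_eq_one.1 h4)
    rw [hφ.2 _ h1, mul_zero]

/-- Irreducible: `g = x h ↦ φ h` is the inflation of an irreducible character along the projection
`C → H` (a surjective homomorphism with kernel `Q`; the irreducible representation of `H` composed
with a surjection is irreducible), and `g ↦ lam x` is a linear character of `C`; use `irr_linTwist`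
of INC/Red2.lean. -/
theorem prodC_mem (hL : Loc p K Q H) {lam φ : G → ℂ} (hl : lam ∈ IrrS Q) (hφ : φ ∈ IrrS H) :
    prodC Q lam φ ∈ IrrS (Q ⊔ H) := by
  classical
  obtain ⟨e, he⟩ := pcx_equiv hL
  obtain ⟨hl1, hlm⟩ := lin_mul hL hl
  let l0 : Q →* ℂ :=
    { toFun := fun x => lam x
      map_one' := hl1
      map_mul' := fun x y => hlm x x.2 y y.2 }
  let l : (Q ⊔ H : Subgroup G) →* ℂˣ :=
    (MonoidHom.toHomUnits l0).comp ((MonoidHom.fst Q H).comp e.symm.toMonoidHom)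
  let π : (Q ⊔ H : Subgroup G) →* H := (MonoidHom.snd Q H).comp e.symm.toMonoidHom
  have hπ : Function.Surjective π := by
    intro h
    refine ⟨e (1, h), ?_⟩
    change (e.symm (e (1, h))).2 = h
    rw [MulEquiv.symm_apply_apply]
  have h1 := irr_linTwist l (irr_infl π hπ hφ.1)
  refine ⟨?_, ?_⟩
  · have h2 : (fun c : (Q ⊔ H : Subgroup G) => prodC Q lam φ (c : G)) =
        fun c => ((l c : ℂˣ) : ℂ) * (fun c => (fun h : H => φ h) (π c)) c := by
      funext c
      obtain ⟨⟨x, h⟩, rfl⟩ := e.surjective c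
      rw [he, prodC_apply hL hφ x.2 h.2]
      change lam x * φ h = lam ((e.symm (e (x, h))).1 : Q) * φ ((e.symm (e (x, h))).2 : H)
      rw [MulEquiv.symm_apply_apply]
    rw [h2]
    exact h1
  · intro g hg
    unfold prodC
    apply finsum_eq_zero_of_forall_eq_zero
    intro x
    have h2 : (x : G)⁻¹ * g ∉ H := by
      intro h3
      apply hg
      rw [Loc.mem_sup hL]
      exact ⟨x, x.2, _, h3, by group⟩
    rw [hφ.2 _ h2, mul_zero]

/-- reindex the sum by conjugation with `a` -/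
theorem cnj_prodC (Q : Subgroup G) {a : G} (haQ : a ∈ Subgroup.normalizer (Q : Set G))
    (lam φ : G → ℂ) : cnj a (prodC Q lam φ) = prodC Q (cnj a lam) (cnj a φ) := by
  funext g
  change ∑ᶠ x : Q, lam (x : G) * φ ((x : G)⁻¹ * (a⁻¹ * g * a)) =
    ∑ᶠ x : Q, lam (a⁻¹ * x * a) * φ (a⁻¹ * ((x : G)⁻¹ * g) * a)
  rw [← finsum_comp_equiv (pcxE haQ)]
  apply finsum_congr
  intro x
  change lam (a⁻¹ * x * a) * φ ((a⁻¹ * x * a)⁻¹ * (a⁻¹ * g * a)) = _
  congr 2
  group

/-- Compare values at `x * 1` and at `1 * h`: `lam x * φ 1 = lam' x * φ' 1`, with `lam 1 = lam' 1 = 1`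
and `φ 1 ≠ 0`. -/
theorem prodC_inj (hL : Loc p K Q H) {lam lam' φ φ' : G → ℂ} (hl : lam ∈ IrrS Q)
    (hl' : lam' ∈ IrrS Q) (hφ : φ ∈ IrrS H) (hφ' : φ' ∈ IrrS H)
    (he : prodC Q lam φ = prodC Q lam' φ') : lam = lam' ∧ φ = φ' := by
  obtain ⟨hl1, -⟩ := lin_mul hL hl
  obtain ⟨hl1', -⟩ := lin_mul hL hl'
  have h1 : ∀ x ∈ Q, ∀ h ∈ H, lam x * φ h = lam' x * φ' h := by
    intro x hx h hh
    rw [← prodC_apply hL hφ hx hh, ← prodC_apply hL hφ' hx hh, he]
  have h2 : ∀ h ∈ H, φ h = φ' h := by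
    intro h hh
    have h3 := h1 1 Q.one_mem h hh
    rwa [hl1, hl1', one_mul, one_mul] at h3
  have h3 : φ 1 ≠ 0 := irrS_one_ne hφ
  constructor
  · funext x
    by_cases hx : x ∈ Q
    · have h4 := h1 x hx 1 H.one_mem
      rw [← h2 1 H.one_mem] at h4
      exact mul_right_cancel₀ h3 h4
    · rw [hl.2 x hx, hl'.2 x hx]
  · funext x
    by_cases hx : x ∈ H
    · exact h2 x hx
    · rw [hφ.2 x hx, hφ'.2 x hx]

/-- `aa` is the difference of two multiplicities on `Q ⊔ H` (which has order `|Q| |H|`) -/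
theorem aa_eq_ip (hL : Loc p K Q H) {lam φ : G → ℂ} (hφ : φ ∈ IrrS H)
    (χ : G → ℂ) : aa Q H χ lam φ =
      ip (Q ⊔ H) χ (prodC Q lam φ) - ip (Q ⊔ H) χ (prodC Q (oneS Q) φ) := by
  classical
  obtain ⟨e, he⟩ := pcx_equiv hL
  have := Fintype.ofFinite Q
  have := Fintype.ofFinite H
  have key : ∀ lam' : G → ℂ, ip (Q ⊔ H) χ (prodC Q lam' φ) =
      ((Nat.card Q : ℂ) * (Nat.card H : ℂ))⁻¹ *
        ∑ x : Q, ∑ h : H, χ ((x : G) * (h : G)) * (lam' (x : G)⁻¹ * φ (h : G)⁻¹) := by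
    intro lam'
    unfold ip B
    rw [← Nat.card_congr e.toEquiv, Nat.card_prod, ← finsum_comp_equiv e.toEquiv,
      finsum_eq_sum_of_fintype, Fintype.sum_prod_type]
    push_cast
    congr 1
    refine Finset.sum_congr rfl fun x _ => Finset.sum_congr rfl fun h _ => ?_
    have h1 : ((e (x, h) : (Q ⊔ H : Subgroup G)) : G)⁻¹ = (x : G)⁻¹ * (h : G)⁻¹ := by
      rw [he, Loc.comm hL x.2 h.2, mul_inv_rev]
    change χ ((e (x, h) : (Q ⊔ H : Subgroup G)) : G) *
      prodC Q lam' φ (((e (x, h))⁻¹ : (Q ⊔ H : Subgroup G)) : G) = _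
    rw [Subgroup.coe_inv, h1, prodC_apply hL hφ (Q.inv_mem x.2) (H.inv_mem h.2), he]
  rw [key, key, ← mul_sub]
  unfold aa
  simp only [finsum_eq_sum_of_fintype]
  congr 1
  rw [← Finset.sum_sub_distrib]
  refine Finset.sum_congr rfl fun x _ => ?_
  rw [← Finset.sum_sub_distrib]
  refine Finset.sum_congr rfl fun h _ => ?_
  rw [pcx_oneS (Q.inv_mem x.2)]
  ring

/-- A nontrivial character of `Q` has trivial kernel (`|Q| = p` is prime), so an element `a` of
`normalizer Q` fixing it satisfies `lam (a⁻¹ x a x⁻¹) = 1` for `x ∈ Q`, that is `a⁻¹ x a = x`. -/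
theorem stab_lam (hL : Loc p K Q H) {lam : G → ℂ} (hl : lam ∈ IrrS Q) (h1 : lam ≠ oneS Q) {a : G}
    (haQ : a ∈ Subgroup.normalizer (Q : Set G)) (ha : cnj a lam = lam) :
    a ∈ Subgroup.centralizer (Q : Set G) := by
  classical
  obtain ⟨hl1, hlm⟩ := lin_mul hL hl
  rw [Subgroup.mem_centralizer_iff]
  intro x hx
  have hy : a⁻¹ * x * a ∈ Q := (Subgroup.mem_normalizer_iff''.1 haQ x).1 hx
  have hxy : lam (a⁻¹ * x * a) = lam x := congrFun ha x
  have hz : lam (a⁻¹ * x * a * x⁻¹) = 1 := by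
    rw [hlm _ hy _ (Q.inv_mem hx), hxy, ← hlm _ hx _ (Q.inv_mem hx), mul_inv_cancel, hl1]
  have hzQ : a⁻¹ * x * a * x⁻¹ ∈ Q := Q.mul_mem hy (Q.inv_mem hx)
  have hz1 : a⁻¹ * x * a * x⁻¹ = 1 := by
    by_contra hne
    apply h1
    let l0 : Q →* ℂ :=
      { toFun := fun x => lam x
        map_one' := hl1
        map_mul' := fun x y => hlm x x.2 y y.2 }
    funext q
    by_cases hq : q ∈ Q
    · rw [pcx_oneS hq]
      have h2 : (⟨q, hq⟩ : Q) ∈ Submonoid.powers (⟨_, hzQ⟩ : Q) :=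
        mem_powers_of_prime_card hL.cQ (fun h => hne (congrArg Subtype.val h))
      obtain ⟨k, hk⟩ := (Submonoid.mem_powers_iff _ _).1 h2
      have h3 : l0 ⟨q, hq⟩ = 1 := by
        rw [← hk, map_pow]
        have h4 : l0 ⟨_, hzQ⟩ = 1 := hz
        rw [h4, one_pow]
      exact h3
    · rw [hl.2 q hq, (oneS_mem Q).2 q hq]
  have h5 : a⁻¹ * x * a = x := mul_inv_eq_one.1 hz1
  calc x * a = a * (a⁻¹ * x * a) := by group
    _ = a * x := by rw [h5]

/-- The sum of `lam x⁻¹` over `Q` vanishes for `lam ≠ oneS Q` (orthogonality with the trivial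
character). -/
theorem sum_lam (hL : Loc p K Q H) {lam : G → ℂ} (hl : lam ∈ IrrS Q) (h1 : lam ≠ oneS Q) :
    ∑ᶠ x : Q, lam (x : G)⁻¹ = 0 := by
  classical
  obtain ⟨hl1, hlm⟩ := lin_mul hL hl
  have := Fintype.ofFinite Q
  obtain ⟨q, hq, hq1⟩ : ∃ q ∈ Q, lam q ≠ 1 := by
    by_contra hcon
    push Not at hcon
    apply h1
    funext q
    by_cases hq : q ∈ Q
    · rw [pcx_oneS hq, hcon q hq]
    · rw [hl.2 q hq, (oneS_mem Q).2 q hq]
  rw [finsum_eq_sum_of_fintype]
  have h2 : lam q * ∑ x : Q, lam (x : G)⁻¹ = ∑ x : Q, lam (x : G)⁻¹ := by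
    rw [Finset.mul_sum]
    rw [← Equiv.sum_comp (Equiv.mulRight (⟨q, hq⟩ : Q)) (fun x : Q => lam q * lam (x : G)⁻¹)]
    refine Finset.sum_congr rfl fun x _ => ?_
    change lam q * lam ((x : G) * q)⁻¹ = lam (x : G)⁻¹
    have h3 : ((x : G) * q)⁻¹ = q⁻¹ * (x : G)⁻¹ := mul_inv_rev _ _
    rw [h3, ← hlm _ hq _ (Q.mul_mem (Q.inv_mem hq) (Q.inv_mem x.2)), mul_inv_cancel_left]
  have h4 : (lam q - 1) * ∑ x : Q, lam (x : G)⁻¹ = 0 := by
    rw [sub_mul, one_mul, h2, sub_self]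
  rcases mul_eq_zero.1 h4 with h5 | h5
  · exact absurd (sub_eq_zero.1 h5) hq1
  · exact h5

end Pool.Agent.Helper97.S4
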